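import Mathlib

/-!
Configurations of plates: finite combinatorial data (points and affine functionals of `ℝ³`)
describing convex plates which are pairwise disjoint, except that adjacent plates touch in one
point of their common supporting line, in a valley position.
-/

namespace PolySurf

open Filter Topology

/-- Points of 3-space. -/
structure Pt where
  x : ℝ
  z : ℝ
  m : ℝ

/-- Affine functionals on 3-space. -/
structure Aff where
  a : ℝ
  b : ℝ
  c : ℝ
  d : ℝ

namespace Aff

/-- Evaluation. -/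
def ev (l : Aff) (p : Pt) : ℝ := l.a * p.x + l.b * p.z + l.c * p.m + l.d

/-- Negation. -/
def neg (l : Aff) : Aff := ⟨-l.a, -l.b, -l.c, -l.d⟩

@[simp] theorem ev_neg (l : Aff) (p : Pt) : l.neg.ev p = - l.ev p := by
  simp only [ev, neg]; ring

@[simp] theorem neg_c (l : Aff) : l.neg.c = - l.c := rfl

/-- linear part -/
def lin (l : Aff) (p : Pt) : ℝ := l.a * p.x + l.b * p.z + l.c * p.m

end Aff

/-- `p + t d` -/
def Pt.move (p d : Pt) (t : ℝ) : Pt := ⟨p.x + t * d.x, p.z + t * d.z, p.m + t * d.m⟩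

theorem Aff.ev_move (l : Aff) (p d : Pt) (t : ℝ) : l.ev (p.move d t) = l.ev p + t * l.lin d := by
  simp only [Aff.ev, Aff.lin, Pt.move]; ring

/-- `l` is positive at all points of the plate `u`. -/
def PosOn {V : Type} (G : SimpleGraph V) (q : V → V → Pt) (e : V → Pt) (l : Aff) (u : V) : Prop :=
  0 < l.ev (e u) ∧ ∀ w, G.Adj u w → 0 < l.ev (q u w)

/-- A configuration of plates with contact graph `G`. -/
structure Config {V : Type} (G : SimpleGraph V) where
  /-- the plane of a plate -/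
  f : V → Aff
  /-- the contact points -/
  q : V → V → Pt
  /-- the exposed points -/
  e : V → Pt
  hc : ∀ v, 0 < (f v).c
  q_symm : ∀ u v, G.Adj u v → q u v = q v u
  on_q : ∀ u v, G.Adj u v → (f u).ev (q u v) = 0
  on_e : ∀ v, (f v).ev (e v) = 0
  pos_q : ∀ u v w, G.Adj u v → G.Adj u w → w ≠ v → 0 < (f v).ev (q u w)
  pos_e : ∀ u v, G.Adj u v → 0 < (f v).ev (e u)
  sep : ∀ u v, u ≠ v → ¬ G.Adj u v → ∃ l : Aff, PosOn G q e l u ∧ PosOn G q e l.neg v
  left : ∀ v w, G.Adj v w → (e v).x < (q v w).x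
  inj : Function.Injective fun v => (e v).x
  expo : ∀ u v, u ≠ v → ∃ l : Aff, l.c < 0 ∧ l.ev (e v) < 0 ∧ PosOn G q e l u

/-- The contact graph of the next configuration. -/
def nextGraph {V ι : Type} (G : SimpleGraph V) :
    SimpleGraph ((ι → V) ⊕ (Combinatorics.Line V ι × V)) where
  Adj x y := match x, y with
    | Sum.inl _, Sum.inl _ => False
    | Sum.inl w, Sum.inr (L, v) => L v = w
    | Sum.inr (L, v), Sum.inl w => L v = w
    | Sum.inr (L, u), Sum.inr (L', v) => L = L' ∧ G.Adj u v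
  symm := ⟨by
    rintro (w | ⟨L, v⟩) (w' | ⟨L', v'⟩) h
    · exact h
    · exact h
    · exact h
    · exact ⟨h.1.symm, h.2.symm⟩⟩
  loopless := ⟨by
    rintro (w | ⟨L, v⟩) h
    · exact h
    · exact G.loopless.irrefl _ h.2⟩

theorem nextGraph_not_colorable {V : Type} {ι : Type} (G : SimpleGraph V) (k : ℕ)
    (hG : ¬ G.Colorable k)
    (hι : ∀ C : (ι → V) → Fin (k + 1), ∃ l : Combinatorics.Line V ι, l.IsMono C) :
    ¬ (nextGraph (ι := ι) G).Colorable (k + 1) := by
  rintro ⟨col⟩
  obtain ⟨L, c, hL⟩ := hι fun w => col (Sum.inl w)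
  apply hG
  -- the copy `L` avoids the colour `c`
  have havoid : ∀ v, col (Sum.inr (L, v)) ≠ c := by
    intro v h
    have h1 : (nextGraph (ι := ι) G).Adj (Sum.inr (L, v)) (Sum.inl (L v)) := rfl
    exact col.valid h1 (h.trans (hL v).symm)
  refine ⟨SimpleGraph.Coloring.mk (fun v => (finSuccAboveEquiv c).symm ⟨col (Sum.inr (L, v)), havoid v⟩) ?_⟩
  intro u v huv h
  have h1 := (finSuccAboveEquiv c).symm.injective h
  have h2 : col (Sum.inr (L, u)) = col (Sum.inr (L, v)) := congrArg Subtype.val h1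
  have h3 : (nextGraph (ι := ι) G).Adj (Sum.inr (L, u)) (Sum.inr (L, v)) := ⟨rfl, huv⟩
  exact col.valid h3 h2

/-- Restriction of a configuration to an induced subgraph. -/
def Config.restrict {V : Type} {G : SimpleGraph V} (C : Config G) {W : Type} (i : W → V)
    (hi : Function.Injective i) : Config (G.comap i) where
  f w := C.f (i w)
  q u v := C.q (i u) (i v)
  e w := C.e (i w)
  hc v := C.hc _
  q_symm u v h := C.q_symm _ _ h
  on_q u v h := C.on_q _ _ h
  on_e v := C.on_e _
  pos_q u v w h h' hne := C.pos_q _ _ _ h h' fun h => hne (hi h)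
  pos_e u v h := C.pos_e _ _ h
  sep u v hne h := by
    obtain ⟨l, h1, h2⟩ := C.sep (i u) (i v) (fun h => hne (hi h)) h
    exact ⟨l, ⟨h1.1, fun w hw => h1.2 _ hw⟩, ⟨h2.1, fun w hw => h2.2 _ hw⟩⟩
  left v w h := C.left _ _ h
  inj := C.inj.comp hi
  expo u v hne := by
    obtain ⟨l, h0, h1, h2⟩ := C.expo (i u) (i v) (fun h => hne (hi h))
    exact ⟨l, h0, h1, ⟨h2.1, fun w hw => h2.2 _ hw⟩⟩

/-- The one-plate configuration. -/
def Config.single : Config (⊥ : SimpleGraph Unit) where
  f _ := ⟨0, 0, 1, 0⟩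
  q _ _ := ⟨0, 0, 0⟩
  e _ := ⟨0, 0, 0⟩
  hc _ := one_pos
  q_symm _ _ _ := rfl
  on_q _ _ _ := by simp [Aff.ev]
  on_e _ := by simp [Aff.ev]
  pos_q _ _ _ h := absurd h (by simp)
  pos_e _ _ h := absurd h (by simp)
  sep u v h := absurd (Subsingleton.elim u v) h
  left _ _ h := absurd h (by simp)
  inj := Function.injective_of_subsingleton _
  expo u v h := absurd (Subsingleton.elim u v) h

end PolySurf
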