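import Pool.Agent.Helper96.PolySurf.Cfg

/-!
The inductive step: geometric construction of the next configuration.
-/

namespace PolySurf

open Filter Topology Combinatorics

theorem ev_pos {F : ℝ → ℝ} (hF : Continuous F) (h : 0 < F 0) :
    ∀ᶠ t in 𝓝[>] (0:ℝ), 0 < F t := by
  have h1 : Tendsto F (𝓝[>] 0) (𝓝 (F 0)) := hF.continuousAt.tendsto.mono_left nhdsWithin_le_nhds
  exact h1.eventually (lt_mem_nhds h)

theorem ev_gt : ∀ᶠ t in 𝓝[>] (0:ℝ), 0 < t := self_mem_nhdsWithin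

theorem ev_move {l : Aff} {p d : Pt} (h : 0 < l.ev p) :
    ∀ᶠ t in 𝓝[>] (0:ℝ), 0 < l.ev (p.move d t) := by
  have h1 : Continuous fun t : ℝ => l.ev p + t * l.lin d := by fun_prop
  have h2 := ev_pos h1 (by simpa using h)
  filter_upwards [h2] with t ht
  rw [Aff.ev_move]; exact ht

/-- Parameters of the construction. -/
structure Par (V ι : Type) where
  r : ι → ℝ
  Z : Line V ι → ℝ
  mu : ℝ
  H : ℝ

variable {V ι : Type} [Fintype ι] {G : SimpleGraph V}

namespace Par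

open Classical in
/-- the scale of a copy -/
noncomputable def lam (P : Par V ι) (L : Line V ι) : ℝ :=
  ∑ j, if L.idxFun j = none then P.r j else 0

end Par

/-- position of the exposed point -/
def Config.Yv (C : Config G) (ε : ℝ) (v : V) : ℝ := (C.e v).x + ε * (C.e v).m

namespace Par

variable (P : Par V ι) (C : Config G)

/-- position of a wall -/
noncomputable def Yw (ε : ℝ) (w : ι → V) : ℝ := ∑ j, P.r j * C.Yv ε (w j)

/-- offset of a copy -/
noncomputable def cc (ε : ℝ) (L : Line V ι) : ℝ :=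
  ∑ j, (match L.idxFun j with
    | none => 0
    | some v => P.r j * C.Yv ε v)

theorem Yw_line (ε : ℝ) (L : Line V ι) (v : V) :
    P.Yw C ε (L v) = P.lam L * C.Yv ε v + P.cc C ε L := by
  classical
  unfold Yw lam cc
  rw [Finset.sum_mul, ← Finset.sum_add_distrib]
  refine Finset.sum_congr rfl fun j _ => ?_
  rw [Line.apply_def]
  dsimp only
  cases h : L.idxFun j with
  | none => simp
  | some u => simp

theorem lam_pos (hr : ∀ j, 0 < P.r j) (L : Line V ι) : 0 < P.lam L := by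
  classical
  unfold lam
  obtain ⟨i, hi⟩ := L.proper
  refine Finset.sum_pos' (fun j _ => ?_) ⟨i, Finset.mem_univ _, ?_⟩
  · split_ifs
    · exact (hr j).le
    · exact le_rfl
  · simp only [hi, if_true]; exact hr i

/-- height of the floor -/
def A (L : Line V ι) (z : ℝ) : ℝ := P.Z L ^ 2 + 2 * P.Z L * z

/-- placing a point of the configuration in the copy `L` -/
noncomputable def Phi (ε : ℝ) (L : Line V ι) (p : Pt) : Pt :=
  ⟨P.lam L * p.x + P.cc C ε L - P.mu * P.A L p.z, P.Z L + p.z,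
    P.mu * P.A L p.z + P.lam L * ε * p.m⟩

/-- functional in the copy `L` -/
noncomputable def pull (ε : ℝ) (L : Line V ι) (g : Aff) : Aff :=
  ⟨ε * g.a, ε * g.a * P.mu * 2 * P.Z L + P.lam L * ε * g.b - g.c * P.mu * 2 * P.Z L, g.c,
    ε * g.a * (- P.cc C ε L - P.mu * P.Z L ^ 2) - P.lam L * ε * g.b * P.Z L
      + g.c * P.mu * P.Z L ^ 2 + P.lam L * ε * g.d⟩

theorem ev_pull_Phi (ε : ℝ) (L : Line V ι) (g : Aff) (p : Pt) :
    (P.pull C ε L g).ev (P.Phi C ε L p) = P.lam L * ε * g.ev p := by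
  simp only [pull, Phi, Aff.ev, A]; ring

@[simp] theorem pull_c (ε : ℝ) (L : Line V ι) (g : Aff) : (P.pull C ε L g).c = g.c := rfl

theorem pull_neg (ε : ℝ) (L : Line V ι) (g : Aff) :
    P.pull C ε L g.neg = (P.pull C ε L g).neg := by
  simp only [pull, Aff.neg, Aff.mk.injEq]
  refine ⟨by ring, by ring, trivial, by ring⟩

/-- top of a wall -/
noncomputable def top (ε : ℝ) (w : ι → V) : Pt :=
  ⟨P.Yw C ε w - P.mu * P.H, 0, P.mu * P.H⟩

/-- the plane of a wall -/
noncomputable def wallF (ε : ℝ) (w : ι → V) : Aff := ⟨1, 0, 1, - P.Yw C ε w⟩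

/-- growth direction -/
noncomputable def dir (ε : ℝ) (L : Line V ι) (v : V) : Pt :=
  ⟨- P.mu * P.Z L, 1,
    - ((P.pull C ε L (C.f v)).a * (- P.mu * P.Z L) + (P.pull C ε L (C.f v)).b) / (C.f v).c⟩

theorem lin_dir (ε : ℝ) (L : Line V ι) (v : V) :
    (P.pull C ε L (C.f v)).lin (P.dir C ε L v) = 0 := by
  have h := (C.hc v).ne'
  have h2 : (P.pull C ε L (C.f v)).c = (C.f v).c := rfl
  simp only [Aff.lin, dir, h2]
  field_simp
  ring

/-- planes -/
noncomputable def nf (ε : ℝ) : (ι → V) ⊕ (Line V ι × V) → Aff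
  | Sum.inl w => P.wallF C ε w
  | Sum.inr (L, v) => P.pull C ε L (C.f v)

/-- contact points -/
noncomputable def nq (ε : ℝ) : (ι → V) ⊕ (Line V ι × V) → (ι → V) ⊕ (Line V ι × V) → Pt
  | Sum.inl _, Sum.inr (L, v) => P.Phi C ε L (C.e v)
  | Sum.inr (L, v), Sum.inl _ => P.Phi C ε L (C.e v)
  | Sum.inr (L, u), Sum.inr (_, v) => P.Phi C ε L (C.q u v)
  | Sum.inl _, Sum.inl _ => ⟨0, 0, 0⟩

/-- exposed points -/
noncomputable def ne (ε τ : ℝ) : (ι → V) ⊕ (Line V ι × V) → Pt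
  | Sum.inl w => P.top C ε w
  | Sum.inr (L, v) => (P.Phi C ε L (C.e v)).move (P.dir C ε L v) τ

theorem posOn_inl {ε τ : ℝ} {l : Aff} {w : ι → V} (h0 : 0 < l.ev (P.top C ε w))
    (h : ∀ L v, L v = w → 0 < l.ev (P.Phi C ε L (C.e v))) :
    PosOn (nextGraph (ι := ι) G) (P.nq C ε) (P.ne C ε τ) l (Sum.inl w) := by
  refine ⟨h0, ?_⟩
  rintro (w' | ⟨L, v⟩) hadj
  · exact absurd hadj (by simp [nextGraph])
  · exact h L v hadj

theorem posOn_inr {ε τ : ℝ} {l : Aff} {L : Line V ι} {v : V}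
    (h0 : 0 < l.ev ((P.Phi C ε L (C.e v)).move (P.dir C ε L v) τ))
    (h1 : 0 < l.ev (P.Phi C ε L (C.e v)))
    (h2 : ∀ u, G.Adj v u → 0 < l.ev (P.Phi C ε L (C.q v u))) :
    PosOn (nextGraph (ι := ι) G) (P.nq C ε) (P.ne C ε τ) l (Sum.inr (L, v)) := by
  refine ⟨h0, ?_⟩
  rintro (w' | ⟨L', u⟩) hadj
  · exact h1
  · exact h2 u hadj.2

/-- Requirements on the parameters. -/
structure Good (P : Par V ι) (C : Config G) (B : ℝ) : Prop where
  hB : 1 ≤ B
  hr : ∀ j, 0 < P.r j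
  hmu : 0 < P.mu
  hHpos : 0 < P.H
  hZ : ∀ L, 4 * B ≤ P.Z L
  hZ2 : ∀ L L', L ≠ L' → 4 * B ≤ |P.Z L - P.Z L'|
  he : ∀ v, |(C.e v).z| ≤ B
  hq : ∀ u v, G.Adj u v → |(C.q u v).z| ≤ B
  hH : ∀ L z, |z| ≤ B → P.A L z < P.H
  hgap : ∀ w w' : ι → V, w ≠ w' → P.mu * P.H < |P.Yw C 0 w - P.Yw C 0 w'|
  hleft : ∀ L v u, G.Adj v u → P.lam L * (C.e v).x - P.mu * P.A L (C.e v).z <
    P.lam L * (C.q v u).x - P.mu * P.A L (C.q v u).z

variable {P C} {B : ℝ}

theorem Good.H_pos (h : P.Good C B) (L : Line V ι) : 0 < P.H := by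
  have h1 := h.hH L 0 (by simpa using le_trans zero_le_one h.hB)
  have h2 : P.A L 0 = P.Z L ^ 2 := by simp [A]
  nlinarith [sq_nonneg (P.Z L)]

theorem Good.Z_pos (h : P.Good C B) (L : Line V ι) : 0 < P.Z L := by
  linarith [h.hZ L, h.hB]

theorem Good.A_pos (h : P.Good C B) (L : Line V ι) {z : ℝ} (hz : |z| ≤ B) : 0 < P.A L z := by
  have h1 := h.hZ L
  have h2 := h.hB
  have h3 := (abs_le.1 hz).1
  have : P.A L z = P.Z L * (P.Z L + 2 * z) := by simp only [A]; ring
  rw [this]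
  apply mul_pos <;> linarith

theorem Good.F1 (h : P.Good C B) {L L2 : Line V ι} (hne : L ≠ L2) {z : ℝ} (hz : |z| ≤ B) :
    0 < P.A L2 z - (2 * P.Z L * (P.Z L2 + z) - P.Z L ^ 2) := by
  have h1 := h.hZ2 L L2 hne
  have h2 := h.hB
  have h3 := abs_le.1 hz
  have e : P.A L2 z - (2 * P.Z L * (P.Z L2 + z) - P.Z L ^ 2) =
      (P.Z L - P.Z L2) * (P.Z L - P.Z L2 - 2 * z) := by simp only [A]; ring
  rw [e]
  rcases le_abs.1 h1 with h4 | h4
  · apply mul_pos <;> linarith
  · apply mul_pos_of_neg_of_neg <;> linarith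

theorem Good.F2 (h : P.Good C B) {L L2 : Line V ι} (hne : L ≠ L2) {z z2 : ℝ} (hz : |z| ≤ B)
    (hz2 : |z2| ≤ B) : P.A L z ≠ P.A L2 z2 := by
  have key : ∀ (L L2 : Line V ι) (z z2 : ℝ), |z| ≤ B → |z2| ≤ B → 4 * B ≤ P.Z L2 - P.Z L →
      P.A L z < P.A L2 z2 := by
    intro L L2 z z2 hz hz2 h1
    have h2 := h.hB
    have h3 := abs_le.1 hz
    have h4 := abs_le.1 hz2
    have h5 := h.hZ L
    have e1 : P.A L z = P.Z L * (P.Z L + 2 * z) := by simp only [A]; ring
    have e2 : P.A L2 z2 = P.Z L2 * (P.Z L2 + 2 * z2) := by simp only [A]; ring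
    rw [e1, e2]
    apply mul_lt_mul <;> linarith
  rcases le_abs.1 (h.hZ2 L L2 hne) with h4 | h4
  · exact (key L2 L z2 z hz2 hz h4).ne'
  · exact (key L L2 z z2 hz hz2 (by linarith)).ne

theorem cont_Yv (v : V) : Continuous fun ε => C.Yv ε v := by
  unfold Config.Yv; fun_prop

theorem cont_Yw (w : ι → V) : Continuous fun ε => P.Yw C ε w := by
  unfold Yw Config.Yv; fun_prop

theorem cont_cc (L : Line V ι) : Continuous fun ε => P.cc C ε L := by
  unfold cc
  refine continuous_finsetSum _ fun j _ => ?_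
  cases h : L.idxFun j with
  | none => simpa using continuous_const
  | some v =>
    have : Continuous fun ε => P.r j * C.Yv ε v := by unfold Config.Yv; fun_prop
    exact this

theorem cont_Phi_ev (l : Aff) (L : Line V ι) (p : Pt) :
    Continuous fun ε => l.ev (P.Phi C ε L p) := by
  have := cont_cc (P := P) (C := C) L
  simp only [Aff.ev, Phi]
  fun_prop

theorem cont_top_ev (l : Aff) (w : ι → V) :
    Continuous fun ε => l.ev (P.top C ε w) := by
  have := cont_Yw (P := P) (C := C) w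
  simp only [Aff.ev, top]
  fun_prop

/-- a pulled functional with positive `c` is eventually positive on the other floors -/
theorem Good.lim1 (h : P.Good C B) {g : Aff} (hg : 0 < g.c) {L L2 : Line V ι} (hne : L ≠ L2)
    {p : Pt} (hp : |p.z| ≤ B) :
    ∀ᶠ ε in 𝓝[>] (0:ℝ), 0 < (P.pull C ε L g).ev (P.Phi C ε L2 p) := by
  have c1 := cont_cc (P := P) (C := C) L
  have c2 := cont_cc (P := P) (C := C) L2
  refine ev_pos ?_ ?_
  · simp only [Aff.ev, Phi, pull]
    fun_prop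
  · have h1 := h.F1 hne hp
    have e : (P.pull C 0 L g).ev (P.Phi C 0 L2 p) =
        g.c * P.mu * (P.A L2 p.z - (2 * P.Z L * (P.Z L2 + p.z) - P.Z L ^ 2)) := by
      simp only [Aff.ev, Phi, pull]; ring
    rw [e]
    exact mul_pos (mul_pos hg h.hmu) h1

/-- a pulled functional with positive `c` is eventually positive on the tops -/
theorem Good.lim2 (h : P.Good C B) {g : Aff} (hg : 0 < g.c) (L : Line V ι) (w : ι → V) :
    ∀ᶠ ε in 𝓝[>] (0:ℝ), 0 < (P.pull C ε L g).ev (P.top C ε w) := by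
  have c1 := cont_cc (P := P) (C := C) L
  have c2 := cont_Yw (P := P) (C := C) w
  refine ev_pos ?_ ?_
  · simp only [Aff.ev, top, pull]
    fun_prop
  · have e : (P.pull C 0 L g).ev (P.top C 0 w) = g.c * P.mu * (P.H + P.Z L ^ 2) := by
      simp only [Aff.ev, top, pull]; ring
    rw [e]
    exact mul_pos (mul_pos hg h.hmu) (by nlinarith [h.H_pos L, sq_nonneg (P.Z L)])

theorem wallF_Phi (ε : ℝ) (L : Line V ι) (v : V) (p : Pt) :
    (P.wallF C ε (L v)).ev (P.Phi C ε L p) =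
      P.lam L * ((p.x + ε * p.m) - ((C.e v).x + ε * (C.e v).m)) := by
  simp only [wallF, Aff.ev, Phi, Yw_line, Config.Yv]; ring

/-- sum of the first and the third coordinate of the growth direction -/
theorem Good.dir_sum (h : P.Good C B) (L : Line V ι) (v : V) :
    ∀ᶠ ε in 𝓝[>] (0:ℝ), 0 < (P.dir C ε L v).x + (P.dir C ε L v).m := by
  have hc := C.hc v
  have c1 := cont_cc (P := P) (C := C) L
  refine ev_pos ?_ ?_
  · simp only [dir, pull]
    fun_prop
  · have e : (P.dir C 0 L v).x + (P.dir C 0 L v).m = P.mu * P.Z L := by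
      simp only [dir, pull]
      field_simp
      ring
    rw [e]
    exact mul_pos h.hmu (h.Z_pos L)

omit [Fintype ι] in
theorem line_inj (L : Line V ι) {v v' : V} (h : L v = L v') : v = v' := by
  obtain ⟨i, hi⟩ := L.proper
  have := congrFun h i
  simpa [Line.apply_def, hi] using this

/-- positivity of a pulled functional on the own floor -/
theorem posOn_pull {ε : ℝ} (h : P.Good C B) (hε : 0 < ε) {g : Aff} {L : Line V ι} {v : V}
    (hg : PosOn G C.q C.e g v) :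
    ∀ᶠ τ in 𝓝[>] (0:ℝ), PosOn (nextGraph (ι := ι) G) (P.nq C ε) (P.ne C ε τ)
      (P.pull C ε L g) (Sum.inr (L, v)) := by
  have hl := P.lam_pos h.hr L
  have h1 : 0 < (P.pull C ε L g).ev (P.Phi C ε L (C.e v)) := by
    rw [ev_pull_Phi]
    exact mul_pos (mul_pos hl hε) hg.1
  filter_upwards [ev_move (d := P.dir C ε L v) h1] with τ hτ
  refine posOn_inr P C hτ h1 fun u hu => ?_
  rw [ev_pull_Phi]
  exact mul_pos (mul_pos hl hε) (hg.2 u hu)

end Par

end PolySurf
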