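import Pool.Agent.Helper96.PolySurf.Poly2D
import Pool.Agent.Helper96.PolySurf.Step

/-!
Closing data: convex polygonal plates with contact edges, a transversal direction, and a
thickness.
-/

namespace PolySurf

open Filter Topology

/-- difference of points -/
def Pt.sub (p q : Pt) : Pt := ⟨p.x - q.x, p.z - q.z, p.m - q.m⟩

/-- determinant -/
def det3 (A r w : Pt) : ℝ :=
  w.x * (A.z * r.m - A.m * r.z) + w.z * (A.m * r.x - A.x * r.m) + w.m * (A.x * r.z - A.z * r.x)

/-- Closing data on the contact graph `G`. -/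
structure Closing {V : Type} (G : SimpleGraph V) where
  f : V → Aff
  b : G.Dart → Pt
  w : Pt
  θ : ℝ
  hθ : 0 < θ
  hc : ∀ u, 0 < (f u).c
  hw : ∀ u, 0 < (f u).lin w
  on1 : ∀ d : G.Dart, (f d.fst).ev (b d) = 0
  on2 : ∀ d : G.Dart, (f d.snd).ev (b d) = 0
  deg : ∀ d : G.Dart, ∃ d' : G.Dart, d'.fst = d.fst ∧ d' ≠ d
  pos : ∀ d d' : G.Dart, (d'.fst = d.fst ∨ d'.snd = d.fst) → d' ≠ d → d' ≠ d.symm →
    0 < (f d.snd).ev (b d')
  orient : ∀ d d' : G.Dart, (d'.fst = d.fst ∨ d'.snd = d.fst) → d' ≠ d → d' ≠ d.symm →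
    0 < O (b d) (b d.symm) (b d')
  sep : ∀ u v, u ≠ v → ¬ G.Adj u v → ∃ l : Aff,
    (∀ d : G.Dart, (d.fst = u ∨ d.snd = u) → 0 < l.ev (b d) ∧ 0 < l.ev ((b d).move w θ)) ∧
    (∀ d : G.Dart, (d.fst = v ∨ d.snd = v) → l.ev (b d) < 0 ∧ l.ev ((b d).move w θ) < 0)
  gen : ∀ i j k : G.Dart, det3 ((b j).sub (b i)) ((b k).sub (b i)) w = 0 →
    ((b j).sub (b i)).z * ((b k).sub (b i)).m = ((b j).sub (b i)).m * ((b k).sub (b i)).z ∧
    ((b j).sub (b i)).m * ((b k).sub (b i)).x = ((b j).sub (b i)).x * ((b k).sub (b i)).m ∧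
    ((b j).sub (b i)).x * ((b k).sub (b i)).z = ((b j).sub (b i)).z * ((b k).sub (b i)).x

variable {V : Type} {G : SimpleGraph V}

theorem dart_symm_fst (d : G.Dart) : d.symm.fst = d.snd := rfl
theorem dart_symm_snd (d : G.Dart) : d.symm.snd = d.fst := rfl
theorem dart_ne (d : G.Dart) : d.fst ≠ d.snd := d.adj.ne
theorem dart_symm_ne (d : G.Dart) : d.symm ≠ d := by
  intro h
  have h1 := congrArg (fun e : G.Dart => e.fst) h
  exact dart_ne d h1.symm

theorem dart_ext {d d' : G.Dart} (h1 : d.fst = d'.fst) (h2 : d.snd = d'.snd) : d = d' := by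
  obtain ⟨⟨a, b⟩, hd⟩ := d
  obtain ⟨⟨a', b'⟩, hd'⟩ := d'
  simp only at h1 h2
  subst h1; subst h2; rfl

namespace Closing

variable (D : Closing G)

/-- the darts of the plate `u` -/
abbrev I (_D : Closing G) (u : V) : Type := {d : G.Dart // d.fst = u ∨ d.snd = u}

/-- the points of the plate `u` -/
def P (u : V) : D.I u → Pt := fun d => D.b d.1

theorem on {u : V} (d : G.Dart) (h : d.fst = u ∨ d.snd = u) : (D.f u).ev (D.b d) = 0 := by
  rcases h with h | h
  · rw [← h]; exact D.on1 d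
  · rw [← h]; exact D.on2 d

include D in
/-- a third dart -/
theorem third (d : G.Dart) : ∃ d' : G.Dart, d'.fst = d.fst ∧ d' ≠ d ∧ d' ≠ d.symm := by
  obtain ⟨d', h1, h2⟩ := D.deg d
  refine ⟨d', h1, h2, ?_⟩
  rintro rfl
  exact dart_ne d h1.symm

theorem flat {u : V} (l : Aff) {p : Pt} (hp : (D.f u).ev p = 0) :
    ((D.f u).c * l.a - l.c * (D.f u).a) * p.x + ((D.f u).c * l.b - l.c * (D.f u).b) * p.z +
      ((D.f u).c * l.d - l.c * (D.f u).d) = (D.f u).c * l.ev p := by
  simp only [Aff.ev] at hp ⊢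
  linear_combination (- l.c) * hp

/-- the two ends of a contact edge have distinct projections -/
theorem proj_ne (d : G.Dart) :
    0 < ((D.b d.symm).x - (D.b d).x) ^ 2 + ((D.b d.symm).z - (D.b d).z) ^ 2 := by
  obtain ⟨d', h1, h2, h3⟩ := D.third d
  have h := D.orient d d' (Or.inl h1) h2 h3
  by_contra hne
  have h4 : ((D.b d.symm).x - (D.b d).x) ^ 2 + ((D.b d.symm).z - (D.b d).z) ^ 2 = 0 :=
    le_antisymm (not_lt.1 hne) (by positivity)
  have h5 : (D.b d.symm).x - (D.b d).x = 0 := by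
    have := sq_nonneg ((D.b d.symm).z - (D.b d).z)
    exact pow_eq_zero_iff (two_ne_zero) |>.1 (by nlinarith [sq_nonneg ((D.b d.symm).x - (D.b d).x)])
  have h6 : (D.b d.symm).z - (D.b d).z = 0 := by
    exact pow_eq_zero_iff (two_ne_zero) |>.1 (by nlinarith [sq_nonneg ((D.b d.symm).x - (D.b d).x)])
  simp only [O, h5, h6] at h
  simp at h

/-- positivity for the plate `u` and the dart `d` with one end `u`, other end `v` -/
theorem pos' {u v : V} (d d' : G.Dart) (h : (d.fst = u ∧ d.snd = v) ∨ (d.snd = u ∧ d.fst = v))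
    (hd' : d'.fst = u ∨ d'.snd = u) (h1 : d' ≠ d) (h2 : d' ≠ d.symm) :
    0 < (D.f v).ev (D.b d') := by
  rcases h with ⟨h3, h4⟩ | ⟨h3, h4⟩
  · subst h3; subst h4
    exact D.pos d d' hd' h1 h2
  · subst h3; subst h4
    exact D.pos d.symm d' hd' h2 (by rwa [SimpleGraph.Dart.symm_symm])

theorem convPos [Finite V] (u : V) : ConvPos (D.P u) := by
  have hfin : Finite G.Dart := by
    classical
    have := Fintype.ofFinite V
    infer_instance
  rintro ⟨i, hi⟩
  -- the other end
  obtain ⟨v, hv⟩ : ∃ v, (i.fst = u ∧ i.snd = v) ∨ (i.snd = u ∧ i.fst = v) := by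
    rcases hi with h | h
    · exact ⟨_, Or.inl ⟨h, rfl⟩⟩
    · exact ⟨_, Or.inr ⟨h, rfl⟩⟩
  have hsym : i.symm.fst = u ∨ i.symm.snd = u := by
    rcases hi with h | h
    · exact Or.inr h
    · exact Or.inl h
  have hfi : (D.f v).ev (D.b i) = 0 := by
    apply D.on
    rcases hv with h | h
    · exact Or.inr h.2
    · exact Or.inl h.2
  have hfi' : (D.f v).ev (D.b i.symm) = 0 := by
    apply D.on
    rcases hv with h | h
    · exact Or.inl h.2
    · exact Or.inr h.2
  have hcu := D.hc u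
  set k : Pt → ℝ := fun p => (p.x - (D.b i).x) * ((D.b i.symm).x - (D.b i).x) +
    (p.z - (D.b i).z) * ((D.b i.symm).z - (D.b i).z) with hk
  have hki : 0 < k (D.b i.symm) := by
    have := D.proj_ne i
    simp only [hk]; nlinarith
  have hev : ∀ᶠ δ in 𝓝[>] (0:ℝ), ∀ d' : G.Dart, (d'.fst = u ∨ d'.snd = u) → d' ≠ i →
      d' ≠ i.symm → 0 < (D.f u).c * (D.f v).ev (D.b d') + δ * k (D.b d') := by
    rw [eventually_all]; intro d'
    simp only [eventually_imp_distrib_left]
    intro h1 h2 h3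
    have h4 := D.pos' i d' hv h1 h2 h3
    exact ev_pos (F := fun δ => (D.f u).c * (D.f v).ev (D.b d') + δ * k (D.b d')) (by fun_prop)
      (by simpa using mul_pos hcu h4)
  obtain ⟨δ, h1, hδ⟩ := (hev.and ev_gt).exists
  have e : ∀ p : Pt, (D.f u).ev p = 0 →
      (((D.f u).c * (D.f v).a - (D.f v).c * (D.f u).a) + δ * ((D.b i.symm).x - (D.b i).x)) * p.x +
      (((D.f u).c * (D.f v).b - (D.f v).c * (D.f u).b) + δ * ((D.b i.symm).z - (D.b i).z)) * p.z +
      (((D.f u).c * (D.f v).d - (D.f v).c * (D.f u).d) -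
        δ * ((D.b i).x * ((D.b i.symm).x - (D.b i).x) + (D.b i).z * ((D.b i.symm).z - (D.b i).z)))
      = (D.f u).c * (D.f v).ev p + δ * k p := by
    intro p hp
    have := D.flat (D.f v) hp
    simp only [hk]
    linear_combination this
  refine ⟨_, _, _, (e (D.b i) (D.on i hi)).trans ?_, ?_⟩
  · rw [hfi]; simp [hk]
  · rintro ⟨d', hd'⟩ hne
    have hne' : d' ≠ i := fun h => hne (Subtype.ext h)
    show 0 < _ * (D.b d').x + _ * (D.b d').z + _
    rw [e (D.b d') (D.on d' hd')]
    by_cases h3 : d' = i.symm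
    · subst h3
      rw [hfi', mul_zero, zero_add]
      exact mul_pos hδ hki
    · exact h1 d' hd' hne' h3

/-- directed contact edges -/
theorem dedge_contact (d : G.Dart) :
    DEdge (D.P d.fst) ⟨d, Or.inl rfl⟩ ⟨d.symm, Or.inr rfl⟩ := by
  refine ⟨fun h => dart_symm_ne d (congrArg Subtype.val h), ?_⟩
  rintro ⟨k, hk⟩ h1 h2
  exact D.orient d k hk (fun h => h1 (Subtype.ext h)) (fun h => h2 (Subtype.ext h))

theorem exists_nextDart [Finite V] (d : G.Dart) : ∃ n : G.Dart, ∃ hn : n.fst = d.fst, n ≠ d ∧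
    DEdge (D.P d.fst) ⟨d.symm, Or.inr rfl⟩ ⟨n, Or.inl hn⟩ := by
  have hfin : Finite G.Dart := by
    classical
    have := Fintype.ofFinite V
    infer_instance
  obtain ⟨⟨j, hj⟩, hedge⟩ := exists_out (D.P d.fst) (D.convPos d.fst) ⟨d.symm, Or.inr rfl⟩
    ⟨⟨d, Or.inl rfl⟩, fun h => dart_symm_ne d (congrArg Subtype.val h).symm⟩
  have hjf : j.fst = d.fst := by
    rcases hj with h | h
    · exact h
    · exfalso
      -- j is an end
      have h1 := D.dedge_contact j.symm
      have h2 : j.symm.fst = d.fst := h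
      have h3 : DEdge (D.P d.fst) ⟨j.symm, Or.inl h⟩ ⟨j, Or.inr h⟩ := by
        refine ⟨fun h => dart_symm_ne j (congrArg Subtype.val h).symm, ?_⟩
        rintro ⟨k, hk⟩ h4 h5
        have := D.orient j.symm k (by rw [h2]; exact hk) (fun h => h4 (Subtype.ext h))
          (fun h => h5 (Subtype.ext (by rwa [SimpleGraph.Dart.symm_symm] at h)))
        rwa [SimpleGraph.Dart.symm_symm] at this
      have h4 := hedge.in_unique h3
      have h5 : d.symm = j.symm := congrArg Subtype.val h4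
      have h6 : d = j := by rw [← SimpleGraph.Dart.symm_symm d, h5, SimpleGraph.Dart.symm_symm]
      rw [← h6] at h
      exact dart_ne d h.symm
  refine ⟨j, hjf, ?_, hedge⟩
  rintro rfl
  obtain ⟨k, h1, h2, h3⟩ := D.third j
  have h4 := hedge.2 ⟨k, Or.inl h1⟩ (fun h => h3 (congrArg Subtype.val h))
    (fun h => h2 (congrArg Subtype.val h))
  have h5 := (D.dedge_contact j).2 ⟨k, Or.inl h1⟩ (fun h => h2 (congrArg Subtype.val h))
    (fun h => h3 (congrArg Subtype.val h))
  rw [O_swap12] at h4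
  linarith

/-- the next dart around a plate -/
noncomputable def next [Finite V] (d : G.Dart) : G.Dart := (D.exists_nextDart d).choose

theorem next_fst [Finite V] (d : G.Dart) : (D.next d).fst = d.fst :=
  (D.exists_nextDart d).choose_spec.choose

theorem next_ne [Finite V] (d : G.Dart) : D.next d ≠ d :=
  (D.exists_nextDart d).choose_spec.choose_spec.1

theorem next_edge [Finite V] (d : G.Dart) :
    DEdge (D.P d.fst) ⟨d.symm, Or.inr rfl⟩ ⟨D.next d, Or.inl (D.next_fst d)⟩ :=
  (D.exists_nextDart d).choose_spec.choose_spec.2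

theorem next_orient [Finite V] (d k : G.Dart) (hk : k.fst = d.fst ∨ k.snd = d.fst)
    (h1 : k ≠ d.symm) (h2 : k ≠ D.next d) : 0 < O (D.b d.symm) (D.b (D.next d)) (D.b k) :=
  (D.next_edge d).2 ⟨k, hk⟩ (fun h => h1 (congrArg Subtype.val h))
    (fun h => h2 (congrArg Subtype.val h))

theorem next_inj [Finite V] : Function.Injective D.next := by
  intro d d' h
  have hf : d.fst = d'.fst := by rw [← D.next_fst d, h, D.next_fst]
  have h1 := D.next_edge d
  have h2 : DEdge (D.P d.fst) ⟨d'.symm, Or.inr hf.symm⟩ ⟨D.next d, Or.inl (D.next_fst d)⟩ := by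
    refine ⟨fun h3 => ?_, ?_⟩
    · have h4 : D.next d = d'.symm := congrArg Subtype.val h3
      have h5 := congrArg (fun e : G.Dart => e.fst) h4
      rw [D.next_fst, hf] at h5
      exact dart_ne d' h5
    · rintro ⟨k, hk⟩ h4 h5
      have := D.next_orient d' k (by rw [← hf]; exact hk) (fun h => h4 (Subtype.ext h))
        (fun h6 => h5 (Subtype.ext (h6.trans h.symm)))
      rw [← h] at this
      exact this
  have h3 := h1.in_unique h2
  have h4 : d.symm = d'.symm := congrArg Subtype.val h3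
  rw [← SimpleGraph.Dart.symm_symm d, h4, SimpleGraph.Dart.symm_symm]

theorem exists_prev [Finite V] (d : G.Dart) : ∃ e : G.Dart, D.next e = d := by
  have hfin : Finite G.Dart := by
    classical
    have := Fintype.ofFinite V
    infer_instance
  exact (Finite.injective_iff_surjective.1 D.next_inj) d

end Closing

end PolySurf
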