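import Mathlib

/-!
Critical subgraphs.
-/

namespace PolySurf

theorem exists_critical {V : Type} [Finite V] (G : SimpleGraph V) (k : ℕ) (hk : 2 ≤ k)
    (hG : ¬ G.Colorable k) :
    ∃ S : Set V, S.Nonempty ∧ ¬ (G.comap (Subtype.val : S → V)).Colorable k ∧
      (∀ d : (G.comap (Subtype.val : S → V)).Dart,
        ∃ d' : (G.comap (Subtype.val : S → V)).Dart, d'.fst = d.fst ∧ d' ≠ d) ∧
      (∀ u : S, ∃ d : (G.comap (Subtype.val : S → V)).Dart, d.fst = u) ∧
      (∀ u v : S, Relation.ReflTransGen (G.comap (Subtype.val : S → V)).Adj u v) := by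
  classical
  have := Fintype.ofFinite V
  have : NeZero k := ⟨by omega⟩
  let Col : Finset V → Prop := fun T => ∃ c : V → Fin k, ∀ x ∈ T, ∀ y ∈ T, G.Adj x y → c x ≠ c y
  have huniv : ¬ Col Finset.univ := by
    rintro ⟨c, hc⟩
    exact hG ⟨SimpleGraph.Coloring.mk c fun {x y} h =>
      hc x (Finset.mem_univ _) y (Finset.mem_univ _) h⟩
  obtain ⟨S, -, hS⟩ := exists_minimal_le_of_wellFoundedLT (fun T : Finset V => ¬ Col T)
    Finset.univ huniv
  have hmin : ∀ T : Finset V, T ⊂ S → Col T := by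
    intro T hT
    by_contra h
    exact (hT.2) (hS.2 h hT.1)
  have hS0 : ¬ Col S := hS.1
  -- extension of colours
  have hne : S.Nonempty := by
    rw [Finset.nonempty_iff_ne_empty]
    rintro rfl
    exact hS0 ⟨fun _ => 0, by simp⟩
  have hdeg : ∀ v ∈ S, ∀ u, ∃ u' ∈ S, G.Adj v u' ∧ u' ≠ u := by
    intro v hv u
    by_contra hcon
    push Not at hcon
    obtain ⟨c, hc⟩ := hmin (S.erase v) (Finset.erase_ssubset hv)
    obtain ⟨a, ha⟩ : ∃ a : Fin k, a ≠ c u := by
      have : Nontrivial (Fin k) := Fin.nontrivial_iff_two_le.2 hk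
      exact exists_ne _
    apply hS0
    refine ⟨Function.update c v a, fun x hx y hy hxy => ?_⟩
    by_cases hxv : x = v
    · subst hxv
      have hyu : y = u := hcon y hy hxy
      have hyx : y ≠ x := hxy.ne'
      rw [Function.update_self, Function.update_of_ne hyx, hyu]
      exact ha
    · by_cases hyv : y = v
      · subst hyv
        have hxu : x = u := hcon x hx hxy.symm
        rw [Function.update_self, Function.update_of_ne hxv, hxu]
        exact ha.symm
      · rw [Function.update_of_ne hxv, Function.update_of_ne hyv]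
        exact hc x (Finset.mem_erase.2 ⟨hxv, hx⟩) y (Finset.mem_erase.2 ⟨hyv, hy⟩) hxy
  have hconn : ∀ u ∈ S, ∀ v ∈ S,
      Relation.ReflTransGen (fun x y => x ∈ S ∧ y ∈ S ∧ G.Adj x y) u v := by
    intro u hu v hv
    by_contra hcon
    let A : Finset V := S.filter fun x =>
      Relation.ReflTransGen (fun x y => x ∈ S ∧ y ∈ S ∧ G.Adj x y) u x
    have hA : A ⊂ S := by
      refine ⟨Finset.filter_subset _ _, fun h => hcon ?_⟩
      exact (Finset.mem_filter.1 (h hv)).2
    have hB : S \ A ⊂ S := by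
      refine ⟨Finset.sdiff_subset, fun h => ?_⟩
      have := (Finset.mem_sdiff.1 (h hu)).2
      exact this (Finset.mem_filter.2 ⟨hu, Relation.ReflTransGen.refl⟩)
    obtain ⟨cA, hcA⟩ := hmin A hA
    obtain ⟨cB, hcB⟩ := hmin _ hB
    apply hS0
    have hstep : ∀ x ∈ A, ∀ y ∈ S, G.Adj x y → y ∈ A := by
      intro x hx y hy hxy
      have := Finset.mem_filter.1 hx
      exact Finset.mem_filter.2 ⟨hy, this.2.tail ⟨this.1, hy, hxy⟩⟩
    refine ⟨fun x => if x ∈ A then cA x else cB x, fun x hx y hy hxy => ?_⟩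
    by_cases hxA : x ∈ A
    · have hyA := hstep x hxA y hy hxy
      simp only [hxA, hyA, if_true]
      exact hcA x hxA y hyA hxy
    · have hyA : y ∉ A := fun h => hxA (hstep y h x hx hxy.symm)
      simp only [hxA, hyA, if_false]
      exact hcB x (Finset.mem_sdiff.2 ⟨hx, hxA⟩) y (Finset.mem_sdiff.2 ⟨hy, hyA⟩) hxy
  refine ⟨(S : Set V), hne, ?_, ?_, ?_, ?_⟩
  · rintro ⟨c⟩
    apply hS0
    refine ⟨fun x => if h : x ∈ S then c ⟨x, h⟩ else 0, fun x hx y hy hxy => ?_⟩
    simp only [hx, hy, dif_pos]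
    exact c.valid (v := ⟨x, hx⟩) (w := ⟨y, hy⟩) hxy
  · intro d
    obtain ⟨u', hu', h1, h2⟩ := hdeg d.fst.1 d.fst.2 d.snd.1
    refine ⟨⟨(d.fst, ⟨u', hu'⟩), h1⟩, rfl, fun h => h2 ?_⟩
    have := congrArg (fun e : (G.comap (Subtype.val : ↥(S : Set V) → V)).Dart => e.snd.1) h
    exact this
  · intro u
    obtain ⟨u', hu', h1, -⟩ := hdeg u.1 u.2 u.1
    exact ⟨⟨(u, ⟨u', hu'⟩), h1⟩, rfl⟩
  · rintro ⟨u, hu⟩ ⟨v, hv⟩
    have h := hconn u hu v hv
    have : ∀ v, Relation.ReflTransGen (fun x y => x ∈ S ∧ y ∈ S ∧ G.Adj x y) u v →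
        ∀ hv : v ∈ S, Relation.ReflTransGen (G.comap (Subtype.val : ↥(S : Set V) → V)).Adj
          ⟨u, hu⟩ ⟨v, hv⟩ := by
      intro v h
      induction h with
      | refl => intro _; exact Relation.ReflTransGen.refl
      | tail h1 h2 ih =>
        intro hv
        exact (ih h2.1).tail h2.2.2
    exact this v h hv

end PolySurf
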