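import Mathlib

/-!
Closed polyhedral surfaces in `ℝ³` with convex faces, as finite combinatorial data: a finite
type of vertices, the position of every vertex, and the finite set of faces, each face being given
by its set of vertices.
-/

namespace PolySurf

/-- Euclidean 3-space. -/
abbrev E3 : Type := EuclideanSpace ℝ (Fin 3)

variable {V : Type} [DecidableEq V]

/-- The convex hull of the vertices in `f`. If `f` is the vertex set of a face, this is the face
itself, as a subset of `ℝ³`. -/
def hull (x : V → E3) (f : Finset V) : Set E3 := convexHull ℝ (x '' (f : Set V))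

/-- `f` is the vertex set of a convex polygon: there are at least three vertices, they span a
plane, and no vertex lies in the convex hull of the other ones. -/
def IsPolygon (x : V → E3) (f : Finset V) : Prop :=
  3 ≤ f.card ∧ Module.finrank ℝ (vectorSpan ℝ (x '' (f : Set V))) = 2 ∧
    ∀ i ∈ f, x i ∉ hull x (f.erase i)

/-- `e` is the pair of ends of an edge of the convex polygon with vertex set `f`: some linear
functional attains its maximum over the vertices of `f` exactly at the two points of `e`. -/
def IsEdge (x : V → E3) (f e : Finset V) : Prop :=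
  e ⊆ f ∧ e.card = 2 ∧ ∃ (L : E3 →ₗ[ℝ] ℝ) (c : ℝ),
    (∀ i ∈ e, L (x i) = c) ∧ ∀ i ∈ f, i ∉ e → L (x i) < c

/-- Two faces are adjacent if they are different and have a common edge. -/
def Adjacent (x : V → E3) (f g : Finset V) : Prop :=
  f ≠ g ∧ ∃ e, IsEdge x f e ∧ IsEdge x g e

/-- The faces with vertex sets in `F` form a closed connected orientable polyhedral surface
embedded in `ℝ³`, with convex faces, in which adjacent faces are not coplanar. -/
structure IsPolyhedralSurface (x : V → E3) (F : Finset (Finset V)) : Prop where
  /-- different vertices are different points -/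
  injective : Function.Injective x
  /-- there is a face -/
  nonempty : F.Nonempty
  /-- every vertex is a vertex of some face -/
  covered : ∀ i, ∃ f ∈ F, i ∈ f
  /-- all faces are convex polygons -/
  polygon : ∀ f ∈ F, IsPolygon x f
  /-- the surface is embedded: two different faces are disjoint, or they meet exactly in one
  common vertex, or they meet exactly in one common edge -/
  meet : ∀ f ∈ F, ∀ g ∈ F, f ≠ g → hull x f ∩ hull x g = hull x (f ∩ g) ∧
    (f ∩ g = ∅ ∨ (∃ i, f ∩ g = {i}) ∨ (IsEdge x f (f ∩ g) ∧ IsEdge x g (f ∩ g)))
  /-- the surface is closed: every edge of a face is an edge of exactly one other face -/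
  closed : ∀ f ∈ F, ∀ e, IsEdge x f e → ∃! g, g ∈ F ∧ g ≠ f ∧ IsEdge x g e
  /-- the faces at a vertex `i` form a single cycle: one can walk from any face at `i` to any
  other face at `i`, crossing only edges which end at `i` -/
  link : ∀ i, ∀ f ∈ F, ∀ g ∈ F, i ∈ f → i ∈ g →
    Relation.ReflTransGen (fun a b => b ∈ F ∧ ∃ e, i ∈ e ∧ IsEdge x a e ∧ IsEdge x b e) f g
  /-- the surface is connected: one can walk from any face to any other face, crossing edges -/
  connected : ∀ f ∈ F, ∀ g ∈ F,
    Relation.ReflTransGen (fun a b => b ∈ F ∧ ∃ e, IsEdge x a e ∧ IsEdge x b e) f g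
  /-- adjacent faces are not coplanar -/
  notCoplanar : ∀ f ∈ F, ∀ g ∈ F, Adjacent x f g →
    Module.finrank ℝ (vectorSpan ℝ (x '' ((f ∪ g : Finset V) : Set V))) = 3
  /-- the surface is orientable (two-sided): the faces have normal vectors `N f` which point
  consistently to one side of the surface, that is, if `f` and `g` have the common edge `e`, then
  `g` lies on the side of `f` given by `N f` if and only if `f` lies on the side of `g` given by
  `N g` -/
  orientable : ∃ N : Finset V → E3,
    (∀ f ∈ F, N f ≠ 0 ∧ ∀ i ∈ f, ∀ j ∈ f, inner ℝ (N f) (x i - x j) = 0) ∧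
    ∀ f ∈ F, ∀ g ∈ F, f ≠ g → ∀ e, IsEdge x f e → IsEdge x g e → ∀ i ∈ e,
      ∀ p ∈ f, p ∉ e → ∀ q ∈ g, q ∉ e →
        0 < inner ℝ (N f) (x q - x i) * inner ℝ (N g) (x p - x i)

/-- The set of all edges (given by their pairs of ends) of all faces in `F`. -/
def edgeSet (x : V → E3) (F : Finset (Finset V)) : Set (Finset V) := {e | ∃ f ∈ F, IsEdge x f e}

/-- An `S_g`-polytope, given by the finite type `V` of its vertices, their positions `x` and the
set `F` of the vertex sets of its faces: a closed connected orientable polyhedral surface, embedded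
in `ℝ³`, with convex faces, adjacent faces not coplanar, of genus `g`. The genus is given by
Euler's formula: (vertices) - (edges) + (faces) `= 2 - 2g`. -/
def IsSgPolytope [Fintype V] (g : ℕ) (x : V → E3) (F : Finset (Finset V)) : Prop :=
  IsPolyhedralSurface x F ∧
    (Fintype.card V : ℤ) - ((edgeSet x F).ncard : ℤ) + (F.card : ℤ) = 2 - 2 * (g : ℤ)

/-- The faces can be properly coloured with `C` colours. -/
def FaceColorable (x : V → E3) (F : Finset (Finset V)) (C : ℕ) : Prop :=
  ∃ col : Finset V → Fin C, ∀ f ∈ F, ∀ g ∈ F, Adjacent x f g → col f ≠ col g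

end PolySurf
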