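import Pool.Agent.Helper96.PolySurf.Cfg

/-!
Directed edges of a finite planar set in strictly convex position.
-/

namespace PolySurf

/-- orientation of a triple of points, in the projection to the first two coordinates -/
def O (p q r : Pt) : ℝ := (q.x - p.x) * (r.z - p.z) - (q.z - p.z) * (r.x - p.x)

theorem O_swap12 (p q r : Pt) : O q p r = - O p q r := by unfold O; ring
theorem O_swap23 (p q r : Pt) : O p r q = - O p q r := by unfold O; ring
theorem O_cycle (p q r : Pt) : O q r p = O p q r := by unfold O; ring

/-- `i → j` is a directed edge: all other points are strictly to the left. -/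
def DEdge {I : Type} (P : I → Pt) (i j : I) : Prop :=
  j ≠ i ∧ ∀ k, k ≠ i → k ≠ j → 0 < O (P i) (P j) (P k)

theorem DEdge.out_unique {I : Type} {P : I → Pt} {i j j' : I} (h : DEdge P i j)
    (h' : DEdge P i j') : j = j' := by
  by_contra hne
  have h1 := h.2 j' h'.1 (Ne.symm hne)
  have h2 := h'.2 j h.1 hne
  rw [O_swap23] at h2
  linarith

theorem DEdge.in_unique {I : Type} {P : I → Pt} {i i' j : I} (h : DEdge P i j)
    (h' : DEdge P i' j) : i = i' := by
  by_contra hne
  have h1 := h.2 i' (Ne.symm hne) h'.1.symm
  have h2 := h'.2 i hne h.1.symm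
  have e : O (P i') (P j) (P i) = - O (P i) (P j) (P i') := by unfold O; ring
  rw [e] at h2
  linarith

/-- strictly convex position -/
def ConvPos {I : Type} (P : I → Pt) : Prop :=
  ∀ i, ∃ α β γ : ℝ, α * (P i).x + β * (P i).z + γ = 0 ∧
    ∀ k, k ≠ i → 0 < α * (P k).x + β * (P k).z + γ

theorem exists_out {I : Type} [Finite I] (P : I → Pt) (hP : ConvPos P) (i : I)
    (hne : ∃ j, j ≠ i) : ∃ j, DEdge P i j := by
  classical
  have := Fintype.ofFinite I
  obtain ⟨α, β, γ, h0, hpos⟩ := hP i
  -- g and h coordinates relative to i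
  set g : I → ℝ := fun k => α * ((P k).x - (P i).x) + β * ((P k).z - (P i).z) with hg
  set h : I → ℝ := fun k => -β * ((P k).x - (P i).x) + α * ((P k).z - (P i).z) with hh
  have hgpos : ∀ k, k ≠ i → 0 < g k := by
    intro k hk
    have := hpos k hk
    simp only [hg]; linarith
  have key : ∀ j k, g j * h k - h j * g k = (α ^ 2 + β ^ 2) * O (P i) (P j) (P k) := by
    intro j k; simp only [hg, hh, O]; ring
  obtain ⟨j0, hj0⟩ := hne
  have hab : 0 < α ^ 2 + β ^ 2 := by
    rcases eq_or_ne α 0 with ha | ha
    · rcases eq_or_ne β 0 with hb | hb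
      · have := hgpos j0 hj0
        simp [hg, ha, hb] at this
      · positivity
    · positivity
  have hs : (Finset.univ.filter fun k => k ≠ i).Nonempty := ⟨j0, by simp [hj0]⟩
  obtain ⟨j, hj, hmin⟩ := Finset.exists_min_image _ (fun k => h k / g k) hs
  have hji : j ≠ i := by simpa using hj
  refine ⟨j, hji, fun k hki hkj => ?_⟩
  have h1 := hmin k (by simpa using hki)
  have gj := hgpos j hji
  have gk := hgpos k hki
  rw [div_le_div_iff₀ gj gk] at h1
  have h2 := key j k
  have h3 : 0 ≤ O (P i) (P j) (P k) := by
    by_contra hneg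
    have : (α ^ 2 + β ^ 2) * O (P i) (P j) (P k) < 0 :=
      mul_neg_of_pos_of_neg hab (lt_of_not_ge hneg)
    nlinarith
  rcases h3.lt_or_eq with h4 | h4
  · exact h4
  · exfalso
    rw [← h4, mul_zero] at h2
    -- collinear : P k - P i = μ (P j - P i), μ = g k / g j
    set μ := g k / g j with hμ
    have hμ0 : 0 < μ := div_pos gk gj
    have e1 : g k = μ * g j := by rw [hμ]; field_simp
    have e2 : h k = μ * h j := by
      rw [hμ]; field_simp; linarith
    have ex : (P k).x - (P i).x = μ * ((P j).x - (P i).x) := by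
      have : (α ^ 2 + β ^ 2) * ((P k).x - (P i).x - μ * ((P j).x - (P i).x)) = 0 := by
        have a1 : α * g k - β * h k = (α ^ 2 + β ^ 2) * ((P k).x - (P i).x) := by
          simp only [hg, hh]; ring
        have a2 : α * g j - β * h j = (α ^ 2 + β ^ 2) * ((P j).x - (P i).x) := by
          simp only [hg, hh]; ring
        rw [mul_sub, ← a1, mul_left_comm, ← a2, e1, e2]; ring
      rcases mul_eq_zero.1 this with h5 | h5
      · exact absurd h5 hab.ne'
      · linarith
    have ez : (P k).z - (P i).z = μ * ((P j).z - (P i).z) := by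
      have : (α ^ 2 + β ^ 2) * ((P k).z - (P i).z - μ * ((P j).z - (P i).z)) = 0 := by
        have a1 : β * g k + α * h k = (α ^ 2 + β ^ 2) * ((P k).z - (P i).z) := by
          simp only [hg, hh]; ring
        have a2 : β * g j + α * h j = (α ^ 2 + β ^ 2) * ((P j).z - (P i).z) := by
          simp only [hg, hh]; ring
        rw [mul_sub, ← a1, mul_left_comm, ← a2, e1, e2]; ring
      rcases mul_eq_zero.1 this with h5 | h5
      · exact absurd h5 hab.ne'
      · linarith
    -- j lies between i and k if 1 ≤ μ, else k lies between i and j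
    rcases le_total 1 μ with hm | hm
    · obtain ⟨a, b, c, z0, zpos⟩ := hP j
      have p1 := zpos i hji.symm
      have p2 := zpos k hkj
      have : a * (P k).x + b * (P k).z + c =
          (1 - μ) * (a * (P i).x + b * (P i).z + c) + μ * (a * (P j).x + b * (P j).z + c) := by
        linear_combination a * ex + b * ez
      rw [z0] at this
      nlinarith
    · obtain ⟨a, b, c, z0, zpos⟩ := hP k
      have p1 := zpos i hki.symm
      have p2 := zpos j (Ne.symm hkj)
      have : a * (P k).x + b * (P k).z + c =
          (1 - μ) * (a * (P i).x + b * (P i).z + c) + μ * (a * (P j).x + b * (P j).z + c) := by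
        linear_combination a * ex + b * ez
      rw [z0] at this
      have := mul_pos hμ0 p2
      nlinarith

theorem exists_in {I : Type} [Finite I] (P : I → Pt) (hP : ConvPos P) (i : I)
    (hne : ∃ j, j ≠ i) : ∃ j, DEdge P j i := by
  let Q : I → Pt := fun k => ⟨-(P k).x, (P k).z, (P k).m⟩
  have hQ : ConvPos Q := by
    intro k
    obtain ⟨a, b, c, h1, h2⟩ := hP k
    refine ⟨-a, b, c, by simp only [Q]; linarith, fun l hl => ?_⟩
    have := h2 l hl
    simp only [Q]; linarith
  obtain ⟨j, h1, h2⟩ := exists_out Q hQ i hne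
  refine ⟨j, h1.symm, fun k hk hk' => ?_⟩
  have := h2 k hk' hk
  have e : O (Q i) (Q j) (Q k) = O (P j) (P i) (P k) := by simp only [Q, O]; ring
  rw [e] at this
  exact this

end PolySurf
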