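import Pool.Agent.Helper96.PolySurf.Step

/-!
The inductive step: verification of the conditions of the next configuration.
-/

namespace PolySurf

open Filter Topology Combinatorics

namespace Par

variable {V ι : Type} [Fintype ι] {G : SimpleGraph V} {P : Par V ι} {C : Config G} {B : ℝ}


theorem st_hc (ε : ℝ) (v : (ι → V) ⊕ (Line V ι × V)) : 0 < (P.nf C ε v).c := by
  rcases v with w | ⟨L, v⟩
  · simp [nf, wallF]
  · exact C.hc v

theorem st_symm (ε : ℝ) (u v : (ι → V) ⊕ (Line V ι × V)) (h : (nextGraph (ι := ι) G).Adj u v) :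
    P.nq C ε u v = P.nq C ε v u := by
  rcases u with w | ⟨L, u⟩ <;> rcases v with w' | ⟨L', v⟩
  · rfl
  · rfl
  · rfl
  · obtain ⟨h1, h2⟩ := h
    subst h1
    show P.Phi C ε L (C.q u v) = P.Phi C ε L (C.q v u)
    rw [C.q_symm u v h2]

theorem st_on_q (ε : ℝ) (u v : (ι → V) ⊕ (Line V ι × V)) (h : (nextGraph (ι := ι) G).Adj u v) :
    (P.nf C ε u).ev (P.nq C ε u v) = 0 := by
  rcases u with w | ⟨L, u⟩ <;> rcases v with w' | ⟨L', v⟩
  · exact absurd h (by simp [nextGraph])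
  · have h' : L' v = w := h
    subst h'
    show (P.wallF C ε (L' v)).ev (P.Phi C ε L' (C.e v)) = 0
    rw [wallF_Phi]; ring
  · show (P.pull C ε L (C.f u)).ev (P.Phi C ε L (C.e u)) = 0
    rw [ev_pull_Phi, C.on_e, mul_zero]
  · obtain ⟨h1, h2⟩ := h
    subst h1
    show (P.pull C ε L (C.f u)).ev (P.Phi C ε L (C.q u v)) = 0
    rw [ev_pull_Phi, C.on_q u v h2, mul_zero]

theorem st_on_e (ε τ : ℝ) (v : (ι → V) ⊕ (Line V ι × V)) :
    (P.nf C ε v).ev (P.ne C ε τ v) = 0 := by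
  rcases v with w | ⟨L, v⟩
  · show (P.wallF C ε w).ev (P.top C ε w) = 0
    simp only [wallF, top, Aff.ev]; ring
  · show (P.pull C ε L (C.f v)).ev ((P.Phi C ε L (C.e v)).move (P.dir C ε L v) τ) = 0
    rw [Aff.ev_move, ev_pull_Phi, C.on_e, lin_dir]; ring

theorem Good.st_pos_q (h : P.Good C B) (u v w : (ι → V) ⊕ (Line V ι × V)) (huv : (nextGraph (ι := ι) G).Adj u v)
    (huw : (nextGraph (ι := ι) G).Adj u w) (hne : w ≠ v) :
    ∀ᶠ ε in 𝓝[>] (0:ℝ), 0 < (P.nf C ε v).ev (P.nq C ε u w) := by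
  rcases u with u | ⟨L, u⟩ <;> rcases v with v | ⟨L', v⟩ <;> rcases w with w | ⟨L'', w⟩
  · exact absurd huv (by simp [nextGraph])
  · exact absurd huv (by simp [nextGraph])
  · exact absurd huw (by simp [nextGraph])
  · have h1 : L' v = u := huv
    have h2 : L'' w = u := huw
    have hL : L' ≠ L'' := by
      rintro rfl
      exact hne (by rw [line_inj L' (h2.trans h1.symm)])
    exact h.lim1 (C.hc v) hL (h.he w)
  · have h1 : L u = v := huv
    have h2 : L u = w := huw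
    exact absurd (by rw [← h1, ← h2]) hne
  · have h1 : L u = v := huv
    obtain ⟨h2, h3⟩ := huw
    subst h1; subst h2
    have hl := P.lam_pos h.hr L
    show ∀ᶠ ε in 𝓝[>] (0:ℝ), 0 < (P.wallF C ε (L u)).ev (P.Phi C ε L (C.q u w))
    refine ev_pos ?_ ?_
    · simp only [wallF_Phi]; fun_prop
    · rw [wallF_Phi]
      apply mul_pos hl
      have := C.left u w h3
      linarith
  · obtain ⟨h2, h3⟩ := huv
    subst h2
    have hl := P.lam_pos h.hr L
    filter_upwards [ev_gt] with ε hε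
    show 0 < (P.pull C ε L (C.f v)).ev (P.Phi C ε L (C.e u))
    rw [ev_pull_Phi]
    exact mul_pos (mul_pos hl hε) (C.pos_e u v h3)
  · obtain ⟨h2, h3⟩ := huv
    obtain ⟨h4, h5⟩ := huw
    subst h2; subst h4
    have hl := P.lam_pos h.hr L
    filter_upwards [ev_gt] with ε hε
    show 0 < (P.pull C ε L (C.f v)).ev (P.Phi C ε L (C.q u w))
    rw [ev_pull_Phi]
    refine mul_pos (mul_pos hl hε) (C.pos_q u v w h3 h5 ?_)
    rintro rfl; exact hne rfl

theorem Good.st_pos_e (h : P.Good C B) (u v : (ι → V) ⊕ (Line V ι × V)) (huv : (nextGraph (ι := ι) G).Adj u v) :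
    ∀ᶠ ε in 𝓝[>] (0:ℝ), ∀ᶠ τ in 𝓝[>] (0:ℝ), 0 < (P.nf C ε v).ev (P.ne C ε τ u) := by
  rcases u with u | ⟨L, u⟩ <;> rcases v with v | ⟨L', v⟩
  · exact absurd huv (by simp [nextGraph])
  · filter_upwards [h.lim2 (C.hc v) L' u] with ε hε
    exact Eventually.of_forall fun τ => hε
  · have h1 : L u = v := huv
    subst h1
    filter_upwards [h.dir_sum L u] with ε hε
    filter_upwards [ev_gt] with τ hτ
    show 0 < (P.wallF C ε (L u)).ev ((P.Phi C ε L (C.e u)).move (P.dir C ε L u) τ)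
    rw [Aff.ev_move, wallF_Phi]
    have e : (P.wallF C ε (L u)).lin (P.dir C ε L u) = (P.dir C ε L u).x + (P.dir C ε L u).m := by
      simp only [Aff.lin, wallF]; ring
    rw [e]
    have := mul_pos hτ hε
    linarith
  · obtain ⟨h2, h3⟩ := huv
    subst h2
    have hl := P.lam_pos h.hr L
    filter_upwards [ev_gt] with ε hε
    apply ev_move
    show 0 < (P.pull C ε L (C.f v)).ev (P.Phi C ε L (C.e u))
    rw [ev_pull_Phi]
    exact mul_pos (mul_pos hl hε) (C.pos_e u v h3)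

/-- the first coordinate as a functional -/
def X : Aff := ⟨1, 0, 0, 0⟩

theorem ev_X (p : Pt) : X.ev p = p.x := by simp [X, Aff.ev]

theorem Good.top_left (h : P.Good C B) (L : Line V ι) (v : V) :
    ∀ᶠ ε in 𝓝[>] (0:ℝ), (P.top C ε (L v)).x < (P.Phi C ε L (C.e v)).x := by
  have c1 := cont_cc (P := P) (C := C) L
  have h1 : ∀ᶠ ε in 𝓝[>] (0:ℝ), 0 < (P.Phi C ε L (C.e v)).x - (P.top C ε (L v)).x := by
    refine ev_pos ?_ ?_
    · simp only [Phi, top, Yw_line, Config.Yv]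
      fun_prop
    · have e : (P.Phi C 0 L (C.e v)).x - (P.top C 0 (L v)).x =
          P.mu * (P.H - P.A L (C.e v).z) := by
        simp only [Phi, top, Yw_line, Config.Yv]; ring
      rw [e]
      exact mul_pos h.hmu (by linarith [h.hH L _ (h.he v)])
  filter_upwards [h1] with ε hε
  linarith

theorem Good.st_left (h : P.Good C B) (u v : (ι → V) ⊕ (Line V ι × V)) (huv : (nextGraph (ι := ι) G).Adj u v) :
    ∀ᶠ ε in 𝓝[>] (0:ℝ), ∀ᶠ τ in 𝓝[>] (0:ℝ), (P.ne C ε τ u).x < (P.nq C ε u v).x := by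
  rcases u with u | ⟨L, u⟩ <;> rcases v with v | ⟨L', v⟩
  · exact absurd huv (by simp [nextGraph])
  · have h1 : L' v = u := huv
    subst h1
    filter_upwards [h.top_left L' v] with ε hε
    exact Eventually.of_forall fun τ => hε
  · refine Eventually.of_forall fun ε => ?_
    filter_upwards [ev_gt] with τ hτ
    show (P.Phi C ε L (C.e u)).x + τ * (- P.mu * P.Z L) < (P.Phi C ε L (C.e u)).x
    have := mul_pos hτ (mul_pos h.hmu (h.Z_pos L))
    nlinarith
  · obtain ⟨h2, h3⟩ := huv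
    subst h2
    refine Eventually.of_forall fun ε => ?_
    filter_upwards [ev_gt] with τ hτ
    show (P.Phi C ε L (C.e u)).x + τ * (- P.mu * P.Z L) < (P.Phi C ε L (C.q u v)).x
    have h4 := mul_pos hτ (mul_pos h.hmu (h.Z_pos L))
    have h5 := h.hleft L u v h3
    simp only [Phi]
    nlinarith

/-! ### Separation -/

theorem wall_sum (ε : ℝ) (L : Line V ι) (v : V) :
    (P.Phi C ε L (C.e v)).x + (P.Phi C ε L (C.e v)).m = P.Yw C ε (L v) := by
  rw [Yw_line]; simp only [Phi, Config.Yv]; ring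

theorem top_sum (ε : ℝ) (w : ι → V) :
    (P.top C ε w).x + (P.top C ε w).m = P.Yw C ε w := by
  simp only [top]; ring

/-- the functional `k - (x + m)` is positive on a wall with `Y < k` -/
theorem posOn_wall_le {ε τ : ℝ} {w : ι → V} {k : ℝ} (hk : P.Yw C ε w < k) :
    PosOn (nextGraph (ι := ι) G) (P.nq C ε) (P.ne C ε τ) ⟨-1, 0, -1, k⟩ (Sum.inl w) := by
  refine posOn_inl P C ?_ ?_
  · have := top_sum (P := P) (C := C) ε w
    simp only [Aff.ev]; linarith
  · intro L v h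
    have := wall_sum (P := P) (C := C) ε L v
    rw [h] at this
    simp only [Aff.ev]; linarith

theorem posOn_wall_ge {ε τ : ℝ} {w : ι → V} {k : ℝ} (hk : k < P.Yw C ε w) :
    PosOn (nextGraph (ι := ι) G) (P.nq C ε) (P.ne C ε τ) (Aff.neg ⟨-1, 0, -1, k⟩)
      (Sum.inl w) := by
  refine posOn_inl P C ?_ ?_
  · have := top_sum (P := P) (C := C) ε w
    rw [Aff.ev_neg]
    simp only [Aff.ev]; linarith
  · intro L v h
    have := wall_sum (P := P) (C := C) ε L v
    rw [h] at this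
    rw [Aff.ev_neg]
    simp only [Aff.ev]; linarith

theorem Yw_lt {w w' : ι → V} (h : P.Yw C 0 w < P.Yw C 0 w') :
    ∀ᶠ ε in 𝓝[>] (0:ℝ), P.Yw C ε w < P.Yw C ε w' := by
  have c1 := cont_Yw (P := P) (C := C) w
  have c2 := cont_Yw (P := P) (C := C) w'
  have := ev_pos (F := fun ε => P.Yw C ε w' - P.Yw C ε w) (by fun_prop) (by simpa using h)
  filter_upwards [this] with ε hε
  linarith

/-- the separation property of two vertices -/
def Sep (P : Par V ι) (C : Config G) (ε τ : ℝ) (u v : (ι → V) ⊕ (Line V ι × V)) : Prop :=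
  ∃ l : Aff, PosOn (nextGraph (ι := ι) G) (P.nq C ε) (P.ne C ε τ) l u ∧
    PosOn (nextGraph (ι := ι) G) (P.nq C ε) (P.ne C ε τ) l.neg v

theorem Sep.symm {ε τ : ℝ} {u v : (ι → V) ⊕ (Line V ι × V)} (h : Sep P C ε τ u v) :
    Sep P C ε τ v u := by
  obtain ⟨l, h1, h2⟩ := h
  refine ⟨l.neg, h2, ?_, ?_⟩
  · simpa using h1.1
  · simpa using h1.2

theorem sep_walls_aux {w w' : ι → V} (h : P.Yw C 0 w < P.Yw C 0 w') :
    ∀ᶠ ε in 𝓝[>] (0:ℝ), ∀ᶠ τ in 𝓝[>] (0:ℝ), Sep P C ε τ (Sum.inl w) (Sum.inl w') := by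
  filter_upwards [Yw_lt h] with ε hε
  refine Eventually.of_forall fun τ => ?_
  exact ⟨⟨-1, 0, -1, (P.Yw C ε w + P.Yw C ε w') / 2⟩, posOn_wall_le (by linarith),
    posOn_wall_ge (by linarith)⟩

theorem Good.sep_walls (h : P.Good C B) {w w' : ι → V} (hne : w ≠ w') :
    ∀ᶠ ε in 𝓝[>] (0:ℝ), ∀ᶠ τ in 𝓝[>] (0:ℝ), Sep P C ε τ (Sum.inl w) (Sum.inl w') := by
  have h1 := h.hgap w w' hne
  have h2 := mul_pos h.hmu h.hHpos
  rcases lt_trichotomy (P.Yw C 0 w) (P.Yw C 0 w') with h3 | h3 | h3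
  · exact sep_walls_aux h3
  · rw [h3, sub_self, abs_zero] at h1; linarith
  · filter_upwards [sep_walls_aux h3] with ε hε
    filter_upwards [hε] with τ hτ
    exact hτ.symm

omit [Fintype ι] in
/-- separation of the floor plate `v` from the wall `w` in terms of the old configuration -/
theorem exists_g [Finite V] (L : Line V ι) (v : V) (w : ι → V) (hne : L v ≠ w) :
    ∃ g : Aff, 0 < g.c ∧ PosOn G C.q C.e g.neg v ∧ ∀ u, L u = w → 0 < g.ev (C.e u) := by
  by_cases h : ∃ u, L u = w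
  · obtain ⟨u, hu⟩ := h
    have huv : v ≠ u := by rintro rfl; exact hne hu
    obtain ⟨l, h1, h2, h3⟩ := C.expo v u huv
    refine ⟨l.neg, by simpa using h1, ?_, ?_⟩
    · exact ⟨by simpa using h3.1, by simpa using h3.2⟩
    · intro u' hu'
      have : u' = u := line_inj L (hu'.trans hu.symm)
      rw [this, Aff.ev_neg]; linarith
  · push Not at h
    obtain ⟨K, hK⟩ := (Set.finite_range fun u => (C.q v u).m).bddAbove
    refine ⟨⟨0, 0, 1, -(max K (C.e v).m + 1)⟩, one_pos, ⟨?_, ?_⟩, fun u hu => absurd hu (h u)⟩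
    · rw [Aff.ev_neg]; simp only [Aff.ev]
      linarith [le_max_right K (C.e v).m]
    · intro u _
      have := hK ⟨u, rfl⟩
      rw [Aff.ev_neg]; simp only [Aff.ev]
      dsimp only at this
      linarith [le_max_left K (C.e v).m]

theorem Good.posOn_wall_pull [Finite V] [Finite (Line V ι)] (h : P.Good C B) {g : Aff}
    (hg : 0 < g.c) (L : Line V ι) (w : ι → V) (hgw : ∀ u, L u = w → 0 < g.ev (C.e u)) :
    ∀ᶠ ε in 𝓝[>] (0:ℝ), ∀ τ, PosOn (nextGraph (ι := ι) G) (P.nq C ε) (P.ne C ε τ)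
      (P.pull C ε L g) (Sum.inl w) := by
  have hl := P.lam_pos h.hr L
  have h1 : ∀ᶠ ε in 𝓝[>] (0:ℝ), ∀ L2 : Line V ι, ∀ v2, L2 v2 = w →
      0 < (P.pull C ε L g).ev (P.Phi C ε L2 (C.e v2)) := by
    rw [eventually_all]
    intro L2
    rw [eventually_all]
    intro v2
    by_cases h2 : L = L2
    · subst h2
      filter_upwards [ev_gt] with ε hε h3
      rw [ev_pull_Phi]
      exact mul_pos (mul_pos hl hε) (hgw v2 h3)
    · filter_upwards [h.lim1 hg h2 (h.he v2)] with ε hε _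
      exact hε
  filter_upwards [h1, h.lim2 hg L w] with ε h2 h3 τ
  exact posOn_inl P C h3 h2

theorem Good.sep_wall_floor [Finite V] [Finite (Line V ι)] (h : P.Good C B) {w : ι → V}
    {L : Line V ι} {v : V} (hne : L v ≠ w) :
    ∀ᶠ ε in 𝓝[>] (0:ℝ), ∀ᶠ τ in 𝓝[>] (0:ℝ), Sep P C ε τ (Sum.inl w) (Sum.inr (L, v)) := by
  obtain ⟨g, h1, h2, h3⟩ := exists_g (C := C) L v w hne
  filter_upwards [ev_gt, h.posOn_wall_pull h1 L w h3] with ε hε h4
  filter_upwards [posOn_pull h hε h2] with τ hτ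
  refine ⟨P.pull C ε L g, h4 τ, ?_⟩
  rw [← pull_neg]; exact hτ

theorem Good.floor_z (h : P.Good C B) {ε τ : ℝ} (hτ0 : 0 < τ) (hτ : τ < B) (L : Line V ι) (v : V)
    {l : Aff} (hl : ∀ p : Pt, |p.z - P.Z L| < 2 * B → 0 < l.ev p) :
    PosOn (nextGraph (ι := ι) G) (P.nq C ε) (P.ne C ε τ) l (Sum.inr (L, v)) := by
  have hB := h.hB
  refine posOn_inr P C ?_ ?_ ?_
  · apply hl
    have := abs_le.1 (h.he v)
    simp only [Pt.move, Phi, dir]
    rw [abs_lt]
    constructor <;> linarith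
  · apply hl
    have := abs_le.1 (h.he v)
    simp only [Phi]
    rw [abs_lt]
    constructor <;> linarith
  · intro u hu
    apply hl
    have := abs_le.1 (h.hq v u hu)
    simp only [Phi]
    rw [abs_lt]
    constructor <;> linarith

theorem ev_lt {b : ℝ} (hb : 0 < b) : ∀ᶠ t in 𝓝[>] (0:ℝ), t < b :=
  (nhdsWithin_le_nhds) (Iio_mem_nhds hb)

theorem Good.sep_floors_aux (h : P.Good C B) {L L2 : Line V ι} (u v : V)
    (hLL : 4 * B ≤ P.Z L2 - P.Z L) (ε : ℝ) :
    ∀ᶠ τ in 𝓝[>] (0:ℝ), Sep P C ε τ (Sum.inr (L, u)) (Sum.inr (L2, v)) := by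
  have hB := h.hB
  filter_upwards [ev_gt, ev_lt (by linarith : 0 < B)] with τ h0 h1
  refine ⟨⟨0, -1, 0, (P.Z L + P.Z L2) / 2⟩, h.floor_z h0 h1 L u ?_, h.floor_z h0 h1 L2 v ?_⟩
  · intro p hp
    have := abs_lt.1 hp
    simp only [Aff.ev]; linarith
  · intro p hp
    have := abs_lt.1 hp
    rw [Aff.ev_neg]
    simp only [Aff.ev]; linarith

theorem Good.sep_floors (h : P.Good C B) {L L2 : Line V ι} (hne : L ≠ L2) (u v : V) (ε : ℝ) :
    ∀ᶠ τ in 𝓝[>] (0:ℝ), Sep P C ε τ (Sum.inr (L, u)) (Sum.inr (L2, v)) := by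
  rcases le_abs.1 (h.hZ2 L L2 hne) with h4 | h4
  · filter_upwards [h.sep_floors_aux v u h4 ε] with τ hτ
    exact hτ.symm
  · exact h.sep_floors_aux u v (by linarith) ε

theorem Good.sep_same (h : P.Good C B) (L : Line V ι) {u v : V} (hne : u ≠ v)
    (hadj : ¬ G.Adj u v) {ε : ℝ} (hε : 0 < ε) :
    ∀ᶠ τ in 𝓝[>] (0:ℝ), Sep P C ε τ (Sum.inr (L, u)) (Sum.inr (L, v)) := by
  obtain ⟨l, h1, h2⟩ := C.sep u v hne hadj
  filter_upwards [posOn_pull h hε h1, posOn_pull h hε h2] with τ h3 h4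
  refine ⟨P.pull C ε L l, h3, ?_⟩
  rw [← pull_neg]; exact h4

theorem Good.st_sep [Finite V] [Finite (Line V ι)] (h : P.Good C B)
    (u v : (ι → V) ⊕ (Line V ι × V)) (hne : u ≠ v)
    (hadj : ¬ (nextGraph (ι := ι) G).Adj u v) :
    ∀ᶠ ε in 𝓝[>] (0:ℝ), ∀ᶠ τ in 𝓝[>] (0:ℝ), Sep P C ε τ u v := by
  rcases u with u | ⟨L, u⟩ <;> rcases v with v | ⟨L', v⟩
  · exact h.sep_walls (by rintro rfl; exact hne rfl)
  · exact h.sep_wall_floor hadj
  · have h1 : L u ≠ v := hadj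
    filter_upwards [h.sep_wall_floor h1] with ε hε
    filter_upwards [hε] with τ hτ
    exact hτ.symm
  · by_cases hL : L = L'
    · subst hL
      have h1 : u ≠ v := by rintro rfl; exact hne rfl
      have h2 : ¬ G.Adj u v := fun h => hadj ⟨rfl, h⟩
      filter_upwards [ev_gt] with ε hε
      exact h.sep_same L h1 h2 hε
    · exact Eventually.of_forall fun ε => h.sep_floors hL u v ε

end Par

end PolySurf
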