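import Pool.Agent.Helper96.PolySurf.Step2

/-!
The inductive step: exposure and distinctness.
-/

namespace PolySurf

open Filter Topology Combinatorics

namespace Par

variable {V ι : Type} [Fintype ι] {G : SimpleGraph V} {P : Par V ι} {C : Config G} {B : ℝ}

/-- exposure: the plate `u` is below the exposed point of `v` -/
def Expo (P : Par V ι) (C : Config G) (ε τ : ℝ) (u v : (ι → V) ⊕ (Line V ι × V)) : Prop :=
  ∃ l : Aff, l.c < 0 ∧ l.ev (P.ne C ε τ v) < 0 ∧
    PosOn (nextGraph (ι := ι) G) (P.nq C ε) (P.ne C ε τ) l u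

theorem Good.expo_walls [Finite V] [Finite (Line V ι)] (h : P.Good C B) {w w' : ι → V}
    (hne : w' ≠ w) :
    ∀ᶠ ε in 𝓝[>] (0:ℝ), ∀ᶠ τ in 𝓝[>] (0:ℝ), Expo P C ε τ (Sum.inl w') (Sum.inl w) := by
  have h1 := h.hgap w' w hne
  have h2 := mul_pos h.hmu h.hHpos
  rcases lt_trichotomy (P.Yw C 0 w') (P.Yw C 0 w) with h3 | h3 | h3
  · filter_upwards [Yw_lt h3] with ε hε
    refine Eventually.of_forall fun τ => ?_
    refine ⟨⟨-1, 0, -1, (P.Yw C ε w + P.Yw C ε w') / 2⟩, by norm_num, ?_,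
      posOn_wall_le (by linarith)⟩
    show Aff.ev _ (P.top C ε w) < 0
    have := top_sum (P := P) (C := C) ε w
    simp only [Aff.ev]; linarith
  · rw [h3, sub_self, abs_zero] at h1; linarith
  · have h4 : ∀ᶠ ε in 𝓝[>] (0:ℝ), ∀ L : Line V ι, ∀ v, L v = w' →
        (P.top C ε w').x < (P.Phi C ε L (C.e v)).x := by
      rw [eventually_all]; intro L
      rw [eventually_all]; intro v
      filter_upwards [h.top_left L v] with ε hε h5
      rw [← h5]; exact hε
    filter_upwards [Yw_lt h3, h4] with ε hε h5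
    refine Eventually.of_forall fun τ => ?_
    refine ⟨⟨1, 0, -1, P.mu * P.H - ((P.top C ε w).x + (P.top C ε w').x) / 2⟩, by norm_num, ?_,
      posOn_inl P C ?_ ?_⟩
    · show Aff.ev _ (P.top C ε w) < 0
      simp only [Aff.ev, top]; linarith
    · simp only [Aff.ev, top]; linarith
    · intro L v hv
      have h6 := h5 L v hv
      have h7 := wall_sum (P := P) (C := C) ε L v
      rw [hv] at h7
      simp only [Aff.ev]
      simp only [top] at h6 ⊢
      linarith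

theorem Good.A_lt (h : P.Good C B) (L : Line V ι) {z : ℝ} (hz : |z| ≤ B) :
    P.mu * P.A L z < P.mu * P.H := mul_lt_mul_of_pos_left (h.hH L z hz) h.hmu

/-- A fixed functional which is positive at the limit points is eventually positive on the floor
plate. -/
theorem posOn_floor_fixed [Finite V] {l : Aff} {L : Line V ι} {v : V}
    (h1 : 0 < l.ev (P.Phi C 0 L (C.e v)))
    (h2 : ∀ u, G.Adj v u → 0 < l.ev (P.Phi C 0 L (C.q v u))) :
    ∀ᶠ ε in 𝓝[>] (0:ℝ), ∀ᶠ τ in 𝓝[>] (0:ℝ),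
      PosOn (nextGraph (ι := ι) G) (P.nq C ε) (P.ne C ε τ) l (Sum.inr (L, v)) := by
  have h3 : ∀ᶠ ε in 𝓝[>] (0:ℝ), ∀ u, G.Adj v u → 0 < l.ev (P.Phi C ε L (C.q v u)) := by
    rw [eventually_all]; intro u
    by_cases hu : G.Adj v u
    · filter_upwards [ev_pos (cont_Phi_ev l L (C.q v u)) (h2 u hu)] with ε hε _
      exact hε
    · exact Eventually.of_forall fun _ h => absurd h hu
  filter_upwards [h3, ev_pos (cont_Phi_ev l L (C.e v)) h1] with ε h4 h5
  filter_upwards [ev_move (d := P.dir C ε L v) h5] with τ hτ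
  exact posOn_inr P C hτ h5 h4

theorem posOn_wall_fixed [Finite V] [Finite (Line V ι)] {l : Aff} {w : ι → V}
    (h1 : 0 < l.ev (P.top C 0 w))
    (h2 : ∀ L v, L v = w → 0 < l.ev (P.Phi C 0 L (C.e v))) :
    ∀ᶠ ε in 𝓝[>] (0:ℝ), ∀ τ,
      PosOn (nextGraph (ι := ι) G) (P.nq C ε) (P.ne C ε τ) l (Sum.inl w) := by
  have h3 : ∀ᶠ ε in 𝓝[>] (0:ℝ), ∀ L : Line V ι, ∀ v, L v = w →
      0 < l.ev (P.Phi C ε L (C.e v)) := by
    rw [eventually_all]; intro L
    rw [eventually_all]; intro v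
    by_cases hu : L v = w
    · filter_upwards [ev_pos (cont_Phi_ev l L (C.e v)) (h2 L v hu)] with ε hε _
      exact hε
    · exact Eventually.of_forall fun _ h => absurd h hu
  filter_upwards [h3, ev_pos (cont_top_ev l w) h1] with ε h4 h5 τ
  exact posOn_inl P C h5 h4

theorem neg_floor_fixed {l : Aff} {L : Line V ι} {v : V}
    (h1 : l.ev (P.Phi C 0 L (C.e v)) < 0) :
    ∀ᶠ ε in 𝓝[>] (0:ℝ), ∀ᶠ τ in 𝓝[>] (0:ℝ), l.ev (P.ne C ε τ (Sum.inr (L, v))) < 0 := by
  have h2 : 0 < l.neg.ev (P.Phi C 0 L (C.e v)) := by rw [Aff.ev_neg]; linarith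
  filter_upwards [ev_pos (cont_Phi_ev l.neg L (C.e v)) h2] with ε h5
  filter_upwards [ev_move (d := P.dir C ε L v) h5] with τ hτ
  rw [Aff.ev_neg] at hτ
  show l.ev ((P.Phi C ε L (C.e v)).move (P.dir C ε L v) τ) < 0
  linarith

theorem Good.expo_top_floor [Finite V] (h : P.Good C B) (w : ι → V) (L : Line V ι) (u : V) :
    ∀ᶠ ε in 𝓝[>] (0:ℝ), ∀ᶠ τ in 𝓝[>] (0:ℝ), Expo P C ε τ (Sum.inr (L, u)) (Sum.inl w) := by
  have h2 := mul_pos h.hmu h.hHpos
  have hZ := h.hZ L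
  have hB := h.hB
  have key : ∀ p : Pt, |p.z| ≤ B →
      0 < Aff.ev ⟨0, P.mu * P.H + 1, -1, -(P.mu * P.H + 1)⟩ (P.Phi C 0 L p) := by
    intro p hp
    have h3 := h.A_lt L hp
    have h4 := abs_le.1 hp
    simp only [Aff.ev, Phi]
    have h5 : 2 ≤ P.Z L + p.z - 1 := by linarith
    nlinarith
  filter_upwards [posOn_floor_fixed (key _ (h.he u)) (fun v hv => key _ (h.hq u v hv))] with ε hε
  filter_upwards [hε] with τ hτ
  refine ⟨_, by norm_num, ?_, hτ⟩
  show Aff.ev _ (P.top C ε w) < 0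
  simp only [Aff.ev, top]
  linarith

theorem Phi0_x (L : Line V ι) (v : V) :
    (P.Phi C 0 L (C.e v)).x = P.Yw C 0 (L v) - P.mu * P.A L (C.e v).z := by
  rw [Yw_line]; simp only [Phi, Config.Yv]; ring

theorem Phi0_m (L : Line V ι) (p : Pt) : (P.Phi C 0 L p).m = P.mu * P.A L p.z := by
  simp only [Phi]; ring

theorem Good.expo_wall_floor [Finite V] [Finite (Line V ι)] (h : P.Good C B) (w : ι → V)
    (L : Line V ι) (v : V) :
    ∀ᶠ ε in 𝓝[>] (0:ℝ), ∀ᶠ τ in 𝓝[>] (0:ℝ), Expo P C ε τ (Sum.inl w) (Sum.inr (L, v)) := by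
  have h2 := mul_pos h.hmu h.hHpos
  by_cases hw : L v = w
  · subst hw
    filter_upwards [h.dir_sum L v] with ε hε
    filter_upwards [ev_gt] with τ hτ
    have h3 := mul_pos hτ hε
    have h4 := wall_sum (P := P) (C := C) ε L v
    refine ⟨⟨-1, 0, -1, P.Yw C ε (L v) + τ * ((P.dir C ε L v).x + (P.dir C ε L v).m) / 2⟩,
      by norm_num, ?_, posOn_wall_le (by linarith)⟩
    show Aff.ev _ ((P.Phi C ε L (C.e v)).move (P.dir C ε L v) τ) < 0
    rw [Aff.ev_move]
    simp only [Aff.ev, Aff.lin]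
    nlinarith
  · have h1 := h.hgap w (L v) (Ne.symm hw)
    rcases lt_trichotomy (P.Yw C 0 w) (P.Yw C 0 (L v)) with h3 | h3 | h3
    · filter_upwards [Yw_lt h3] with ε hε
      have h4 := wall_sum (P := P) (C := C) ε L v
      have h5 : 0 < (Aff.neg ⟨-1, 0, -1, (P.Yw C ε w + P.Yw C ε (L v)) / 2⟩).ev
          (P.Phi C ε L (C.e v)) := by
        rw [Aff.ev_neg]; simp only [Aff.ev]; linarith
      filter_upwards [ev_move (d := P.dir C ε L v) h5] with τ hτ
      refine ⟨⟨-1, 0, -1, (P.Yw C ε w + P.Yw C ε (L v)) / 2⟩, by norm_num, ?_,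
        posOn_wall_le (by linarith)⟩
      rw [Aff.ev_neg] at hτ
      show Aff.ev _ ((P.Phi C ε L (C.e v)).move (P.dir C ε L v) τ) < 0
      linarith
    · rw [h3, sub_self, abs_zero] at h1; linarith
    · rw [abs_of_pos (by linarith)] at h1
      set δ := (P.Yw C 0 w - P.Yw C 0 (L v) - P.mu * P.H) / 2 with hδ
      have hδ0 : 0 < δ := by rw [hδ]; linarith
      set K := (P.mu * P.H + 1) / δ with hK
      have hKδ : K * δ = P.mu * P.H + 1 := by rw [hK]; field_simp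
      have hK0 : 0 < K := by rw [hK]; positivity
      set l : Aff := ⟨K, 0, -1, -(K * (P.Yw C 0 (L v) + δ))⟩ with hl
      have e0 : P.Yw C 0 w = P.Yw C 0 (L v) + δ + δ + P.mu * P.H := by rw [hδ]; ring
      have h5 : 0 < l.ev (P.top C 0 w) := by
        have : l.ev (P.top C 0 w) = K * δ - P.mu * P.H := by
          simp only [hl, Aff.ev, top]; rw [e0]; ring
        rw [this, hKδ]; linarith
      have h6 : ∀ L2 v2, L2 v2 = w → 0 < l.ev (P.Phi C 0 L2 (C.e v2)) := by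
        intro L2 v2 hv
        have h7 := h.A_lt L2 (h.he v2)
        have : l.ev (P.Phi C 0 L2 (C.e v2)) =
            K * δ + K * (P.mu * P.H - P.mu * P.A L2 (C.e v2).z) - P.mu * P.A L2 (C.e v2).z := by
          simp only [hl, Aff.ev]
          rw [Phi0_x, Phi0_m, hv, e0]; ring
        rw [this, hKδ]
        have := mul_pos hK0 (by linarith : 0 < P.mu * P.H - P.mu * P.A L2 (C.e v2).z)
        linarith
      have h7 : l.ev (P.Phi C 0 L (C.e v)) < 0 := by
        have h8 := mul_pos h.hmu (h.A_pos L (h.he v))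
        have : l.ev (P.Phi C 0 L (C.e v)) =
            - (K * δ) - K * (P.mu * P.A L (C.e v).z) - P.mu * P.A L (C.e v).z := by
          simp only [hl, Aff.ev]
          rw [Phi0_x, Phi0_m]; ring
        rw [this, hKδ]
        have := mul_pos hK0 h8
        linarith
      filter_upwards [posOn_wall_fixed h5 h6, neg_floor_fixed h7] with ε h8 h9
      filter_upwards [h9] with τ hτ
      exact ⟨l, by simp [hl], hτ, h8 τ⟩

theorem Good.expo_floors [Finite V] (h : P.Good C B) {L L2 : Line V ι} (hne : L2 ≠ L) (u v : V) :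
    ∀ᶠ ε in 𝓝[>] (0:ℝ), ∀ᶠ τ in 𝓝[>] (0:ℝ),
      Expo P C ε τ (Sum.inr (L2, u)) (Sum.inr (L, v)) := by
  have h2 := mul_pos h.hmu h.hHpos
  have hB := h.hB
  have key : ∀ s : ℝ, (s = 1 ∨ s = -1) → 4 * B ≤ s * (P.Z L2 - P.Z L) →
      (∀ p : Pt, |p.z| ≤ B → 0 < Aff.ev ⟨0, s * (P.mu * P.H + 1), -1,
        -(s * (P.mu * P.H + 1) * ((P.Z L + P.Z L2) / 2))⟩ (P.Phi C 0 L2 p)) ∧
      (∀ p : Pt, |p.z| ≤ B → Aff.ev ⟨0, s * (P.mu * P.H + 1), -1,
        -(s * (P.mu * P.H + 1) * ((P.Z L + P.Z L2) / 2))⟩ (P.Phi C 0 L p) < 0) := by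
    intro s hs h3
    have hz : ∀ p : Pt, |p.z| ≤ B → |s * p.z| ≤ B := by
      intro p hp
      rcases hs with rfl | rfl
      · simpa using hp
      · simpa using hp
    constructor
    · intro p hp
      have h4 := h.A_lt L2 hp
      have h5 := abs_le.1 (hz p hp)
      have e : Aff.ev ⟨0, s * (P.mu * P.H + 1), -1,
        -(s * (P.mu * P.H + 1) * ((P.Z L + P.Z L2) / 2))⟩ (P.Phi C 0 L2 p) =
          (P.mu * P.H + 1) * (s * (P.Z L2 - P.Z L) / 2 + s * p.z) - P.mu * P.A L2 p.z := by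
        simp only [Aff.ev, Phi]; ring
      rw [e]
      have h6 : 1 ≤ s * (P.Z L2 - P.Z L) / 2 + s * p.z := by linarith
      nlinarith
    · intro p hp
      have h4 := mul_pos h.hmu (h.A_pos L hp)
      have h5 := abs_le.1 (hz p hp)
      have e : Aff.ev ⟨0, s * (P.mu * P.H + 1), -1,
        -(s * (P.mu * P.H + 1) * ((P.Z L + P.Z L2) / 2))⟩ (P.Phi C 0 L p) =
          (P.mu * P.H + 1) * (-(s * (P.Z L2 - P.Z L) / 2) + s * p.z) - P.mu * P.A L p.z := by
        simp only [Aff.ev, Phi]; ring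
      rw [e]
      have h6 : -(s * (P.Z L2 - P.Z L) / 2) + s * p.z ≤ -1 := by linarith
      nlinarith
  have key2 : ∀ s : ℝ, (s = 1 ∨ s = -1) → 4 * B ≤ s * (P.Z L2 - P.Z L) →
      ∀ᶠ ε in 𝓝[>] (0:ℝ), ∀ᶠ τ in 𝓝[>] (0:ℝ),
      Expo P C ε τ (Sum.inr (L2, u)) (Sum.inr (L, v)) := by
    intro s hs h3
    obtain ⟨k1, k2⟩ := key s hs h3
    filter_upwards [posOn_floor_fixed (k1 _ (h.he u)) (fun v hv => k1 _ (h.hq u v hv)),
      neg_floor_fixed (k2 _ (h.he v))] with ε h4 h5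
    filter_upwards [h4, h5] with τ h6 h7
    exact ⟨_, by norm_num, h7, h6⟩
  rcases le_abs.1 (h.hZ2 L2 L hne) with h4 | h4
  · exact key2 1 (Or.inl rfl) (by linarith)
  · exact key2 (-1) (Or.inr rfl) (by linarith)

theorem Good.st_expo [Finite V] [Finite (Line V ι)] (h : P.Good C B)
    (u v : (ι → V) ⊕ (Line V ι × V)) (hne : u ≠ v) :
    ∀ᶠ ε in 𝓝[>] (0:ℝ), ∀ᶠ τ in 𝓝[>] (0:ℝ), Expo P C ε τ u v := by
  rcases u with u | ⟨L, u⟩ <;> rcases v with v | ⟨L', v⟩
  · exact h.expo_walls (by rintro rfl; exact hne rfl)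
  · exact h.expo_wall_floor u L' v
  · exact h.expo_top_floor v L u
  · by_cases hL : L = L'
    · subst hL
      have h1 : u ≠ v := by rintro rfl; exact hne rfl
      obtain ⟨l, h2, h3, h4⟩ := C.expo u v h1
      filter_upwards [ev_gt] with ε hε
      have hl := P.lam_pos h.hr L
      have h5 : 0 < (P.pull C ε L l.neg).ev (P.Phi C ε L (C.e v)) := by
        rw [ev_pull_Phi, Aff.ev_neg]
        exact mul_pos (mul_pos hl hε) (by linarith)
      filter_upwards [posOn_pull h hε h4, ev_move (d := P.dir C ε L v) h5] with τ h6 h7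
      refine ⟨P.pull C ε L l, h2, ?_, h6⟩
      rw [pull_neg, Aff.ev_neg] at h7
      show Aff.ev _ ((P.Phi C ε L (C.e v)).move (P.dir C ε L v) τ) < 0
      linarith
    · exact h.expo_floors hL u v

/-- limit positions -/
noncomputable def X0 (P : Par V ι) (C : Config G) : (ι → V) ⊕ (Line V ι × V) → ℝ
  | Sum.inl w => P.Yw C 0 w - P.mu * P.H
  | Sum.inr (L, v) => P.Yw C 0 (L v) - P.mu * P.A L (C.e v).z

theorem Good.X0_ne (h : P.Good C B) (u v : (ι → V) ⊕ (Line V ι × V)) (hne : u ≠ v) :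
    X0 P C u ≠ X0 P C v := by
  have h2 := mul_pos h.hmu h.hHpos
  -- general principle
  have key : ∀ w w' : ι → V, w ≠ w' → ∀ s t : ℝ, 0 ≤ s → s ≤ P.mu * P.H → 0 ≤ t →
      t ≤ P.mu * P.H → P.Yw C 0 w - s ≠ P.Yw C 0 w' - t := by
    intro w w' hw s t hs hs' ht ht' h3
    have h4 := h.hgap w w' hw
    have h5 : |P.Yw C 0 w - P.Yw C 0 w'| ≤ P.mu * P.H := by
      rw [abs_le]; constructor <;> linarith
    linarith
  rcases u with u | ⟨L, u⟩ <;> rcases v with v | ⟨L', v⟩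
  · have : u ≠ v := by rintro rfl; exact hne rfl
    exact key u v this _ _ h2.le le_rfl h2.le le_rfl
  · have h3 := h.A_lt L' (h.he v)
    have h4 := mul_pos h.hmu (h.A_pos L' (h.he v))
    by_cases hw : L' v = u
    · simp only [X0, hw]; intro h5; linarith
    · exact key _ _ (Ne.symm hw) _ _ h2.le le_rfl h4.le h3.le
  · have h3 := h.A_lt L (h.he u)
    have h4 := mul_pos h.hmu (h.A_pos L (h.he u))
    by_cases hw : L u = v
    · simp only [X0, hw]; intro h5; linarith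
    · exact key _ _ hw _ _ h4.le h3.le h2.le le_rfl
  · have h3 := h.A_lt L (h.he u)
    have h4 := mul_pos h.hmu (h.A_pos L (h.he u))
    have h5 := h.A_lt L' (h.he v)
    have h6 := mul_pos h.hmu (h.A_pos L' (h.he v))
    by_cases hw : L u = L' v
    · have hL : L ≠ L' := by
        rintro rfl
        exact hne (by rw [line_inj L hw])
      simp only [X0, hw]
      intro h7
      have h8 : P.mu * P.A L (C.e u).z = P.mu * P.A L' (C.e v).z := by linarith
      exact h.F2 hL (h.he u) (h.he v) (mul_left_cancel₀ h.hmu.ne' h8)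
    · exact key _ _ hw _ _ h4.le h3.le h6.le h5.le

theorem ev_ne {F : ℝ → ℝ} (hF : Continuous F) (h : F 0 ≠ 0) :
    ∀ᶠ t in 𝓝[>] (0:ℝ), F t ≠ 0 := by
  have h1 : Tendsto F (𝓝[>] 0) (𝓝 (F 0)) := hF.continuousAt.tendsto.mono_left nhdsWithin_le_nhds
  exact h1.eventually_ne h

theorem Good.st_inj (h : P.Good C B) (u v : (ι → V) ⊕ (Line V ι × V)) (hne : u ≠ v) :
    ∀ᶠ ε in 𝓝[>] (0:ℝ), ∀ᶠ τ in 𝓝[>] (0:ℝ), (P.ne C ε τ u).x ≠ (P.ne C ε τ v).x := by
  have c0 : ∀ s : (ι → V) ⊕ (Line V ι × V), Continuous fun ε => (P.ne C ε 0 s).x := by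
    rintro (w | ⟨L, v⟩)
    · have := cont_Yw (P := P) (C := C) w
      show Continuous fun ε => P.Yw C ε w - P.mu * P.H
      fun_prop
    · have := cont_cc (P := P) (C := C) L
      simp only [ne, Phi, Pt.move, dir]
      fun_prop
  have e0 : ∀ s : (ι → V) ⊕ (Line V ι × V), (P.ne C 0 0 s).x = X0 P C s := by
    rintro (w | ⟨L, v⟩)
    · rfl
    · simp only [ne, X0, Pt.move]
      rw [Phi0_x]; ring
  have c1 : ∀ (ε : ℝ) (s : (ι → V) ⊕ (Line V ι × V)), Continuous fun τ => (P.ne C ε τ s).x := by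
    rintro ε (w | ⟨L, v⟩)
    · exact continuous_const
    · simp only [ne, Pt.move]
      fun_prop
  have d1 := c0 u
  have d2 := c0 v
  have h1 := ev_ne (F := fun ε => (P.ne C ε 0 u).x - (P.ne C ε 0 v).x) (by fun_prop)
    (by rw [e0, e0]; exact sub_ne_zero.2 (h.X0_ne u v hne))
  filter_upwards [h1] with ε hε
  have d3 := c1 ε u
  have d4 := c1 ε v
  have h2 := ev_ne (F := fun τ => (P.ne C ε τ u).x - (P.ne C ε τ v).x) (by fun_prop) hε
  filter_upwards [h2] with τ hτ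
  exact sub_ne_zero.1 hτ

end Par

end PolySurf
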