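import Pool.Agent.Helper96.PolySurf.Step3

/-!
The inductive step: choice of the parameters, and the resulting theorem: there are configurations
whose contact graphs have arbitrarily large chromatic number.
-/

namespace PolySurf

open Filter Topology Combinatorics

theorem finite_line (V ι : Type) [Finite V] [Finite ι] : Finite (Line V ι) := by
  apply Finite.of_injective (fun L : Line V ι => L.idxFun)
  intro L L' h
  cases L; cases L'; simp only at h; subst h; rfl

theorem exists_weights {V ι : Type} [Finite V] [Fintype ι] (x : V → ℝ)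
    (hx : Function.Injective x) :
    ∃ r : ι → ℝ, (∀ j, 0 < r j) ∧ ∀ w w' : ι → V, w ≠ w' →
      ∑ j, r j * x (w j) ≠ ∑ j, r j * x (w' j) := by
  classical
  let e := Fintype.equivFin ι
  have h1 : ∀ w w' : ι → V, w ≠ w' → ∀ᶠ R in (atTop : Filter ℝ),
      ∑ j, R ^ (e j : ℕ) * x (w j) ≠ ∑ j, R ^ (e j : ℕ) * x (w' j) := by
    intro w w' hne
    obtain ⟨j0, hj0⟩ := Function.ne_iff.1 hne
    let p : Polynomial ℝ := ∑ j, Polynomial.C (x (w j) - x (w' j)) * Polynomial.X ^ (e j : ℕ)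
    have hp : p ≠ 0 := by
      intro h
      have h2 : p.coeff (e j0 : ℕ) = x (w j0) - x (w' j0) := by
        simp only [p, Polynomial.finsetSum_coeff, Polynomial.coeff_C_mul, Polynomial.coeff_X_pow]
        rw [Finset.sum_eq_single j0]
        · simp
        · intro j _ hj
          have : ¬ ((e j0 : ℕ) = (e j : ℕ)) := by
            intro h3
            exact hj (e.injective (Fin.ext h3)).symm
          simp [this]
        · intro h3; exact absurd (Finset.mem_univ _) h3
      rw [h, Polynomial.coeff_zero] at h2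
      exact hj0 (hx (sub_eq_zero.1 h2.symm))
    filter_upwards [Polynomial.eventually_no_roots p hp] with R hR h3
    apply hR
    simp only [p, Polynomial.IsRoot, Polynomial.eval_finsetSum, Polynomial.eval_mul,
      Polynomial.eval_C, Polynomial.eval_pow, Polynomial.eval_X]
    have : ∑ j, (x (w j) - x (w' j)) * R ^ (e j : ℕ) =
        ∑ j, R ^ (e j : ℕ) * x (w j) - ∑ j, R ^ (e j : ℕ) * x (w' j) := by
      rw [← Finset.sum_sub_distrib]
      exact Finset.sum_congr rfl fun j _ => by ring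
    rw [this, h3, sub_self]
  have h2 : ∀ᶠ R in (atTop : Filter ℝ), ∀ w w' : ι → V, w ≠ w' →
      ∑ j, R ^ (e j : ℕ) * x (w j) ≠ ∑ j, R ^ (e j : ℕ) * x (w' j) := by
    rw [eventually_all]; intro w
    rw [eventually_all]; intro w'
    rw [eventually_imp_distrib_left]
    exact h1 w w'
  obtain ⟨R, h3, h4⟩ := (h2.and (eventually_gt_atTop 0)).exists
  exact ⟨fun j => R ^ (e j : ℕ), fun j => pow_pos h4 _, h3⟩

theorem exists_bound {α : Type} [Finite α] (g : α → ℝ) : ∃ B : ℝ, ∀ a, g a ≤ B := by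
  obtain ⟨B, hB⟩ := (Set.finite_range g).bddAbove
  exact ⟨B, fun a => hB ⟨a, rfl⟩⟩

theorem exists_good {V ι : Type} [Finite V] [Fintype ι] {G : SimpleGraph V} (C : Config G) :
    ∃ (P : Par V ι) (B : ℝ), P.Good C B := by
  classical
  have := finite_line V ι
  obtain ⟨r, hr, hr2⟩ := exists_weights (ι := ι) (fun v => (C.e v).x) C.inj
  obtain ⟨B1, hB1⟩ := exists_bound fun v => |(C.e v).z|
  obtain ⟨B2, hB2⟩ := exists_bound fun s : V × V => |(C.q s.1 s.2).z|
  let B : ℝ := max 1 (max B1 B2)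
  have hB : 1 ≤ B := le_max_left _ _
  have hBe : ∀ v, |(C.e v).z| ≤ B := fun v =>
    (hB1 v).trans ((le_max_left _ _).trans (le_max_right _ _))
  have hBq : ∀ u v, |(C.q u v).z| ≤ B := fun u v =>
    (hB2 (u, v)).trans ((le_max_right _ _).trans (le_max_right _ _))
  obtain ⟨n, ⟨N⟩⟩ := Finite.exists_equiv_fin (Line V ι)
  let Z : Line V ι → ℝ := fun L => 4 * B * ((N L : ℕ) + 1)
  have hZ : ∀ L, 4 * B ≤ Z L := by
    intro L
    have : (0:ℝ) ≤ ((N L : ℕ) : ℝ) := Nat.cast_nonneg _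
    simp only [Z]
    nlinarith
  have hZ2 : ∀ L L', L ≠ L' → 4 * B ≤ |Z L - Z L'| := by
    intro L L' h
    have h1 : ((N L : ℕ) : ℤ) ≠ ((N L' : ℕ) : ℤ) := by
      intro h2
      apply h
      apply N.injective
      exact Fin.ext (by exact_mod_cast h2)
    have h2 : (1:ℤ) ≤ |((N L : ℕ) : ℤ) - ((N L' : ℕ) : ℤ)| :=
      Int.one_le_abs (sub_ne_zero.2 h1)
    have h3 : (1:ℝ) ≤ |((N L : ℕ) : ℝ) - ((N L' : ℕ) : ℝ)| := by exact_mod_cast h2
    have e : Z L - Z L' = 4 * B * (((N L : ℕ) : ℝ) - ((N L' : ℕ) : ℝ)) := by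
      simp only [Z]; ring
    rw [e, abs_mul, abs_of_pos (by linarith : 0 < 4 * B)]
    nlinarith
  obtain ⟨M, hM⟩ := exists_bound Z
  let H : ℝ := M ^ 2 + 2 * |M| * B + 1
  have hHpos : 0 < H := by
    have : 0 ≤ |M| * B := mul_nonneg (abs_nonneg _) (by linarith)
    simp only [H]; nlinarith [sq_nonneg M]
  let P : ℝ → Par V ι := fun μ => ⟨r, Z, μ, H⟩
  have hY : ∀ μ w, (P μ).Yw C 0 w = ∑ j, r j * (C.e (w j)).x := by
    intro μ w
    simp only [Par.Yw, Config.Yv, P]
    exact Finset.sum_congr rfl fun j _ => by ring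
  have hH : ∀ μ L z, |z| ≤ B → (P μ).A L z < (P μ).H := by
    intro μ L z hz
    have h1 := hM L
    have h2 := hZ L
    have h3 := abs_le.1 hz
    have h4 : Z L ≤ |M| := h1.trans (le_abs_self M)
    have h5 : Z L ^ 2 ≤ |M| ^ 2 := by
      apply pow_le_pow_left₀ (by linarith) h4
    have h6 : Z L * z ≤ |M| * B := by
      calc Z L * z ≤ Z L * B := mul_le_mul_of_nonneg_left h3.2 (by linarith)
        _ ≤ |M| * B := mul_le_mul_of_nonneg_right h4 (by linarith)
    rw [sq_abs] at h5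
    simp only [P, Par.A, H]
    nlinarith
  have hlam : ∀ μ L, (P μ).lam L = (P 0).lam L := fun μ L => rfl
  have e1 : ∀ᶠ μ in 𝓝[>] (0:ℝ), ∀ w w' : ι → V, w ≠ w' →
      (P μ).mu * (P μ).H < |(P μ).Yw C 0 w - (P μ).Yw C 0 w'| := by
    rw [eventually_all]; intro w
    rw [eventually_all]; intro w'
    rw [eventually_imp_distrib_left]
    intro hne
    have h1 := ev_pos (F := fun μ => |∑ j, r j * (C.e (w j)).x - ∑ j, r j * (C.e (w' j)).x| - μ * H)
      (by fun_prop) (by simpa using sub_ne_zero.2 (hr2 w w' hne))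
    filter_upwards [h1] with μ hμ
    rw [hY, hY]
    simp only [P]
    linarith
  have e2 : ∀ᶠ μ in 𝓝[>] (0:ℝ), ∀ L : Line V ι, ∀ v u, G.Adj v u →
      (P μ).lam L * (C.e v).x - (P μ).mu * (P μ).A L (C.e v).z <
      (P μ).lam L * (C.q v u).x - (P μ).mu * (P μ).A L (C.q v u).z := by
    rw [eventually_all]; intro L
    rw [eventually_all]; intro v
    rw [eventually_all]; intro u
    rw [eventually_imp_distrib_left]
    intro hvu
    have hl : 0 < (P 0).lam L := Par.lam_pos (P 0) hr L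
    have h1 := ev_pos (F := fun μ => ((P 0).lam L * (C.q v u).x - μ * (P 0).A L (C.q v u).z) -
      ((P 0).lam L * (C.e v).x - μ * (P 0).A L (C.e v).z)) (by fun_prop)
      (by
        have := C.left v u hvu
        have := mul_lt_mul_of_pos_left this hl
        simp only [zero_mul, sub_zero]
        linarith)
    filter_upwards [h1] with μ hμ
    have e : ∀ z, (P μ).A L z = (P 0).A L z := fun z => rfl
    have e' : (P μ).mu = μ := rfl
    rw [hlam, e, e, e']
    linarith
  obtain ⟨μ, ⟨h1, h2⟩, h3⟩ := ((e1.and e2).and ev_gt).exists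
  exact ⟨P μ, B, hB, hr, h3, hHpos, hZ, hZ2, hBe, fun u v _ => hBq u v, hH μ, h1, h2⟩

theorem exists_next {V ι : Type} [Finite V] [Fintype ι] {G : SimpleGraph V} (C : Config G) :
    Nonempty (Config (nextGraph (ι := ι) G)) := by
  have := finite_line V ι
  obtain ⟨P, B, h⟩ := exists_good (ι := ι) C
  have a1 : ∀ᶠ ε in 𝓝[>] (0:ℝ), ∀ u v w : (ι → V) ⊕ (Line V ι × V),
      (nextGraph (ι := ι) G).Adj u v → (nextGraph (ι := ι) G).Adj u w → w ≠ v →
      0 < (P.nf C ε v).ev (P.nq C ε u w) := by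
    rw [eventually_all]; intro u
    rw [eventually_all]; intro v
    rw [eventually_all]; intro w
    rw [eventually_imp_distrib_left]; intro h1
    rw [eventually_imp_distrib_left]; intro h2
    rw [eventually_imp_distrib_left]; intro h3
    exact h.st_pos_q u v w h1 h2 h3
  have a2 : ∀ᶠ ε in 𝓝[>] (0:ℝ), ∀ᶠ τ in 𝓝[>] (0:ℝ), ∀ u v : (ι → V) ⊕ (Line V ι × V),
      (nextGraph (ι := ι) G).Adj u v → 0 < (P.nf C ε v).ev (P.ne C ε τ u) := by
    simp only [eventually_all, eventually_imp_distrib_left]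
    intro u v huv
    exact h.st_pos_e u v huv
  have a3 : ∀ᶠ ε in 𝓝[>] (0:ℝ), ∀ᶠ τ in 𝓝[>] (0:ℝ), ∀ u v : (ι → V) ⊕ (Line V ι × V),
      (nextGraph (ι := ι) G).Adj u v → (P.ne C ε τ u).x < (P.nq C ε u v).x := by
    simp only [eventually_all, eventually_imp_distrib_left]
    intro u v huv
    exact h.st_left u v huv
  have a4 : ∀ᶠ ε in 𝓝[>] (0:ℝ), ∀ᶠ τ in 𝓝[>] (0:ℝ), ∀ u v : (ι → V) ⊕ (Line V ι × V),
      u ≠ v → ¬ (nextGraph (ι := ι) G).Adj u v → Par.Sep P C ε τ u v := by
    simp only [eventually_all, eventually_imp_distrib_left]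
    intro u v hne huv
    exact h.st_sep u v hne huv
  have a5 : ∀ᶠ ε in 𝓝[>] (0:ℝ), ∀ᶠ τ in 𝓝[>] (0:ℝ), ∀ u v : (ι → V) ⊕ (Line V ι × V),
      u ≠ v → Par.Expo P C ε τ u v := by
    simp only [eventually_all, eventually_imp_distrib_left]
    intro u v hne
    exact h.st_expo u v hne
  have a6 : ∀ᶠ ε in 𝓝[>] (0:ℝ), ∀ᶠ τ in 𝓝[>] (0:ℝ), ∀ u v : (ι → V) ⊕ (Line V ι × V),
      u ≠ v → (P.ne C ε τ u).x ≠ (P.ne C ε τ v).x := by
    simp only [eventually_all, eventually_imp_distrib_left]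
    intro u v hne
    exact h.st_inj u v hne
  obtain ⟨ε, b1, b2, b3, b4, b5, b6⟩ :=
    (a1.and (a2.and (a3.and (a4.and (a5.and a6))))).exists
  obtain ⟨τ, c2, c3, c4, c5, c6⟩ := (b2.and (b3.and (b4.and (b5.and b6)))).exists
  exact ⟨{
    f := P.nf C ε
    q := P.nq C ε
    e := P.ne C ε τ
    hc := Par.st_hc ε
    q_symm := Par.st_symm ε
    on_q := Par.st_on_q ε
    on_e := Par.st_on_e ε τ
    pos_q := b1
    pos_e := c2
    sep := c4
    left := c3
    inj := fun u v huv => by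
      by_contra hne
      exact c6 u v hne huv
    expo := fun u v hne => c5 u v hne }⟩

/-- There are configurations whose contact graphs have arbitrarily large chromatic number. -/
theorem exists_config (k : ℕ) : ∃ (V : Type) (_ : Finite V) (G : SimpleGraph V),
    Nonempty (Config G) ∧ ¬ G.Colorable k := by
  induction k with
  | zero =>
    refine ⟨Unit, inferInstance, ⊥, ⟨Config.single⟩, ?_⟩
    rintro ⟨c⟩
    exact (c ()).elim0
  | succ k ih =>
    obtain ⟨V, hV, G, ⟨C⟩, hG⟩ := ih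
    obtain ⟨ι, hι, hHJ⟩ := Line.exists_mono_in_high_dimension V (Fin (k + 1))
    have := finite_line V ι
    exact ⟨_, inferInstance, nextGraph (ι := ι) G, exists_next C,
      nextGraph_not_colorable G k hG hHJ⟩

end PolySurf
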