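import Pool.Agent.Helper96.PolySurf.Closing
import Pool.Agent.Helper96.PolySurf.Defs

/-!
The closed surface built from closing data: vertices, faces, functionals.
-/

namespace PolySurf

open Filter Topology

/-- embedding of coordinates -/
noncomputable def toE (p : Pt) : E3 := !₂[p.x, p.z, p.m]

@[simp] theorem toE_0 (p : Pt) : toE p 0 = p.x := rfl
@[simp] theorem toE_1 (p : Pt) : toE p 1 = p.z := rfl
@[simp] theorem toE_2 (p : Pt) : toE p 2 = p.m := rfl

/-- linear part of an affine functional, on `E3` -/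
noncomputable def Aff.linE (l : Aff) : E3 →ₗ[ℝ] ℝ where
  toFun v := l.a * v 0 + l.b * v 1 + l.c * v 2
  map_add' v w := by simp; ring
  map_smul' t v := by simp; ring

theorem Aff.linE_apply (l : Aff) (v : E3) : l.linE v = l.a * v 0 + l.b * v 1 + l.c * v 2 := rfl

theorem Aff.linE_toE (l : Aff) (p : Pt) : l.linE (toE p) = l.ev p - l.d := by
  simp [Aff.linE_apply, Aff.ev]

theorem Aff.linE_sub (l : Aff) (p q : Pt) : l.linE (toE p - toE q) = l.ev p - l.ev q := by
  rw [map_sub, Aff.linE_toE, Aff.linE_toE]; ring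

/-- every linear functional comes from an `Aff` -/
theorem exists_aff (L : E3 →ₗ[ℝ] ℝ) (c : ℝ) : ∃ l : Aff, ∀ p, l.ev p = L (toE p) + c := by
  refine ⟨⟨L (EuclideanSpace.single 0 1), L (EuclideanSpace.single 1 1),
    L (EuclideanSpace.single 2 1), c⟩, fun p => ?_⟩
  have e : toE p = p.x • EuclideanSpace.single (0 : Fin 3) (1:ℝ) +
      p.z • EuclideanSpace.single (1 : Fin 3) (1:ℝ) +
      p.m • EuclideanSpace.single (2 : Fin 3) (1:ℝ) := by
    ext i
    fin_cases i <;> simp [toE]
  rw [e, map_add, map_add, map_smul, map_smul, map_smul]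
  simp only [Aff.ev, smul_eq_mul]
  ring

theorem toE_injective : Function.Injective toE := by
  intro p q h
  have h0 := congrArg (fun v : E3 => v 0) h
  have h1 := congrArg (fun v : E3 => v 1) h
  have h2 := congrArg (fun v : E3 => v 2) h
  simp only [toE_0, toE_1, toE_2] at h0 h1 h2
  cases p; cases q; simp_all

variable {V : Type} {G : SimpleGraph V}

/-- vertices of the surface -/
structure Vtx (G : SimpleGraph V) where
  d : G.Dart
  i : Bool

/-- indices of the faces of the surface -/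
inductive FIdx (G : SimpleGraph V) where
  | flat (u : V) (i : Bool) : FIdx G
  | rect (e : G.Dart) : FIdx G

noncomputable instance : DecidableEq (Vtx G) := Classical.decEq _
noncomputable instance : DecidableEq (FIdx G) := Classical.decEq _

theorem finite_dart [Finite V] : Finite G.Dart := by
  classical
  have := Fintype.ofFinite V
  infer_instance

instance [Finite V] : Finite (Vtx G) := by
  have : Finite G.Dart := finite_dart
  exact Finite.of_injective (fun s : Vtx G => (s.d, s.i)) (by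
    rintro ⟨d, i⟩ ⟨d', i'⟩ h
    simp only [Prod.mk.injEq] at h
    rw [h.1, h.2])

instance [Finite V] : Finite (FIdx G) := by
  have : Finite G.Dart := finite_dart
  exact Finite.of_injective (fun s : FIdx G => match s with
    | .flat u i => (Sum.inl (u, i) : (V × Bool) ⊕ G.Dart)
    | .rect e => Sum.inr e) (by
    rintro (⟨u, i⟩ | e) (⟨u', i'⟩ | e') h <;> simp_all)

noncomputable instance [Finite V] : Fintype (Vtx G) := Fintype.ofFinite _
noncomputable instance [Finite V] : Fintype (FIdx G) := Fintype.ofFinite _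

/-- the vertex `s` belongs to the cell of the plate `u` -/
def inCell (u : V) (s : Vtx G) : Prop := s.d.fst = u ∨ s.d.snd = u

/-- the cell of a face -/
def cellOf : FIdx G → V
  | .flat u _ => u
  | .rect e => e.fst

namespace Closing

variable [Finite V] (D : Closing G)

/-- incidence of vertices and faces -/
def mem (s : Vtx G) : FIdx G → Prop
  | .flat u j => (s.d.fst = u ∨ s.d.snd = u) ∧ s.i = j
  | .rect e => s.d = e.symm ∨ s.d = D.next e

open Classical in
/-- the faces -/
noncomputable def face (a : FIdx G) : Finset (Vtx G) := Finset.univ.filter fun s => D.mem s a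

theorem mem_face {s : Vtx G} {a : FIdx G} : s ∈ D.face a ↔ D.mem s a := by
  simp [face]

theorem mem_inCell {s : Vtx G} {a : FIdx G} (h : D.mem s a) : inCell (cellOf a) s := by
  rcases a with ⟨u, i⟩ | e
  · exact h.1
  · rcases h with h | h
    · right; rw [h]; rfl
    · left; rw [h]; exact D.next_fst e

omit [Finite V] in
/-- position of the vertices -/
noncomputable def pos3 (D : Closing G) (s : Vtx G) : Pt :=
  if s.i then (D.b s.d).move D.w D.θ else D.b s.d

/-- position of the vertices in `E3` -/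
noncomputable def x3 (D : Closing G) (s : Vtx G) : E3 := toE (D.pos3 s)

omit [Finite V] in
theorem ev_pos3 (l : Aff) (s : Vtx G) :
    l.ev (D.pos3 s) = l.ev (D.b s.d) + (if s.i then D.θ * l.lin D.w else 0) := by
  unfold pos3
  split_ifs with h
  · rw [Aff.ev_move]
  · ring

/-- the functional of a rectangle -/
noncomputable def R (e : G.Dart) : Aff :=
  let A := (D.b (D.next e)).sub (D.b e.symm)
  ⟨D.w.z * A.m - D.w.m * A.z, D.w.m * A.x - D.w.x * A.m, D.w.x * A.z - D.w.z * A.x,
    -((D.w.z * A.m - D.w.m * A.z) * (D.b e.symm).x + (D.w.m * A.x - D.w.x * A.m) * (D.b e.symm).z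
      + (D.w.x * A.z - D.w.z * A.x) * (D.b e.symm).m)⟩

theorem R_ev (e : G.Dart) (p : Pt) : (D.R e).ev p =
    det3 ((D.b (D.next e)).sub (D.b e.symm)) (p.sub (D.b e.symm)) D.w := by
  simp only [R, Aff.ev, det3, Pt.sub]; ring

theorem R_lin (e : G.Dart) : (D.R e).lin D.w = 0 := by
  simp only [R, Aff.lin]; ring

theorem R_ev_pos3 (e : G.Dart) (s : Vtx G) : (D.R e).ev (D.pos3 s) = (D.R e).ev (D.b s.d) := by
  rw [ev_pos3, R_lin]; simp

theorem R_zero1 (e : G.Dart) : (D.R e).ev (D.b e.symm) = 0 := by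
  rw [R_ev]; simp only [det3, Pt.sub]; ring

theorem R_zero2 (e : G.Dart) : (D.R e).ev (D.b (D.next e)) = 0 := by
  rw [R_ev]; simp only [det3, Pt.sub]; ring

theorem det3_plane {l : Aff} {p q r w : Pt} (hp : l.ev p = 0) (hq : l.ev q = 0)
    (hr : l.ev r = 0) : l.c * det3 (q.sub p) (r.sub p) w = O p q r * l.lin w := by
  have hA : l.a * (q.x - p.x) + l.b * (q.z - p.z) + l.c * (q.m - p.m) = 0 := by
    simp only [Aff.ev] at hp hq; linarith
  have hR : l.a * (r.x - p.x) + l.b * (r.z - p.z) + l.c * (r.m - p.m) = 0 := by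
    simp only [Aff.ev] at hp hr; linarith
  simp only [det3, Pt.sub, O, Aff.lin]
  linear_combination w.z * (-(q.x - p.x) * hR + (r.x - p.x) * hA) +
    w.x * ((q.z - p.z) * hR - (r.z - p.z) * hA)

theorem R_pos (e k : G.Dart) (hk : k.fst = e.fst ∨ k.snd = e.fst) (h1 : k ≠ e.symm)
    (h2 : k ≠ D.next e) : 0 < (D.R e).ev (D.b k) := by
  rw [R_ev]
  have h3 := D.next_orient e k hk h1 h2
  have h4 := det3_plane (w := D.w) (D.on (u := e.fst) e.symm (Or.inr rfl))
    (D.on (u := e.fst) (D.next e) (Or.inl (D.next_fst e))) (D.on (u := e.fst) k hk)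
  have h5 : 0 < (D.f e.fst).c * det3 ((D.b (D.next e)).sub (D.b e.symm))
      ((D.b k).sub (D.b e.symm)) D.w := by
    rw [h4]; exact mul_pos h3 (D.hw _)
  exact (mul_pos_iff_of_pos_left (D.hc _)).1 h5

omit [Finite V] in
/-- the separating functional of two adjacent plates -/
def K (D : Closing G) (u v : V) : Aff :=
  ⟨(D.f u).lin D.w * (D.f v).a - (D.f v).lin D.w * (D.f u).a,
   (D.f u).lin D.w * (D.f v).b - (D.f v).lin D.w * (D.f u).b,
   (D.f u).lin D.w * (D.f v).c - (D.f v).lin D.w * (D.f u).c,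
   (D.f u).lin D.w * (D.f v).d - (D.f v).lin D.w * (D.f u).d⟩

omit [Finite V] in
theorem K_ev (u v : V) (p : Pt) : (D.K u v).ev p =
    (D.f u).lin D.w * (D.f v).ev p - (D.f v).lin D.w * (D.f u).ev p := by
  simp only [K, Aff.ev]; ring

omit [Finite V] in
theorem K_lin (u v : V) : (D.K u v).lin D.w = 0 := by
  simp only [K, Aff.lin]; ring

omit [Finite V] in
theorem K_ev_pos3 (u v : V) (s : Vtx G) :
    (D.K u v).ev (D.pos3 s) = (D.K u v).ev (D.b s.d) := by
  rw [ev_pos3, K_lin]; simp

omit [Finite V] in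
theorem K_zero (d : G.Dart) : (D.K d.fst d.snd).ev (D.b d) = 0 := by
  rw [K_ev, D.on1, D.on2]; ring

omit [Finite V] in
theorem K_zero' (d : G.Dart) : (D.K d.fst d.snd).ev (D.b d.symm) = 0 := by
  rw [K_ev, D.on (u := d.fst) d.symm (Or.inr rfl), D.on (u := d.snd) d.symm (Or.inl rfl)]; ring

omit [Finite V] in
theorem K_pos (d k : G.Dart) (hk : k.fst = d.fst ∨ k.snd = d.fst) (h1 : k ≠ d)
    (h2 : k ≠ d.symm) : 0 < (D.K d.fst d.snd).ev (D.b k) := by
  rw [K_ev, D.on (u := d.fst) k hk, mul_zero, sub_zero]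
  exact mul_pos (D.hw _) (D.pos d k hk h1 h2)

omit [Finite V] in
theorem K_neg (d k : G.Dart) (hk : k.fst = d.snd ∨ k.snd = d.snd) (h1 : k ≠ d)
    (h2 : k ≠ d.symm) : (D.K d.fst d.snd).ev (D.b k) < 0 := by
  rw [K_ev, D.on (u := d.snd) k hk, mul_zero, zero_sub, neg_lt_zero]
  refine mul_pos (D.hw _) (D.pos d.symm k hk h2 ?_)
  rwa [SimpleGraph.Dart.symm_symm]

/-- the functional of a face -/
noncomputable def L : FIdx G → Aff
  | .flat u false => D.f u
  | .flat u true => ⟨-(D.f u).a, -(D.f u).b, -(D.f u).c, D.θ * (D.f u).lin D.w - (D.f u).d⟩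
  | .rect e => D.R e

theorem L_flat_true (u : V) (p : Pt) :
    (D.L (.flat u true)).ev p = D.θ * (D.f u).lin D.w - (D.f u).ev p := by
  simp only [L, Aff.ev]; ring

theorem L_zero {s : Vtx G} {a : FIdx G} (h : D.mem s a) : (D.L a).ev (D.pos3 s) = 0 := by
  rcases a with ⟨u, i⟩ | e
  · obtain ⟨h1, h2⟩ := h
    have h3 := D.on s.d h1
    cases i
    · show (D.f u).ev (D.pos3 s) = 0
      rw [ev_pos3, h3, h2]; simp
    · rw [L_flat_true, ev_pos3, h3, h2]; simp
  · show (D.R e).ev (D.pos3 s) = 0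
    rw [R_ev_pos3]
    rcases h with h | h
    · rw [h]; exact D.R_zero1 e
    · rw [h]; exact D.R_zero2 e

theorem L_pos {s : Vtx G} {a : FIdx G} (hc : inCell (cellOf a) s) (h : ¬ D.mem s a) :
    0 < (D.L a).ev (D.pos3 s) := by
  rcases a with ⟨u, i⟩ | e
  · have hc' : s.d.fst = u ∨ s.d.snd = u := hc
    have h3 := D.on s.d hc'
    have h4 : s.i ≠ i := fun h5 => h ⟨hc', h5⟩
    have h5 := mul_pos D.hθ (D.hw u)
    cases i
    · show 0 < (D.f u).ev (D.pos3 s)
      have : s.i = true := by simpa using h4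
      rw [ev_pos3, h3, this]; simpa using h5
    · have : s.i = false := by simpa using h4
      rw [L_flat_true, ev_pos3, h3, this]; simpa using h5
  · show 0 < (D.R e).ev (D.pos3 s)
    rw [R_ev_pos3]
    refine D.R_pos e s.d hc (fun h1 => h (Or.inl h1)) (fun h1 => h (Or.inr h1))

omit [Finite V] in
/-- separation of two cells -/
theorem exists_sepCell {u v : V} (huv : u ≠ v) : ∃ l : Aff,
    (∀ s : Vtx G, inCell u s → 0 ≤ l.ev (D.pos3 s) ∧ (l.ev (D.pos3 s) = 0 → inCell v s)) ∧
    (∀ s : Vtx G, inCell v s → l.ev (D.pos3 s) ≤ 0 ∧ (l.ev (D.pos3 s) = 0 → inCell u s)) := by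
  by_cases hadj : G.Adj u v
  · let d : G.Dart := ⟨(u, v), hadj⟩
    have hd1 : d.fst = u := rfl
    have hd2 : d.snd = v := rfl
    refine ⟨D.K u v, fun s hs => ?_, fun s hs => ?_⟩
    · rw [K_ev_pos3]
      by_cases h1 : s.d = d
      · rw [h1]
        exact ⟨(D.K_zero d).ge, fun _ => Or.inr (by rw [h1])⟩
      · by_cases h2 : s.d = d.symm
        · rw [h2]
          exact ⟨(D.K_zero' d).ge, fun _ => Or.inl (by rw [h2]; rfl)⟩
        · have := D.K_pos d s.d hs h1 h2
          exact ⟨this.le, fun h3 => absurd h3 this.ne'⟩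
    · rw [K_ev_pos3]
      by_cases h1 : s.d = d
      · rw [h1]
        exact ⟨(D.K_zero d).le, fun _ => Or.inl (by rw [h1])⟩
      · by_cases h2 : s.d = d.symm
        · rw [h2]
          exact ⟨(D.K_zero' d).le, fun _ => Or.inr (by rw [h2]; rfl)⟩
        · have := D.K_neg d s.d hs h1 h2
          exact ⟨this.le, fun h3 => absurd h3 this.ne⟩
  · obtain ⟨l, h1, h2⟩ := D.sep u v huv hadj
    refine ⟨l, fun s hs => ?_, fun s hs => ?_⟩
    · obtain ⟨h3, h4⟩ := h1 s.d hs
      have h5 : 0 < l.ev (D.pos3 s) := by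
        unfold pos3; split_ifs
        · exact h4
        · exact h3
      exact ⟨h5.le, fun h => absurd h h5.ne'⟩
    · obtain ⟨h3, h4⟩ := h2 s.d hs
      have h5 : l.ev (D.pos3 s) < 0 := by
        unfold pos3; split_ifs
        · exact h4
        · exact h3
      exact ⟨h5.le, fun h => absurd h h5.ne⟩

end Closing

end PolySurf
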