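import Pool.Agent.Helper96.PolySurf.Surf1

/-!
The closed surface: intersections of faces, classification of the edges.
-/

namespace PolySurf

open Filter Topology

/-- A point of the hull where a nonnegative functional vanishes is in the hull of the zeros. -/
theorem mem_hull_zero {V : Type} [DecidableEq V] {x : V → E3} {s t : Finset V} (L : E3 →ₗ[ℝ] ℝ)
    (c : ℝ) (h0 : ∀ i ∈ s, 0 ≤ L (x i) + c) (h1 : ∀ i ∈ s, L (x i) + c = 0 → i ∈ t) {p : E3}
    (hp : p ∈ hull x s) (hpl : L p + c ≤ 0) : p ∈ hull x (s ∩ t) := by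
  have hT : Convex ℝ {p : E3 | 0 ≤ L p + c ∧ (L p + c = 0 → p ∈ hull x (s ∩ t))} := by
    intro p hp q hq a b ha hb hab
    have hc : Convex ℝ (hull x (s ∩ t)) := convex_convexHull ℝ _
    have e : L (a • p + b • q) + c = a * (L p + c) + b * (L q + c) := by
      rw [map_add, map_smul, map_smul, smul_eq_mul, smul_eq_mul]
      linear_combination - c * hab
    have hp0 := mul_nonneg ha hp.1
    have hq0 := mul_nonneg hb hq.1
    refine ⟨by rw [e]; linarith, fun h => ?_⟩
    rw [e] at h
    have h2 : a * (L p + c) = 0 := by linarith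
    have h3 : b * (L q + c) = 0 := by linarith
    rcases mul_eq_zero.1 h2 with ha0 | hp1
    · have hb1 : b = 1 := by linarith
      rw [ha0, hb1, zero_smul, zero_add, one_smul]
      rw [hb1, one_mul] at h3
      exact hq.2 h3
    · rcases mul_eq_zero.1 h3 with hb0 | hq1
      · have ha1 : a = 1 := by linarith
        rw [hb0, ha1, zero_smul, add_zero, one_smul]
        exact hp.2 hp1
      · exact hc (hp.2 hp1) (hq.2 hq1) ha hb hab
  have hsub : hull x s ⊆ {p : E3 | 0 ≤ L p + c ∧ (L p + c = 0 → p ∈ hull x (s ∩ t))} := by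
    refine convexHull_min ?_ hT
    rintro _ ⟨i, hi, rfl⟩
    refine ⟨h0 i hi, fun h => ?_⟩
    exact subset_convexHull ℝ _ ⟨i, by
      have := h1 i hi h
      exact Finset.mem_coe.2 (Finset.mem_inter.2 ⟨hi, this⟩), rfl⟩
  exact (hsub hp).2 (le_antisymm hpl (hsub hp).1)

theorem hull_mono {V : Type} [DecidableEq V] {x : V → E3} {s t : Finset V} (h : s ⊆ t) :
    hull x s ⊆ hull x t :=
  convexHull_mono (Set.image_mono (Finset.coe_subset.2 h))

variable {V : Type} {G : SimpleGraph V}

namespace Closing

variable [Finite V] (D : Closing G)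

omit [Finite V] in
theorem linE_x3 (l : Aff) (s : Vtx G) : l.linE (D.x3 s) + l.d = l.ev (D.pos3 s) := by
  unfold x3; rw [Aff.linE_toE]; ring

omit [Finite V] in
/-- zeros on a hull, version with `Aff` -/
theorem mem_hull_zero' {s t : Finset (Vtx G)} (l : Aff) (h0 : ∀ i ∈ s, 0 ≤ l.ev (D.pos3 i))
    (h1 : ∀ i ∈ s, l.ev (D.pos3 i) = 0 → i ∈ t) {p : E3} (hp : p ∈ hull D.x3 s)
    (hpl : l.linE p + l.d ≤ 0) : p ∈ hull D.x3 (s ∩ t) := by
  refine mem_hull_zero l.linE l.d ?_ ?_ hp hpl
  · intro i hi; rw [linE_x3]; exact h0 i hi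
  · intro i hi; rw [linE_x3]; exact h1 i hi

omit [Finite V] in
/-- value of a functional on a hull -/
theorem hull_nonpos {s : Finset (Vtx G)} (l : Aff) (h0 : ∀ i ∈ s, l.ev (D.pos3 i) ≤ 0) {p : E3}
    (hp : p ∈ hull D.x3 s) : l.linE p + l.d ≤ 0 := by
  have hT : Convex ℝ {p : E3 | l.linE p + l.d ≤ 0} := by
    have : {p : E3 | l.linE p + l.d ≤ 0} = {p : E3 | l.linE p ≤ -l.d} := by
      ext p; simp only [Set.mem_ofPred_eq]; constructor <;> intro h <;> linarith
    rw [this]
    exact convex_halfSpace_le l.linE.isLinear _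
  have hsub : hull D.x3 s ⊆ {p : E3 | l.linE p + l.d ≤ 0} := by
    refine convexHull_min ?_ hT
    rintro _ ⟨i, hi, rfl⟩
    show l.linE (D.x3 i) + l.d ≤ 0
    rw [linE_x3]; exact h0 i hi
  exact hsub hp

theorem hull_inter (a b : FIdx G) :
    hull D.x3 (D.face a) ∩ hull D.x3 (D.face b) = hull D.x3 (D.face a ∩ D.face b) := by
  apply Set.Subset.antisymm
  · rintro p ⟨hpa, hpb⟩
    have hL : (D.L a).linE p + (D.L a).d ≤ 0 :=
      D.hull_nonpos (D.L a) (fun i hi => (D.L_zero (D.mem_face.1 hi)).le) hpa
    by_cases hc : cellOf a = cellOf b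
    · rw [Finset.inter_comm]
      refine D.mem_hull_zero' (D.L a) ?_ ?_ hpb hL
      · intro i hi
        by_cases h : D.mem i a
        · exact (D.L_zero h).ge
        · exact (D.L_pos (by rw [hc]; exact D.mem_inCell (D.mem_face.1 hi)) h).le
      · intro i hi h0
        by_contra h
        have h1 : ¬ D.mem i a := fun h2 => h (D.mem_face.2 h2)
        exact (D.L_pos (by rw [hc]; exact D.mem_inCell (D.mem_face.1 hi)) h1).ne' h0
    · obtain ⟨l, hu, hv⟩ := D.exists_sepCell hc
      have hl : l.linE p + l.d ≤ 0 := D.hull_nonpos l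
        (fun i hi => (hv i (D.mem_inCell (D.mem_face.1 hi))).1) hpb
      have hlneg : l.neg.linE p + l.neg.d ≤ 0 := by
        refine D.hull_nonpos l.neg (fun i hi => ?_) hpa
        rw [Aff.ev_neg]
        linarith [(hu i (D.mem_inCell (D.mem_face.1 hi))).1]
      classical
      -- p is in the hull of the vertices of `b` in the cell of `a`
      have h1 : p ∈ hull D.x3 (D.face b ∩ Finset.univ.filter fun s => inCell (cellOf a) s) := by
        refine D.mem_hull_zero' l.neg ?_ ?_ hpb hlneg
        · intro i hi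
          rw [Aff.ev_neg]
          linarith [(hv i (D.mem_inCell (D.mem_face.1 hi))).1]
        · intro i hi h0
          rw [Aff.ev_neg] at h0
          have := (hv i (D.mem_inCell (D.mem_face.1 hi))).2 (by linarith)
          simpa using this
      have h2 : p ∈ hull D.x3 ((D.face b ∩ Finset.univ.filter fun s => inCell (cellOf a) s) ∩
          D.face a) := by
        refine D.mem_hull_zero' (D.L a) ?_ ?_ h1 hL
        · intro i hi
          have hi' : inCell (cellOf a) i := by simpa using (Finset.mem_inter.1 hi).2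
          by_cases h : D.mem i a
          · exact (D.L_zero h).ge
          · exact (D.L_pos hi' h).le
        · intro i hi h0
          have hi' : inCell (cellOf a) i := by simpa using (Finset.mem_inter.1 hi).2
          by_contra h
          have h1 : ¬ D.mem i a := fun h2 => h (D.mem_face.2 h2)
          exact (D.L_pos hi' h1).ne' h0
      refine hull_mono ?_ h2
      intro i hi
      rw [Finset.mem_inter, Finset.mem_inter] at hi
      exact Finset.mem_inter.2 ⟨hi.2, hi.1.1⟩
  · refine Set.subset_inter (hull_mono Finset.inter_subset_left)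
      (hull_mono Finset.inter_subset_right)

/-! ### Edges -/

omit [Finite V] in
theorem isEdge_iff {f e : Finset (Vtx G)} : IsEdge D.x3 f e ↔ e ⊆ f ∧ e.card = 2 ∧
    ∃ l : Aff, (∀ s ∈ e, l.ev (D.pos3 s) = 0) ∧ ∀ s ∈ f, s ∉ e → 0 < l.ev (D.pos3 s) := by
  constructor
  · rintro ⟨h1, h2, L, c, h3, h4⟩
    refine ⟨h1, h2, ?_⟩
    obtain ⟨l, hl⟩ := exists_aff (-L) c
    refine ⟨l, fun s hs => ?_, fun s hs hse => ?_⟩
    · rw [hl, LinearMap.neg_apply]
      have := h3 s hs
      unfold x3 at this
      linarith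
    · rw [hl, LinearMap.neg_apply]
      have := h4 s hs hse
      unfold x3 at this
      linarith
  · rintro ⟨h1, h2, l, h3, h4⟩
    refine ⟨h1, h2, -l.linE, l.d, fun s hs => ?_, fun s hs hse => ?_⟩
    · rw [LinearMap.neg_apply]
      have := h3 s hs
      rw [← linE_x3] at this
      linarith
    · rw [LinearMap.neg_apply]
      have := h4 s hs hse
      rw [← linE_x3] at this
      linarith

omit [Finite V] in
/-- contact edges -/
noncomputable def eC (_D : Closing G) (d : G.Dart) (i : Bool) : Finset (Vtx G) :=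
  {⟨d, i⟩, ⟨d.symm, i⟩}

/-- other edges of the flat faces -/
noncomputable def eN (d : G.Dart) (i : Bool) : Finset (Vtx G) := {⟨d.symm, i⟩, ⟨D.next d, i⟩}

omit [Finite V] in
/-- vertical edges -/
noncomputable def eV (_D : Closing G) (d : G.Dart) : Finset (Vtx G) := {⟨d, false⟩, ⟨d, true⟩}

theorem next_ne_symm (d : G.Dart) : D.next d ≠ d.symm := by
  intro h
  have h1 := congrArg (fun e : G.Dart => e.fst) h
  rw [D.next_fst] at h1
  exact dart_ne d h1

omit [Finite V] in
theorem eC_card (d : G.Dart) (i : Bool) : (D.eC d i).card = 2 := by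
  unfold eC
  rw [Finset.card_pair]
  intro h
  exact dart_symm_ne d (congrArg Vtx.d h).symm

theorem eN_card (d : G.Dart) (i : Bool) : (D.eN d i).card = 2 := by
  unfold eN
  rw [Finset.card_pair]
  intro h
  exact D.next_ne_symm d (congrArg Vtx.d h).symm

omit [Finite V] in
theorem eV_card (d : G.Dart) : (D.eV d).card = 2 := by
  unfold eV
  rw [Finset.card_pair]
  intro h
  exact Bool.false_ne_true (congrArg Vtx.i h)

theorem edge_eC (d : G.Dart) (i : Bool) (u : V) (hu : u = d.fst ∨ u = d.snd) :
    IsEdge D.x3 (D.face (.flat u i)) (D.eC d i) := by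
  -- reduce to the case u = d.fst
  have key : ∀ d : G.Dart, IsEdge D.x3 (D.face (.flat d.fst i)) (D.eC d i) := by
    intro d
    rw [isEdge_iff]
    refine ⟨?_, D.eC_card d i, D.K d.fst d.snd, ?_, ?_⟩
    · intro s hs
      simp only [eC, Finset.mem_insert, Finset.mem_singleton] at hs
      rw [mem_face]
      rcases hs with rfl | rfl
      · exact ⟨Or.inl rfl, rfl⟩
      · exact ⟨Or.inr rfl, rfl⟩
    · intro s hs
      simp only [eC, Finset.mem_insert, Finset.mem_singleton] at hs
      rw [K_ev_pos3]
      rcases hs with rfl | rfl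
      · exact D.K_zero d
      · exact D.K_zero' d
    · intro s hs hse
      rw [mem_face] at hs
      obtain ⟨h1, h2⟩ := hs
      rw [K_ev_pos3]
      refine D.K_pos d s.d h1 ?_ ?_
      · intro h; apply hse
        obtain ⟨sd, si⟩ := s
        simp only at h h2
        subst h; subst h2
        simp [eC]
      · intro h; apply hse
        obtain ⟨sd, si⟩ := s
        simp only at h h2
        subst h; subst h2
        simp [eC]
  rcases hu with rfl | rfl
  · exact key d
  · have h := key d.symm
    have e : D.eC d.symm i = D.eC d i := by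
      unfold eC; rw [SimpleGraph.Dart.symm_symm, Finset.pair_comm]
    rw [e] at h
    exact h

theorem edge_eN_flat (d : G.Dart) (i : Bool) :
    IsEdge D.x3 (D.face (.flat d.fst i)) (D.eN d i) := by
  rw [isEdge_iff]
  refine ⟨?_, D.eN_card d i, D.R d, ?_, ?_⟩
  · intro s hs
    simp only [eN, Finset.mem_insert, Finset.mem_singleton] at hs
    rw [mem_face]
    rcases hs with rfl | rfl
    · exact ⟨Or.inr rfl, rfl⟩
    · exact ⟨Or.inl (D.next_fst d), rfl⟩
  · intro s hs
    simp only [eN, Finset.mem_insert, Finset.mem_singleton] at hs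
    rw [R_ev_pos3]
    rcases hs with rfl | rfl
    · exact D.R_zero1 d
    · exact D.R_zero2 d
  · intro s hs hse
    rw [mem_face] at hs
    obtain ⟨h1, h2⟩ := hs
    rw [R_ev_pos3]
    refine D.R_pos d s.d h1 ?_ ?_
    · intro h; apply hse
      obtain ⟨sd, si⟩ := s
      simp only at h h2
      subst h; subst h2
      simp [eN]
    · intro h; apply hse
      obtain ⟨sd, si⟩ := s
      simp only at h h2
      subst h; subst h2
      simp [eN]

theorem edge_eN_rect (d : G.Dart) (i : Bool) :
    IsEdge D.x3 (D.face (.rect d)) (D.eN d i) := by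
  rw [isEdge_iff]
  refine ⟨?_, D.eN_card d i, D.L (.flat d.fst i), ?_, ?_⟩
  · intro s hs
    simp only [eN, Finset.mem_insert, Finset.mem_singleton] at hs
    rw [mem_face]
    rcases hs with rfl | rfl
    · exact Or.inl rfl
    · exact Or.inr rfl
  · intro s hs
    apply D.L_zero
    simp only [eN, Finset.mem_insert, Finset.mem_singleton] at hs
    rcases hs with rfl | rfl
    · exact ⟨Or.inr rfl, rfl⟩
    · exact ⟨Or.inl (D.next_fst d), rfl⟩
  · intro s hs hse
    rw [mem_face] at hs
    apply D.L_pos
    · exact (D.mem_inCell (a := .rect d) hs : inCell d.fst s)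
    · rintro ⟨h1, h2⟩
      apply hse
      obtain ⟨sd, si⟩ := s
      simp only at h2
      subst h2
      rcases hs with h | h
      · simp only at h; subst h; simp [eN]
      · simp only at h; subst h; simp [eN]

theorem edge_eV (d : G.Dart) (e : G.Dart) (h : d = e.symm ∨ d = D.next e) :
    IsEdge D.x3 (D.face (.rect e)) (D.eV d) := by
  rw [isEdge_iff]
  -- the functional
  have hd : d.fst = e.fst ∨ d.snd = e.fst := by
    rcases h with h | h
    · right; rw [h]; rfl
    · left; rw [h]; exact D.next_fst e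
  obtain ⟨l, hl0, hlin, hl⟩ : ∃ l : Aff, l.ev (D.b d) = 0 ∧ l.lin D.w = 0 ∧
      ∀ k : G.Dart, (k.fst = e.fst ∨ k.snd = e.fst) → k ≠ d → k ≠ d.symm → 0 < l.ev (D.b k) := by
    rcases hd with hd | hd
    · refine ⟨D.K d.fst d.snd, D.K_zero d, D.K_lin _ _, fun k hk h1 h2 => ?_⟩
      exact D.K_pos d k (by rw [hd]; exact hk) h1 h2
    · refine ⟨D.K d.symm.fst d.symm.snd, ?_, D.K_lin _ _, fun k hk h1 h2 => ?_⟩
      · have := D.K_zero' d.symm
        rwa [SimpleGraph.Dart.symm_symm] at this
      · refine D.K_pos d.symm k ?_ h2 (by rwa [SimpleGraph.Dart.symm_symm])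
        have : d.symm.fst = e.fst := hd
        rw [this]; exact hk
  refine ⟨?_, D.eV_card d, l, ?_, ?_⟩
  · intro s hs
    simp only [eV, Finset.mem_insert, Finset.mem_singleton] at hs
    rw [mem_face]
    rcases hs with rfl | rfl <;> exact h
  · intro s hs
    simp only [eV, Finset.mem_insert, Finset.mem_singleton] at hs
    rw [ev_pos3, hlin]
    rcases hs with rfl | rfl <;> simp [hl0]
  · intro s hs hse
    rw [mem_face] at hs
    rw [ev_pos3, hlin]
    have h1 : s.d ≠ d := by
      intro h2; apply hse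
      obtain ⟨sd, si⟩ := s
      simp only at h2; subst h2
      cases si <;> simp [eV]
    have h2 : s.d ≠ d.symm := by
      -- s.d, d ∈ {e.symm, next e}
      intro h3
      rcases hs with h4 | h4 <;> rcases h with h5 | h5
      · exact h1 (h4.trans h5.symm)
      · -- s.d = e.symm = d.symm, d = next e
        have h6 : e.symm = (D.next e).symm := by rw [← h4, h3, h5]
        have h7 : e.symm.symm = (D.next e).symm.symm := congrArg _ h6
        rw [SimpleGraph.Dart.symm_symm, SimpleGraph.Dart.symm_symm] at h7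
        exact D.next_ne e h7.symm
      · have h6 : D.next e = e := by rw [← h4, h3, h5, SimpleGraph.Dart.symm_symm]
        exact D.next_ne e h6
      · exact h1 (h4.trans h5.symm)
    have := hl s.d (D.mem_inCell (a := .rect e) hs) h1 h2
    simpa using this

end Closing

end PolySurf
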