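import Pool.Agent.Helper96.PolySurf.Surf2

/-!
The closed surface: classification of the edges of all faces.
-/

namespace PolySurf

open Filter Topology

variable {V : Type} {G : SimpleGraph V}

theorem vtx_ext {s t : Vtx G} (h1 : s.d = t.d) (h2 : s.i = t.i) : s = t := by
  cases s; cases t; simp_all

namespace Closing

variable [Finite V] (D : Closing G)

omit [Finite V] in
include D in
theorem exists_third_in_plate {u : V} (ds dt : G.Dart) (hs : ds.fst = u ∨ ds.snd = u) :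
    ∃ k : G.Dart, (k.fst = u ∨ k.snd = u) ∧ k ≠ ds ∧ k ≠ dt := by
  -- d0 = ds or ds.symm with first end u
  obtain ⟨d0, h0, h1⟩ : ∃ d0 : G.Dart, d0.fst = u ∧ (ds = d0 ∨ ds = d0.symm) := by
    rcases hs with h | h
    · exact ⟨ds, h, Or.inl rfl⟩
    · exact ⟨ds.symm, h, Or.inr (SimpleGraph.Dart.symm_symm ds).symm⟩
  obtain ⟨d1, h2, h3, h4⟩ := D.third d0
  have m0 : d0.fst = u ∨ d0.snd = u := Or.inl h0
  have m0' : d0.symm.fst = u ∨ d0.symm.snd = u := Or.inr h0
  have m1 : d1.fst = u ∨ d1.snd = u := Or.inl (h2.trans h0)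
  have hne := dart_symm_ne d0
  rcases h1 with h1 | h1
  · subst h1
    by_cases h5 : dt = d1
    · exact ⟨ds.symm, m0', hne, by rw [h5]; exact h4.symm⟩
    · exact ⟨d1, m1, h3, Ne.symm h5⟩
  · subst h1
    by_cases h5 : dt = d1
    · exact ⟨d0, m0, hne.symm, by rw [h5]; exact h3.symm⟩
    · exact ⟨d1, m1, h4, Ne.symm h5⟩

theorem proj_ne' {u : V} {d d' : G.Dart} (h : d.fst = u ∨ d.snd = u)
    (h' : d'.fst = u ∨ d'.snd = u) (hne : d ≠ d') :
    0 < ((D.b d').x - (D.b d).x) ^ 2 + ((D.b d').z - (D.b d).z) ^ 2 := by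
  obtain ⟨α, β, γ, h0, h1⟩ := D.convPos u ⟨d, h⟩
  have h2 := h1 ⟨d', h'⟩ (fun h => hne (congrArg Subtype.val h).symm)
  simp only [P] at h0 h2
  by_contra hcon
  have h4 : ((D.b d').x - (D.b d).x) ^ 2 + ((D.b d').z - (D.b d).z) ^ 2 = 0 :=
    le_antisymm (not_lt.1 hcon) (by positivity)
  have h5 : (D.b d').x - (D.b d).x = 0 := by
    exact pow_eq_zero_iff (two_ne_zero) |>.1 (by
      nlinarith [sq_nonneg ((D.b d').x - (D.b d).x), sq_nonneg ((D.b d').z - (D.b d).z)])
  have h6 : (D.b d').z - (D.b d).z = 0 := by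
    exact pow_eq_zero_iff (two_ne_zero) |>.1 (by
      nlinarith [sq_nonneg ((D.b d').x - (D.b d).x), sq_nonneg ((D.b d').z - (D.b d).z)])
  have h7 : (D.b d').x = (D.b d).x := by linarith
  have h8 : (D.b d').z = (D.b d).z := by linarith
  rw [h7, h8] at h2
  linarith

/-- a directed edge of a plate is a contact edge or a next edge -/
theorem dedge_class {u : V} (i : Bool) {s t : Vtx G} (hs : s.d.fst = u ∨ s.d.snd = u)
    (ht : t.d.fst = u ∨ t.d.snd = u) (hsi : s.i = i) (hti : t.i = i)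
    (h : DEdge (D.P u) ⟨s.d, hs⟩ ⟨t.d, ht⟩) :
    (∃ d : G.Dart, d.fst = u ∧ ({s, t} : Finset (Vtx G)) = D.eC d i) ∨
    (∃ d : G.Dart, d.fst = u ∧ ({s, t} : Finset (Vtx G)) = D.eN d i) := by
  rcases hs with h1 | h1
  · left
    subst h1
    refine ⟨s.d, rfl, ?_⟩
    have h2 := h.out_unique (D.dedge_contact s.d)
    have h3 : t.d = s.d.symm := congrArg Subtype.val h2
    have e1 : s = ⟨s.d, i⟩ := vtx_ext rfl hsi
    have e2 : t = ⟨s.d.symm, i⟩ := vtx_ext h3 hti
    exact congrArg₂ (fun a b => ({a, b} : Finset (Vtx G))) e1 e2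
  · right
    subst h1
    refine ⟨s.d.symm, rfl, ?_⟩
    have h2 := D.next_edge s.d.symm
    have h4 : DEdge (D.P s.d.snd) ⟨s.d, Or.inr rfl⟩
        ⟨D.next s.d.symm, Or.inl (D.next_fst s.d.symm)⟩ := by
      have e : (⟨s.d, Or.inr rfl⟩ : D.I s.d.snd) = ⟨s.d.symm.symm, Or.inr rfl⟩ :=
        Subtype.ext (SimpleGraph.Dart.symm_symm _).symm
      rw [e]; exact h2
    have h3 : t.d = D.next s.d.symm := congrArg Subtype.val (h.out_unique h4)
    have e1 : s = ⟨s.d.symm.symm, i⟩ := vtx_ext (SimpleGraph.Dart.symm_symm _).symm hsi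
    have e2 : t = ⟨D.next s.d.symm, i⟩ := vtx_ext h3 hti
    exact congrArg₂ (fun a b => ({a, b} : Finset (Vtx G))) e1 e2

theorem edge_flat_class {u : V} {i : Bool} {e : Finset (Vtx G)}
    (h : IsEdge D.x3 (D.face (.flat u i)) e) :
    (∃ d : G.Dart, d.fst = u ∧ e = D.eC d i) ∨ (∃ d : G.Dart, d.fst = u ∧ e = D.eN d i) := by
  rw [isEdge_iff] at h
  obtain ⟨h1, h2, l, h3, h4⟩ := h
  obtain ⟨s, t, hst, rfl⟩ := Finset.card_eq_two.1 h2
  have hs := D.mem_face.1 (h1 (by simp : s ∈ ({s, t} : Finset (Vtx G))))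
  have ht := D.mem_face.1 (h1 (by simp : t ∈ ({s, t} : Finset (Vtx G))))
  obtain ⟨hs1, hs2⟩ := hs
  obtain ⟨ht1, ht2⟩ := ht
  have hdne : s.d ≠ t.d := fun h => hst (vtx_ext h (hs2.trans ht2.symm))
  have z1 := h3 s (by simp)
  have z2 := h3 t (by simp)
  -- positivity on third points
  have pos : ∀ k : G.Dart, (k.fst = u ∨ k.snd = u) → k ≠ s.d → k ≠ t.d →
      0 < l.ev (D.pos3 ⟨k, i⟩) := by
    intro k hk h5 h6
    refine h4 ⟨k, i⟩ (D.mem_face.2 ⟨hk, rfl⟩) ?_
    simp only [Finset.mem_insert, Finset.mem_singleton]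
    rintro (h | h)
    · exact h5 (congrArg Vtx.d h)
    · exact h6 (congrArg Vtx.d h)
  have es : s = ⟨s.d, i⟩ := vtx_ext rfl hs2
  have et : t = ⟨t.d, i⟩ := vtx_ext rfl ht2
  rw [es, ev_pos3] at z1
  rw [et, ev_pos3] at z2
  simp only at z1 z2
  set c0 : ℝ := if i = true then D.θ * l.lin D.w else 0 with hc0
  -- the identity
  have key : ∀ k : G.Dart, (k.fst = u ∨ k.snd = u) →
      (((D.b t.d).x - (D.b s.d).x) ^ 2 + ((D.b t.d).z - (D.b s.d).z) ^ 2) * ((D.f u).c *
        l.ev (D.pos3 ⟨k, i⟩)) =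
      (((D.f u).c * l.b - l.c * (D.f u).b) * ((D.b t.d).x - (D.b s.d).x) -
       ((D.f u).c * l.a - l.c * (D.f u).a) * ((D.b t.d).z - (D.b s.d).z)) *
        O (D.b s.d) (D.b t.d) (D.b k) := by
    intro k hk
    rw [ev_pos3]
    simp only
    rw [← hc0]
    have f1 := D.flat l (D.on s.d hs1)
    have f2 := D.flat l (D.on t.d ht1)
    have f3 := D.flat l (D.on k hk)
    have g1 : l.ev (D.b s.d) = - c0 := by linarith
    have g2 : l.ev (D.b t.d) = - c0 := by linarith
    rw [g1] at f1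
    rw [g2] at f2
    rw [mul_add, ← f3]
    simp only [O]
    set X := (D.b t.d).x - (D.b s.d).x with hX
    set Z := (D.b t.d).z - (D.b s.d).z with hZ
    have hrel : ((D.f u).c * l.a - l.c * (D.f u).a) * X +
        ((D.f u).c * l.b - l.c * (D.f u).b) * Z = 0 := by
      rw [hX, hZ]; linarith
    linear_combination (X ^ 2 + Z ^ 2) * f1 + hrel * (X * ((D.b k).x - (D.b s.d).x) +
      Z * ((D.b k).z - (D.b s.d).z))
  set ρ : ℝ := (((D.f u).c * l.b - l.c * (D.f u).b) * ((D.b t.d).x - (D.b s.d).x) -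
       ((D.f u).c * l.a - l.c * (D.f u).a) * ((D.b t.d).z - (D.b s.d).z)) with hρ
  have hΔ := D.proj_ne' hs1 ht1 hdne
  have hsign : ∀ k : G.Dart, (k.fst = u ∨ k.snd = u) → k ≠ s.d → k ≠ t.d →
      0 < ρ * O (D.b s.d) (D.b t.d) (D.b k) := by
    intro k hk h5 h6
    rw [← key k hk]
    exact mul_pos hΔ (mul_pos (D.hc u) (pos k hk h5 h6))
  rcases lt_trichotomy ρ 0 with hneg | hzero | hpos
  · -- t → s
    have h7 : DEdge (D.P u) ⟨t.d, ht1⟩ ⟨s.d, hs1⟩ := by
      refine ⟨fun h => hdne (congrArg Subtype.val h), ?_⟩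
      rintro ⟨k, hk⟩ h8 h9
      have h10 := hsign k hk (fun h => h9 (Subtype.ext h)) (fun h => h8 (Subtype.ext h))
      show 0 < O (D.b t.d) (D.b s.d) (D.b k)
      rw [O_swap12]
      by_contra hcon
      have : 0 ≤ O (D.b s.d) (D.b t.d) (D.b k) := by linarith
      have := mul_nonpos_of_nonpos_of_nonneg hneg.le this
      linarith
    rw [Finset.pair_comm]
    exact D.dedge_class i ht1 hs1 ht2 hs2 h7
  · obtain ⟨k, hk, h5, h6⟩ := D.exists_third_in_plate s.d t.d hs1
    have := hsign k hk h5 h6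
    rw [hzero, zero_mul] at this
    exact absurd this (lt_irrefl _)
  · have h7 : DEdge (D.P u) ⟨s.d, hs1⟩ ⟨t.d, ht1⟩ := by
      refine ⟨fun h => hdne (congrArg Subtype.val h).symm, ?_⟩
      rintro ⟨k, hk⟩ h8 h9
      have h10 := hsign k hk (fun h => h8 (Subtype.ext h)) (fun h => h9 (Subtype.ext h))
      exact (mul_pos_iff_of_pos_left hpos).1 h10
    exact D.dedge_class i hs1 ht1 hs2 ht2 h7

theorem edge_rect_class {e0 : G.Dart} {e : Finset (Vtx G)}
    (h : IsEdge D.x3 (D.face (.rect e0)) e) :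
    (∃ i, e = D.eN e0 i) ∨ e = D.eV e0.symm ∨ e = D.eV (D.next e0) := by
  rw [isEdge_iff] at h
  obtain ⟨h1, h2, l, h3, h4⟩ := h
  obtain ⟨s, t, hst, rfl⟩ := Finset.card_eq_two.1 h2
  have hs : s.d = e0.symm ∨ s.d = D.next e0 :=
    D.mem_face.1 (h1 (by simp : s ∈ ({s, t} : Finset (Vtx G))))
  have ht : t.d = e0.symm ∨ t.d = D.next e0 :=
    D.mem_face.1 (h1 (by simp : t ∈ ({s, t} : Finset (Vtx G))))
  have hvert : ∀ d : G.Dart, s.d = d → t.d = d → ({s, t} : Finset (Vtx G)) = D.eV d := by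
    intro d h5 h6
    have hi : s.i ≠ t.i := fun h => hst (vtx_ext (h5.trans h6.symm) h)
    obtain ⟨sd, si⟩ := s
    obtain ⟨td, ti⟩ := t
    simp only at h5 h6 hi
    subst h5; subst h6
    unfold eV
    cases si <;> cases ti <;> simp_all [Finset.pair_comm]
  -- diagonals are impossible
  have hdiag : ∀ d d' : G.Dart, d ≠ d' → (d = e0.symm ∨ d = D.next e0) →
      (d' = e0.symm ∨ d' = D.next e0) → s.d = d → t.d = d' → s.i = t.i := by
    intro d d' hdd hd hd' h5 h6
    by_contra hi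
    have z1 := h3 s (by simp)
    have z2 := h3 t (by simp)
    have p1 := h4 ⟨d, t.i⟩ (D.mem_face.2 hd) (by
      simp only [Finset.mem_insert, Finset.mem_singleton]
      rintro (h | h)
      · exact hi (congrArg Vtx.i h).symm
      · exact hdd ((congrArg Vtx.d h).trans h6))
    have p2 := h4 ⟨d', s.i⟩ (D.mem_face.2 hd') (by
      simp only [Finset.mem_insert, Finset.mem_singleton]
      rintro (h | h)
      · exact hdd ((congrArg Vtx.d h).trans h5).symm
      · have h7 := congrArg (fun r : Vtx G => r.i) h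
        exact hi h7)
    rw [ev_pos3] at z1 z2 p1 p2
    rw [h5] at z1
    rw [h6] at z2
    simp only at p1 p2
    linarith
  have hne := D.next_ne_symm e0
  rcases hs with h5 | h5 <;> rcases ht with h6 | h6
  · exact Or.inr (Or.inl (hvert _ h5 h6))
  · left
    have hi := hdiag _ _ hne.symm (Or.inl rfl) (Or.inr rfl) h5 h6
    refine ⟨s.i, ?_⟩
    unfold eN
    have e1 : s = ⟨e0.symm, s.i⟩ := vtx_ext h5 rfl
    have e2 : t = ⟨D.next e0, s.i⟩ := vtx_ext h6 hi.symm
    exact congrArg₂ (fun a b => ({a, b} : Finset (Vtx G))) e1 e2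
  · left
    have hi := hdiag _ _ hne (Or.inr rfl) (Or.inl rfl) h5 h6
    refine ⟨s.i, ?_⟩
    unfold eN
    have e1 : s = ⟨D.next e0, s.i⟩ := vtx_ext h5 rfl
    have e2 : t = ⟨e0.symm, s.i⟩ := vtx_ext h6 hi.symm
    rw [Finset.pair_comm]
    exact congrArg₂ (fun a b => ({a, b} : Finset (Vtx G))) e2 e1
  · exact Or.inr (Or.inr (hvert _ h5 h6))

/-! ### Faces containing a given edge -/

theorem faces_eC {d : G.Dart} {i : Bool} {b : FIdx G} (h : D.eC d i ⊆ D.face b) :
    b = .flat d.fst i ∨ b = .flat d.snd i := by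
  have h1 := D.mem_face.1 (h (by simp [eC] : (⟨d, i⟩ : Vtx G) ∈ D.eC d i))
  have h2 := D.mem_face.1 (h (by simp [eC] : (⟨d.symm, i⟩ : Vtx G) ∈ D.eC d i))
  rcases b with ⟨u, j⟩ | e
  · obtain ⟨h3, h4⟩ := h1
    simp only at h3 h4
    subst h4
    rcases h3 with h3 | h3
    · left; rw [h3]
    · right; rw [h3]
  · exfalso
    rcases h1 with h3 | h3 <;> rcases h2 with h4 | h4 <;> simp only at h3 h4
    · exact dart_symm_ne d (h4.trans h3.symm)
    · have h5 : d.symm = e := by rw [h3, SimpleGraph.Dart.symm_symm]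
      exact D.next_ne e (h4.symm.trans h5)
    · have h5 : d = e := by
        rw [← SimpleGraph.Dart.symm_symm d, h4, SimpleGraph.Dart.symm_symm]
      exact D.next_ne e (h3.symm.trans h5)
    · exact dart_symm_ne d (h4.trans h3.symm)

omit [Finite V] in
theorem symm_inj' {d e : G.Dart} (h : d.symm = e.symm) : d = e := by
  rw [← SimpleGraph.Dart.symm_symm d, h, SimpleGraph.Dart.symm_symm]

theorem faces_eN {d : G.Dart} {i : Bool} {b : FIdx G} (h : D.eN d i ⊆ D.face b) :
    b = .flat d.fst i ∨ b = .rect d := by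
  have h1 := D.mem_face.1 (h (by simp [eN] : (⟨d.symm, i⟩ : Vtx G) ∈ D.eN d i))
  have h2 := D.mem_face.1 (h (by simp [eN] : (⟨D.next d, i⟩ : Vtx G) ∈ D.eN d i))
  rcases b with ⟨u, j⟩ | e
  · left
    obtain ⟨h3, h4⟩ := h1
    obtain ⟨h5, -⟩ := h2
    simp only at h3 h4 h5
    subst h4
    rcases h3 with h3 | h3
    · -- d.snd = u
      have h3' : d.snd = u := h3
      rcases h5 with h5 | h5
      · exfalso
        rw [D.next_fst] at h5
        exact dart_ne d (h5.trans h3'.symm)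
      · exfalso
        exact D.next_ne d (dart_ext (D.next_fst d) (h5.trans h3'.symm))
    · have h3' : d.fst = u := h3
      rw [h3']
  · right
    congr 1
    rcases h1 with h3 | h3 <;> rcases h2 with h4 | h4 <;> simp only at h3 h4
    · exact (symm_inj' h3).symm
    · exact (symm_inj' h3).symm
    · exfalso
      -- d.symm = next e, next d = e.symm
      have h5 : e.fst = d.snd := by
        have := congrArg (fun e : G.Dart => e.fst) h3
        rw [D.next_fst] at this
        exact this.symm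
      have h6 : e.snd = d.fst := by
        have := congrArg (fun e : G.Dart => e.fst) h4
        rw [D.next_fst] at this
        exact this.symm
      have h7 : e = d.symm := dart_ext h5 h6
      exact D.next_ne e (h3.symm.trans h7.symm)
    · exact (D.next_inj h4).symm

theorem faces_eV {d : G.Dart} {b : FIdx G} (h : D.eV d ⊆ D.face b) :
    ∃ e, b = .rect e ∧ (d = e.symm ∨ d = D.next e) := by
  have h1 := D.mem_face.1 (h (by simp [eV] : (⟨d, false⟩ : Vtx G) ∈ D.eV d))
  have h2 := D.mem_face.1 (h (by simp [eV] : (⟨d, true⟩ : Vtx G) ∈ D.eV d))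
  rcases b with ⟨u, j⟩ | e
  · exfalso
    have h3 : false = j := h1.2
    have h4 : true = j := h2.2
    rw [← h3] at h4
    exact Bool.false_ne_true h4.symm
  · exact ⟨e, rfl, h1⟩

/-- the previous dart -/
noncomputable def prev (d : G.Dart) : G.Dart := (D.exists_prev d).choose

theorem next_prev (d : G.Dart) : D.next (D.prev d) = d := (D.exists_prev d).choose_spec

theorem prev_fst (d : G.Dart) : (D.prev d).fst = d.fst := by
  rw [← D.next_fst (D.prev d), next_prev]

theorem prev_ne (d : G.Dart) : D.prev d ≠ d := by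
  intro h
  have := D.next_prev d
  rw [h] at this
  exact D.next_ne d this

/-- The two faces at an edge. -/
theorem two_faces {a : FIdx G} {e : Finset (Vtx G)} (h : IsEdge D.x3 (D.face a) e) :
    (∃ (d : G.Dart) (i : Bool), e = D.eC d i ∧ a = .flat d.fst i) ∨
    (∃ (d : G.Dart) (i : Bool), e = D.eN d i ∧ (a = .flat d.fst i ∨ a = .rect d)) ∨
    (∃ d : G.Dart, e = D.eV d ∧ (a = .rect d.symm ∨ a = .rect (D.prev d))) := by
  rcases a with ⟨u, i⟩ | e0
  · rcases D.edge_flat_class h with ⟨d, h1, h2⟩ | ⟨d, h1, h2⟩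
    · exact Or.inl ⟨d, i, h2, by rw [h1]⟩
    · exact Or.inr (Or.inl ⟨d, i, h2, Or.inl (by rw [h1])⟩)
  · rcases D.edge_rect_class h with ⟨i, h1⟩ | h1 | h1
    · exact Or.inr (Or.inl ⟨e0, i, h1, Or.inr rfl⟩)
    · exact Or.inr (Or.inr ⟨e0.symm, h1, Or.inl (by rw [SimpleGraph.Dart.symm_symm])⟩)
    · refine Or.inr (Or.inr ⟨D.next e0, h1, Or.inr ?_⟩)
      congr 1
      exact (D.next_inj (D.next_prev _)).symm

theorem edge_eV1 (d : G.Dart) : IsEdge D.x3 (D.face (.rect d.symm)) (D.eV d) :=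
  D.edge_eV d d.symm (Or.inl (SimpleGraph.Dart.symm_symm d).symm)

theorem edge_eV2 (d : G.Dart) : IsEdge D.x3 (D.face (.rect (D.prev d))) (D.eV d) :=
  D.edge_eV d (D.prev d) (Or.inr (D.next_prev d).symm)

theorem faces_eV' {d : G.Dart} {b : FIdx G} (h : D.eV d ⊆ D.face b) :
    b = .rect d.symm ∨ b = .rect (D.prev d) := by
  obtain ⟨e, rfl, h1 | h1⟩ := D.faces_eV h
  · left; rw [h1, SimpleGraph.Dart.symm_symm]
  · right
    congr 1
    exact (D.next_inj ((D.next_prev d).trans h1)).symm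

end Closing

end PolySurf
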