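import Pool.Agent.Helper96.PolySurf.Surf3

/-!
The closed surface: combinatorial axioms.
-/

namespace PolySurf

open Filter Topology

variable {V : Type} {G : SimpleGraph V}

theorem rtg_symm {α : Type} {r : α → α → Prop} (hr : ∀ a b, r a b → r b a) {a b : α}
    (h : Relation.ReflTransGen r a b) : Relation.ReflTransGen r b a := by
  induction h with
  | refl => exact Relation.ReflTransGen.refl
  | tail _ h2 ih => exact Relation.ReflTransGen.head (hr _ _ h2) ih

theorem rtg_lift {α β : Type} {r : α → α → Prop} {p : β → β → Prop} (f : α → β)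
    (hr : ∀ a b, r a b → p (f a) (f b)) {a b : α}
    (h : Relation.ReflTransGen r a b) : Relation.ReflTransGen p (f a) (f b) := by
  induction h with
  | refl => exact Relation.ReflTransGen.refl
  | tail _ h2 ih => exact ih.tail (hr _ _ h2)

namespace Closing

variable [Finite V] (D : Closing G)

/-- different faces have different vertex sets -/
theorem face_injective (hdart : ∀ u : V, ∃ d : G.Dart, d.fst = u) :
    Function.Injective D.face := by
  intro a b hab
  rcases a with ⟨u, i⟩ | e
  · obtain ⟨d, rfl⟩ := hdart u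
    have h1 := (D.edge_eC d i d.fst (Or.inl rfl)).1
    rw [hab] at h1
    rcases D.faces_eC h1 with h2 | h2
    · exact h2.symm
    · exfalso
      subst h2
      obtain ⟨d', h3, h4, h5⟩ := D.third d
      have h6 : (⟨d', i⟩ : Vtx G) ∈ D.face (.flat d.fst i) := D.mem_face.2 ⟨Or.inl h3, rfl⟩
      rw [hab] at h6
      obtain ⟨h7, -⟩ := D.mem_face.1 h6
      rcases h7 with h7 | h7
      · exact dart_ne d (h3.symm.trans h7)
      · exact h4 (dart_ext h3 h7)
  · have h1 := (D.edge_eN_rect e false).1
    have h2 := (D.edge_eN_rect e true).1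
    rw [hab] at h1 h2
    rcases D.faces_eN h1 with h3 | h3
    · exfalso
      rcases D.faces_eN h2 with h4 | h4
      · rw [h3] at h4
        simp at h4
      · rw [h3] at h4
        simp at h4
    · exact h3.symm

omit [Finite V] in
theorem empty_or_singleton {s : Finset (Vtx G)} (h : ∀ a ∈ s, ∀ b ∈ s, a = b) :
    s = ∅ ∨ ∃ i, s = {i} := by
  rcases s.eq_empty_or_nonempty with h1 | ⟨a, ha⟩
  · exact Or.inl h1
  · exact Or.inr ⟨a, Finset.eq_singleton_iff_unique_mem.2 ⟨ha, fun b hb => h b hb a ha⟩⟩

/-- intersections of faces -/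
theorem inter_cases {a b : FIdx G} (hab : a ≠ b) :
    D.face a ∩ D.face b = ∅ ∨ (∃ i, D.face a ∩ D.face b = {i}) ∨
      (IsEdge D.x3 (D.face a) (D.face a ∩ D.face b) ∧
        IsEdge D.x3 (D.face b) (D.face a ∩ D.face b)) := by
  have key : ∀ (u : V) (i : Bool) (e : G.Dart),
      D.face (.flat u i) ∩ D.face (.rect e) = ∅ ∨
      (∃ s, D.face (.flat u i) ∩ D.face (.rect e) = {s}) ∨
      (IsEdge D.x3 (D.face (.flat u i)) (D.face (.flat u i) ∩ D.face (.rect e)) ∧
        IsEdge D.x3 (D.face (.rect e)) (D.face (.flat u i) ∩ D.face (.rect e))) := by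
    intro u i e
    by_cases hu : e.fst = u
    · right; right
      subst hu
      have h : D.face (.flat e.fst i) ∩ D.face (.rect e) = D.eN e i := by
        ext s
        rw [Finset.mem_inter, mem_face, mem_face]
        simp only [eN, Finset.mem_insert, Finset.mem_singleton]
        constructor
        · rintro ⟨⟨-, h1⟩, h2 | h2⟩
          · exact Or.inl (vtx_ext h2 h1)
          · exact Or.inr (vtx_ext h2 h1)
        · rintro (rfl | rfl)
          · exact ⟨⟨Or.inr rfl, rfl⟩, Or.inl rfl⟩
          · exact ⟨⟨Or.inl (D.next_fst e), rfl⟩, Or.inr rfl⟩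
      rw [h]
      exact ⟨D.edge_eN_flat e i, D.edge_eN_rect e i⟩
    · have h : ∀ s ∈ D.face (.flat u i) ∩ D.face (.rect e),
          ∀ t ∈ D.face (.flat u i) ∩ D.face (.rect e), s = t := by
        have h0 : ∀ s ∈ D.face (.flat u i) ∩ D.face (.rect e), s.i = i ∧
            ((s.d = e.symm ∧ e.snd = u) ∨ (s.d = D.next e ∧ (D.next e).snd = u)) := by
          intro s hs
          rw [Finset.mem_inter, mem_face, mem_face] at hs
          obtain ⟨⟨h1, h2⟩, h3⟩ := hs
          refine ⟨h2, ?_⟩
          rcases h3 with h3 | h3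
          · left
            refine ⟨h3, ?_⟩
            rw [h3] at h1
            rcases h1 with h1 | h1
            · exact h1
            · exact absurd h1 hu
          · right
            refine ⟨h3, ?_⟩
            rw [h3] at h1
            rcases h1 with h1 | h1
            · rw [D.next_fst] at h1; exact absurd h1 hu
            · exact h1
        intro s hs t ht
        obtain ⟨h1, h2⟩ := h0 s hs
        obtain ⟨h3, h4⟩ := h0 t ht
        rcases h2 with ⟨h2, h5⟩ | ⟨h2, h5⟩ <;> rcases h4 with ⟨h4, h6⟩ | ⟨h4, h6⟩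
        · exact vtx_ext (h2.trans h4.symm) (h1.trans h3.symm)
        · exact absurd (dart_ext (D.next_fst e) (h6.trans h5.symm)) (D.next_ne e)
        · exact absurd (dart_ext (D.next_fst e) (h5.trans h6.symm)) (D.next_ne e)
        · exact vtx_ext (h2.trans h4.symm) (h1.trans h3.symm)
      rcases empty_or_singleton h with h1 | h1
      · exact Or.inl h1
      · exact Or.inr (Or.inl h1)
  rcases a with ⟨u, i⟩ | e <;> rcases b with ⟨v, j⟩ | e'
  · by_cases hij : i = j
    · subst hij
      have huv : u ≠ v := fun h => hab (by rw [h])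
      by_cases hadj : G.Adj u v
      · right; right
        let d : G.Dart := ⟨(u, v), hadj⟩
        have h : D.face (.flat u i) ∩ D.face (.flat v i) = D.eC d i := by
          ext s
          rw [Finset.mem_inter, mem_face, mem_face]
          simp only [eC, Finset.mem_insert, Finset.mem_singleton]
          constructor
          · rintro ⟨⟨h1, h2⟩, h3, -⟩
            rcases h1 with h1 | h1 <;> rcases h3 with h3 | h3
            · exact absurd (h1.symm.trans h3) huv
            · exact Or.inl (vtx_ext (dart_ext h1 h3) h2)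
            · exact Or.inr (vtx_ext (dart_ext h3 h1) h2)
            · exact absurd (h1.symm.trans h3) huv
          · rintro (rfl | rfl)
            · exact ⟨⟨Or.inl rfl, rfl⟩, Or.inr rfl, rfl⟩
            · exact ⟨⟨Or.inr rfl, rfl⟩, Or.inl rfl, rfl⟩
        rw [h]
        exact ⟨D.edge_eC d i u (Or.inl rfl), D.edge_eC d i v (Or.inr rfl)⟩
      · left
        rw [Finset.eq_empty_iff_forall_notMem]
        intro s hs
        rw [Finset.mem_inter, mem_face, mem_face] at hs
        obtain ⟨⟨h1, h2⟩, h3, -⟩ := hs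
        rcases h1 with h1 | h1 <;> rcases h3 with h3 | h3
        · exact absurd (h1.symm.trans h3) huv
        · exact hadj (by rw [← h1, ← h3]; exact s.d.adj)
        · exact hadj (by rw [← h1, ← h3]; exact s.d.adj.symm)
        · exact absurd (h1.symm.trans h3) huv
    · left
      rw [Finset.eq_empty_iff_forall_notMem]
      intro s hs
      rw [Finset.mem_inter, mem_face, mem_face] at hs
      exact hij (hs.1.2.symm.trans hs.2.2)
  · exact key u i e'
  · rw [Finset.inter_comm]
    rcases key v j e with h | h | h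
    · exact Or.inl h
    · exact Or.inr (Or.inl h)
    · exact Or.inr (Or.inr ⟨h.2, h.1⟩)
  · have hee : e ≠ e' := fun h => hab (by rw [h])
    have key2 : ∀ e e' : G.Dart, e.symm = D.next e' →
        D.face (.rect e) ∩ D.face (.rect e') = D.eV e.symm := by
      intro e e' h
      have hne : D.next e ≠ e'.symm := by
        intro h1
        have h2 := congrArg (fun e : G.Dart => e.fst) h
        have h3 := congrArg (fun e : G.Dart => e.fst) h1
        rw [D.next_fst] at h2 h3
        have h4 : e' = e.symm := dart_ext h2.symm h3.symm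
        exact D.next_ne e' (h.symm.trans h4.symm)
      have hne2 : e ≠ e' := by
        intro h1; rw [← h1] at h
        exact D.next_ne_symm e h.symm
      ext s
      rw [Finset.mem_inter, mem_face, mem_face]
      simp only [eV, Finset.mem_insert, Finset.mem_singleton]
      constructor
      · rintro ⟨h1, h2⟩
        have h3 : s.d = e.symm := by
          rcases h1 with h1 | h1
          · exact h1
          · rcases h2 with h2 | h2
            · exact absurd (h1.symm.trans h2) hne
            · exact absurd (D.next_inj (h1.symm.trans h2)) hne2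
        cases hi : s.i
        · exact Or.inl (vtx_ext h3 hi)
        · exact Or.inr (vtx_ext h3 hi)
      · rintro (rfl | rfl)
        · exact ⟨Or.inl rfl, Or.inr h⟩
        · exact ⟨Or.inl rfl, Or.inr h⟩
    by_cases h1 : e.symm = D.next e'
    · right; right
      rw [key2 e e' h1]
      exact ⟨D.edge_eV e.symm e (Or.inl rfl), D.edge_eV e.symm e' (Or.inr h1)⟩
    · by_cases h2 : e'.symm = D.next e
      · right; right
        rw [Finset.inter_comm, key2 e' e h2]
        exact ⟨D.edge_eV e'.symm e (Or.inr h2), D.edge_eV e'.symm e' (Or.inl rfl)⟩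
      · left
        rw [Finset.eq_empty_iff_forall_notMem]
        intro s hs
        rw [Finset.mem_inter, mem_face, mem_face] at hs
        obtain ⟨h3, h4⟩ := hs
        rcases h3 with h3 | h3 <;> rcases h4 with h4 | h4
        · exact hee (symm_inj' (h3.symm.trans h4))
        · exact h1 (h3.symm.trans h4)
        · exact h2 (h4.symm.trans h3)
        · exact hee (D.next_inj (h3.symm.trans h4))

/-- the common edge is the intersection -/
theorem inter_eq {a b : FIdx G} {e : Finset (Vtx G)} (hab : a ≠ b)
    (h1 : IsEdge D.x3 (D.face a) e) (h2 : IsEdge D.x3 (D.face b) e) :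
    D.face a ∩ D.face b = e := by
  have hsub : e ⊆ D.face a ∩ D.face b := Finset.subset_inter h1.1 h2.1
  have hcard : (D.face a ∩ D.face b).card ≤ 2 := by
    rcases D.inter_cases hab with h | ⟨i, h⟩ | h
    · rw [h]; simp
    · rw [h]; simp
    · exact h.1.2.1.le
  exact (Finset.eq_of_subset_of_card_le hsub (by rw [h1.2.1]; exact hcard)).symm

/-- the other face at an edge -/
theorem exists_other {a : FIdx G} {e : Finset (Vtx G)} (h : IsEdge D.x3 (D.face a) e) :
    ∃ b, b ≠ a ∧ IsEdge D.x3 (D.face b) e ∧ ∀ c, e ⊆ D.face c → c = a ∨ c = b := by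
  rcases D.two_faces h with ⟨d, i, rfl, rfl⟩ | ⟨d, i, rfl, rfl | rfl⟩ | ⟨d, rfl, rfl | rfl⟩
  · refine ⟨.flat d.snd i, ?_, D.edge_eC d i d.snd (Or.inr rfl), fun c hc => D.faces_eC hc⟩
    intro h1
    simp only [FIdx.flat.injEq, and_true] at h1
    exact dart_ne d h1.symm
  · refine ⟨.rect d, by simp, D.edge_eN_rect d i, fun c hc => D.faces_eN hc⟩
  · refine ⟨.flat d.fst i, by simp, D.edge_eN_flat d i, fun c hc => (D.faces_eN hc).symm⟩
  · refine ⟨.rect (D.prev d), ?_, D.edge_eV2 d, fun c hc => D.faces_eV' hc⟩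
    intro h1
    simp only [FIdx.rect.injEq] at h1
    have h2 := congrArg (fun e : G.Dart => e.fst) h1
    rw [D.prev_fst] at h2
    exact dart_ne d h2
  · refine ⟨.rect d.symm, ?_, D.edge_eV1 d, fun c hc => (D.faces_eV' hc).symm⟩
    intro h1
    simp only [FIdx.rect.injEq] at h1
    have h2 := congrArg (fun e : G.Dart => e.fst) h1
    rw [D.prev_fst] at h2
    exact dart_ne d h2.symm

/-- the faces of the surface -/
noncomputable def faces : Finset (Finset (Vtx G)) := by
  classical
  exact Finset.univ.image D.face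

theorem mem_faces {f : Finset (Vtx G)} : f ∈ D.faces ↔ ∃ a, D.face a = f := by
  simp [faces]

theorem face_mem (a : FIdx G) : D.face a ∈ D.faces := D.mem_faces.2 ⟨a, rfl⟩

theorem closed_axiom (hdart : ∀ u : V, ∃ d : G.Dart, d.fst = u) :
    ∀ f ∈ D.faces, ∀ e, IsEdge D.x3 f e → ∃! g, g ∈ D.faces ∧ g ≠ f ∧ IsEdge D.x3 g e := by
  intro f hf e he
  obtain ⟨a, rfl⟩ := D.mem_faces.1 hf
  obtain ⟨b, hb, hbe, huniq⟩ := D.exists_other he
  refine ⟨D.face b, ⟨D.face_mem b, fun h => hb (D.face_injective hdart h), hbe⟩, ?_⟩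
  rintro g ⟨hg, hga, hge⟩
  obtain ⟨c, rfl⟩ := D.mem_faces.1 hg
  rcases huniq c hge.1 with h | h
  · exact absurd (congrArg D.face h) hga
  · exact congrArg D.face h

theorem link_axiom : ∀ i, ∀ f ∈ D.faces, ∀ g ∈ D.faces, i ∈ f → i ∈ g →
    Relation.ReflTransGen
      (fun a b => b ∈ D.faces ∧ ∃ e, i ∈ e ∧ IsEdge D.x3 a e ∧ IsEdge D.x3 b e) f g := by
  intro s f hf g hg hsf hsg
  obtain ⟨a, rfl⟩ := D.mem_faces.1 hf
  obtain ⟨b, rfl⟩ := D.mem_faces.1 hg
  -- relation on the indices
  set T : FIdx G → FIdx G → Prop := fun a b => ∃ e, s ∈ e ∧ IsEdge D.x3 (D.face a) e ∧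
    IsEdge D.x3 (D.face b) e with hT
  have hsymm : ∀ a b, T a b → T b a := fun a b ⟨e, h1, h2, h3⟩ => ⟨e, h1, h3, h2⟩
  obtain ⟨d, j⟩ := s
  have hAB : T (.flat d.fst j) (.flat d.snd j) :=
    ⟨D.eC d j, by simp [eC], D.edge_eC d j _ (Or.inl rfl), D.edge_eC d j _ (Or.inr rfl)⟩
  have hC : T (.rect d.symm) (.rect (D.prev d)) :=
    ⟨D.eV d, by cases j <;> simp [eV], D.edge_eV1 d, D.edge_eV2 d⟩
  have hAC : T (.flat d.fst j) (.rect (D.prev d)) := by
    refine ⟨D.eN (D.prev d) j, by simp [eN, D.next_prev], ?_, D.edge_eN_rect _ _⟩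
    have := D.edge_eN_flat (D.prev d) j
    rwa [D.prev_fst] at this
  have hBC : T (.flat d.snd j) (.rect d.symm) :=
    ⟨D.eN d.symm j, by simp [eN], D.edge_eN_flat d.symm j, D.edge_eN_rect _ _⟩
  have hto : ∀ c, D.mem ⟨d, j⟩ c → Relation.ReflTransGen T (.flat d.fst j) c := by
    intro c hc
    rcases c with ⟨u, i⟩ | e
    · obtain ⟨h1, h2⟩ := hc
      simp only at h1 h2
      subst h2
      rcases h1 with h1 | h1
      · subst h1; exact Relation.ReflTransGen.refl
      · subst h1; exact Relation.ReflTransGen.single hAB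
    · rcases hc with h1 | h1
      · simp only at h1
        have h2 : e = d.symm := by rw [h1, SimpleGraph.Dart.symm_symm]
        subst h2
        exact (Relation.ReflTransGen.single hAB).tail hBC
      · simp only at h1
        have h2 : e = D.prev d := D.next_inj (h1.symm.trans (D.next_prev d).symm)
        subst h2
        exact Relation.ReflTransGen.single hAC
  have hfrom : ∀ c, D.mem ⟨d, j⟩ c → Relation.ReflTransGen T c (.flat d.fst j) := by
    intro c hc
    exact rtg_symm hsymm (hto c hc)
  have h1 := (hfrom a (D.mem_face.1 hsf)).trans (hto b (D.mem_face.1 hsg))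
  exact rtg_lift D.face (fun a b h => ⟨D.face_mem b, h⟩) h1

theorem connected_axiom (hdart : ∀ u : V, ∃ d : G.Dart, d.fst = u)
    (hconn : ∀ u v : V, Relation.ReflTransGen G.Adj u v) :
    ∀ f ∈ D.faces, ∀ g ∈ D.faces, Relation.ReflTransGen
      (fun a b => b ∈ D.faces ∧ ∃ e, IsEdge D.x3 a e ∧ IsEdge D.x3 b e) f g := by
  intro f hf g hg
  obtain ⟨a, rfl⟩ := D.mem_faces.1 hf
  obtain ⟨b, rfl⟩ := D.mem_faces.1 hg
  set T : FIdx G → FIdx G → Prop := fun a b => ∃ e, IsEdge D.x3 (D.face a) e ∧
    IsEdge D.x3 (D.face b) e with hT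
  have hsymm : ∀ a b, T a b → T b a := fun a b ⟨e, h2, h3⟩ => ⟨e, h3, h2⟩
  have hto : ∀ c, Relation.ReflTransGen T (.flat (cellOf c) false) c := by
    rintro (⟨u, i⟩ | e)
    · cases i
      · exact Relation.ReflTransGen.refl
      · obtain ⟨d, rfl⟩ := hdart u
        have h1 : T (.flat d.fst false) (.rect d) :=
          ⟨D.eN d false, D.edge_eN_flat d false, D.edge_eN_rect d false⟩
        have h2 : T (.rect d) (.flat d.fst true) :=
          ⟨D.eN d true, D.edge_eN_rect d true, D.edge_eN_flat d true⟩
        exact (Relation.ReflTransGen.single h1).tail h2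
    · exact Relation.ReflTransGen.single
        ⟨D.eN e false, D.edge_eN_flat e false, D.edge_eN_rect e false⟩
  have hfrom : ∀ c, Relation.ReflTransGen T c (.flat (cellOf c) false) := fun c =>
    rtg_symm hsymm (hto c)
  have hmid : ∀ u v : V, Relation.ReflTransGen T (.flat u false) (.flat v false) := by
    intro u v
    refine rtg_lift (fun u => FIdx.flat u false) ?_ (hconn u v)
    intro u v huv
    let d : G.Dart := ⟨(u, v), huv⟩
    exact ⟨D.eC d false, D.edge_eC d false u (Or.inl rfl), D.edge_eC d false v (Or.inr rfl)⟩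
  have h1 := ((hfrom a).trans (hmid _ _)).trans (hto b)
  exact rtg_lift D.face (fun a b h => ⟨D.face_mem b, h⟩) h1

end Closing

end PolySurf
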