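import Pool.Agent.Helper96.PolySurf.Surf4

/-!
The closed surface: geometric axioms.
-/

namespace PolySurf

open Filter Topology

variable {V : Type} {G : SimpleGraph V}

namespace Closing

variable [Finite V] (D : Closing G)

theorem pos3_inj_cell {u : V} {s t : Vtx G} (hs : inCell u s) (ht : inCell u t)
    (h : D.pos3 s = D.pos3 t) : s = t := by
  have e1 := D.on s.d hs
  have e2 := D.on t.d ht
  have h5 := mul_pos D.hθ (D.hw u)
  have e3 : (D.f u).ev (D.pos3 s) = (D.f u).ev (D.pos3 t) := by rw [h]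
  rw [ev_pos3, ev_pos3, e1, e2] at e3
  have hi : s.i = t.i := by
    cases hsi : s.i <;> cases hti : t.i <;> simp only [hsi, hti] at e3 ⊢
    · simp at e3
      rcases e3 with h6 | h6
      · exact absurd h6 D.hθ.ne'
      · exact absurd h6 (D.hw u).ne'
    · simp at e3
      rcases e3 with h6 | h6
      · exact absurd h6 D.hθ.ne'
      · exact absurd h6 (D.hw u).ne'
  refine vtx_ext ?_ hi
  by_contra hne
  have h6 := D.proj_ne' hs ht hne
  have h7 : (D.b s.d).x = (D.b t.d).x ∧ (D.b s.d).z = (D.b t.d).z := by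
    unfold pos3 at h
    rw [← hi] at h
    split_ifs at h with h8
    · have hx := congrArg Pt.x h
      have hz := congrArg Pt.z h
      simp only [Pt.move] at hx hz
      constructor <;> linarith
    · rw [h]; exact ⟨rfl, rfl⟩
  rw [h7.1, h7.2] at h6
  simp at h6

theorem x3_injective : Function.Injective D.x3 := by
  intro s t h
  have h1 : D.pos3 s = D.pos3 t := toE_injective h
  by_cases huv : s.d.fst = t.d.fst
  · exact D.pos3_inj_cell (u := s.d.fst) (Or.inl rfl) (Or.inl huv.symm) h1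
  · obtain ⟨l, hu, hv⟩ := D.exists_sepCell huv
    have h2 := hu s (Or.inl rfl)
    have h3 := hv t (Or.inl rfl)
    rw [h1] at h2
    have h4 : l.ev (D.pos3 t) = 0 := le_antisymm h3.1 h2.1
    exact D.pos3_inj_cell (h2.2 h4) (Or.inl rfl) h1

/-- a vertex of the cell which is not on the face -/
theorem exists_off (hdart : ∀ u : V, ∃ d : G.Dart, d.fst = u) (a : FIdx G) :
    ∃ s, inCell (cellOf a) s ∧ ¬ D.mem s a := by
  rcases a with ⟨u, i⟩ | e
  · obtain ⟨d, rfl⟩ := hdart u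
    refine ⟨⟨d, !i⟩, Or.inl rfl, ?_⟩
    rintro ⟨-, h⟩
    cases i <;> simp at h
  · obtain ⟨k, h1, h2, h3⟩ := D.exists_third_in_plate (u := e.fst) e.symm (D.next e) (Or.inr rfl)
    refine ⟨⟨k, false⟩, h1, ?_⟩
    rintro (h | h)
    · exact h2 h
    · exact h3 h

theorem exists_mem (hdart : ∀ u : V, ∃ d : G.Dart, d.fst = u) (a : FIdx G) :
    ∃ s, D.mem s a := by
  rcases a with ⟨u, i⟩ | e
  · obtain ⟨d, rfl⟩ := hdart u
    exact ⟨⟨d, i⟩, Or.inl rfl, rfl⟩
  · exact ⟨⟨e.symm, false⟩, Or.inl rfl⟩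

theorem linE_ne_zero (hdart : ∀ u : V, ∃ d : G.Dart, d.fst = u) (a : FIdx G) :
    (D.L a).linE ≠ 0 := by
  intro h0
  obtain ⟨s, h1, h2⟩ := D.exists_off hdart a
  obtain ⟨t, ht⟩ := D.exists_mem hdart a
  have h3 := D.L_pos h1 h2
  have h4 := D.L_zero ht
  have h5 := D.linE_x3 (D.L a) s
  have h6 := D.linE_x3 (D.L a) t
  rw [h0] at h5 h6
  simp only [LinearMap.zero_apply] at h5 h6
  linarith

/-- every face has an edge and a vertex not on this edge -/
theorem exists_edge_third (hdart : ∀ u : V, ∃ d : G.Dart, d.fst = u) (a : FIdx G) :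
    ∃ e s, IsEdge D.x3 (D.face a) e ∧ s ∈ D.face a ∧ s ∉ e := by
  rcases a with ⟨u, i⟩ | e
  · obtain ⟨d, rfl⟩ := hdart u
    obtain ⟨d', h3, h4, h5⟩ := D.third d
    refine ⟨D.eC d i, ⟨d', i⟩, D.edge_eC d i _ (Or.inl rfl), D.mem_face.2 ⟨Or.inl h3, rfl⟩, ?_⟩
    simp only [eC, Finset.mem_insert, Finset.mem_singleton]
    rintro (h | h)
    · exact h4 (congrArg Vtx.d h)
    · exact h5 (congrArg Vtx.d h)
  · refine ⟨D.eN e false, ⟨e.symm, true⟩, D.edge_eN_rect e false, D.mem_face.2 (Or.inl rfl), ?_⟩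
    simp only [eN, Finset.mem_insert, Finset.mem_singleton]
    rintro (h | h)
    · exact Bool.false_ne_true (congrArg Vtx.i h).symm
    · exact Bool.false_ne_true (congrArg Vtx.i h).symm

/-- two edges at each vertex of a face -/
theorem exists_two_edges {a : FIdx G} {s : Vtx G} (hs : D.mem s a) :
    ∃ e1 e2, IsEdge D.x3 (D.face a) e1 ∧ IsEdge D.x3 (D.face a) e2 ∧ s ∈ e1 ∧ s ∈ e2 ∧
      ∀ t, t ∈ e1 → t ∈ e2 → t = s := by
  obtain ⟨d, j⟩ := s
  rcases a with ⟨u, i⟩ | e
  · obtain ⟨h1, h2⟩ := hs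
    simp only at h1 h2
    subst h2
    rcases h1 with h1 | h1
    · subst h1
      refine ⟨D.eC d j, D.eN (D.prev d) j, D.edge_eC d j _ (Or.inl rfl), ?_, by simp [eC],
        by simp [eN, D.next_prev], ?_⟩
      · have := D.edge_eN_flat (D.prev d) j
        rwa [D.prev_fst] at this
      · intro t h1 h2
        simp only [eC, eN, D.next_prev, Finset.mem_insert, Finset.mem_singleton] at h1 h2
        rcases h1 with h1 | h1
        · exact h1
        · rcases h2 with h2 | h2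
          · exact absurd (symm_inj' (congrArg Vtx.d (h1.symm.trans h2))).symm (D.prev_ne d)
          · exact h2
    · subst h1
      refine ⟨D.eC d j, D.eN d.symm j, D.edge_eC d j _ (Or.inr rfl), D.edge_eN_flat d.symm j,
        by simp [eC], by simp [eN], ?_⟩
      intro t h1 h2
      simp only [eC, eN, SimpleGraph.Dart.symm_symm, Finset.mem_insert,
        Finset.mem_singleton] at h1 h2
      rcases h1 with h1 | h1
      · exact h1
      · rcases h2 with h2 | h2
        · exact h2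
        · exact absurd (congrArg Vtx.d (h1.symm.trans h2)).symm (D.next_ne d.symm)
  · have hd : d = e.symm ∨ d = D.next e := hs
    refine ⟨D.eV d, D.eN e j, D.edge_eV d e hd, D.edge_eN_rect e j, ?_, ?_, ?_⟩
    · cases j <;> simp [eV]
    · rcases hd with h | h <;> simp [eN, h]
    · intro t h1 h2
      simp only [eV, eN, Finset.mem_insert, Finset.mem_singleton] at h1 h2
      have h3 : t.d = d := by rcases h1 with h1 | h1 <;> rw [h1]
      have h4 : t.i = j := by rcases h2 with h2 | h2 <;> rw [h2]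
      exact vtx_ext h3 h4

theorem not_mem_hull_erase {a : FIdx G} {s : Vtx G} (hs : D.mem s a) :
    D.x3 s ∉ hull D.x3 ((D.face a).erase s) := by
  obtain ⟨e1, e2, h1, h2, h3, h4, h5⟩ := D.exists_two_edges hs
  rw [isEdge_iff] at h1 h2
  obtain ⟨h1, -, l1, h6, h7⟩ := h1
  obtain ⟨h2, -, l2, h8, h9⟩ := h2
  intro hmem
  let l : Aff := ⟨l1.a + l2.a, l1.b + l2.b, l1.c + l2.c, l1.d + l2.d⟩
  have hl : ∀ p, l.ev p = l1.ev p + l2.ev p := by
    intro p; simp only [l, Aff.ev]; ring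
  have hs0 : l.linE (D.x3 s) + l.d = 0 := by
    rw [linE_x3, hl, h6 s h3, h8 s h4]; ring
  have hle : ∀ i ∈ D.face a, i ∈ e1 → 0 ≤ l1.ev (D.pos3 i) := fun i _ hi => (h6 i hi).ge
  have h10 := D.mem_hull_zero' (s := (D.face a).erase s) (t := ∅) l (fun i hi => ?_)
    (fun i hi h0 => ?_) hmem hs0.le
  · rw [Finset.inter_empty] at h10
    simp [hull] at h10
  all_goals
    obtain ⟨hne, hia⟩ := Finset.mem_erase.1 hi
    have hpos : 0 < l.ev (D.pos3 i) := by
      rw [hl]
      by_cases hi1 : i ∈ e1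
      · have hi2 : i ∉ e2 := fun h => hne (h5 i hi1 h)
        rw [h6 i hi1, zero_add]
        exact h9 i hia hi2
      · have := h7 i hia hi1
        by_cases hi2 : i ∈ e2
        · rw [h8 i hi2, add_zero]; exact this
        · exact add_pos this (h9 i hia hi2)
  · exact hpos.le
  · exact absurd h0 hpos.ne'

/-! ### Dimensions -/

theorem finrank_E3 : Module.finrank ℝ E3 = 3 := by simp

theorem two_le_finrank {W : Submodule ℝ E3} {a b : E3} (ha : a ∈ W) (hb : b ∈ W)
    (l : E3 →ₗ[ℝ] ℝ) (hla : l a = 0) (ha0 : a ≠ 0) (hlb : l b ≠ 0) :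
    2 ≤ Module.finrank ℝ W := by
  have h1 : (⊥ : Submodule ℝ E3) < W ⊓ LinearMap.ker l := by
    rw [bot_lt_iff_ne_bot]
    intro h
    have : a ∈ (⊥ : Submodule ℝ E3) := by rw [← h]; exact ⟨ha, hla⟩
    exact ha0 ((Submodule.mem_bot ℝ).1 this)
  have h2 : W ⊓ LinearMap.ker l < W := by
    refine lt_of_le_of_ne inf_le_left ?_
    intro h
    have : b ∈ W ⊓ LinearMap.ker l := by rw [h]; exact hb
    exact hlb this.2
  have h3 := Submodule.finrank_lt_finrank_of_lt h1
  have h4 := Submodule.finrank_lt_finrank_of_lt h2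
  omega

theorem finrank_ker {l : E3 →ₗ[ℝ] ℝ} (hl : l ≠ 0) : Module.finrank ℝ (LinearMap.ker l) = 2 := by
  have h1 := LinearMap.finrank_range_add_finrank_ker l
  have h2 : Module.finrank ℝ (LinearMap.range l) = 1 := by
    rw [LinearMap.range_eq_top.2 (LinearMap.surjective_of_ne_zero hl), finrank_top]
    simp
  rw [h2, finrank_E3] at h1
  omega

omit [Finite V] in
theorem vectorSpan_le (l : Aff) {f : Finset (Vtx G)} (h : ∀ s ∈ f, l.ev (D.pos3 s) = 0) :
    vectorSpan ℝ (D.x3 '' (f : Set (Vtx G))) ≤ LinearMap.ker l.linE := by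
  unfold vectorSpan
  rw [Submodule.span_le]
  rintro _ ⟨_, ⟨s, hs, rfl⟩, _, ⟨t, ht, rfl⟩, rfl⟩
  show l.linE (D.x3 s -ᵥ D.x3 t) = 0
  have h1 := D.linE_x3 l s
  have h2 := D.linE_x3 l t
  rw [h s hs] at h1
  rw [h t ht] at h2
  rw [vsub_eq_sub, map_sub]
  linarith

theorem finrank_face (hdart : ∀ u : V, ∃ d : G.Dart, d.fst = u) (a : FIdx G) :
    Module.finrank ℝ (vectorSpan ℝ (D.x3 '' (D.face a : Set (Vtx G)))) = 2 := by
  apply le_antisymm
  · have h1 := D.vectorSpan_le (D.L a) (f := D.face a) (fun s hs => D.L_zero (D.mem_face.1 hs))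
    have h2 := Submodule.finrank_mono h1
    rwa [finrank_ker (D.linE_ne_zero hdart a)] at h2
  · obtain ⟨e, r, he, hr, hre⟩ := D.exists_edge_third hdart a
    rw [isEdge_iff] at he
    obtain ⟨h1, h2, l, h3, h4⟩ := he
    obtain ⟨p, q, hpq, rfl⟩ := Finset.card_eq_two.1 h2
    have hp := h1 (by simp : p ∈ ({p, q} : Finset (Vtx G)))
    have hq := h1 (by simp : q ∈ ({p, q} : Finset (Vtx G)))
    have z1 := D.linE_x3 l p
    have z2 := D.linE_x3 l q
    have z3 := D.linE_x3 l r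
    rw [h3 p (by simp)] at z1
    rw [h3 q (by simp)] at z2
    have hr' := h4 r hr hre
    refine two_le_finrank (a := D.x3 q -ᵥ D.x3 p) (b := D.x3 r -ᵥ D.x3 p)
      (vsub_mem_vectorSpan ℝ ⟨q, hq, rfl⟩ ⟨p, hp, rfl⟩)
      (vsub_mem_vectorSpan ℝ ⟨r, hr, rfl⟩ ⟨p, hp, rfl⟩) l.linE ?_ ?_ ?_
    · rw [vsub_eq_sub, map_sub]; linarith
    · rw [vsub_eq_sub, sub_ne_zero]
      exact fun h => hpq (D.x3_injective h).symm
    · rw [vsub_eq_sub, map_sub]; linarith

theorem polygon_axiom (hdart : ∀ u : V, ∃ d : G.Dart, d.fst = u) :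
    ∀ f ∈ D.faces, IsPolygon D.x3 f := by
  intro f hf
  obtain ⟨a, rfl⟩ := D.mem_faces.1 hf
  refine ⟨?_, D.finrank_face hdart a, fun i hi => D.not_mem_hull_erase (D.mem_face.1 hi)⟩
  obtain ⟨e, s, h1, h2, h3⟩ := D.exists_edge_third hdart a
  have h4 : insert s e ⊆ D.face a := Finset.insert_subset h2 h1.1
  have h5 := Finset.card_le_card h4
  rw [Finset.card_insert_of_notMem h3, h1.2.1] at h5
  exact h5

end Closing

end PolySurf
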