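import Pool.Agent.Helper96.PolySurf.Surf5

/-!
The closed surface: adjacent faces are not coplanar, orientability, colourings.
-/

namespace PolySurf

open Filter Topology

variable {V : Type} {G : SimpleGraph V}

theorem collinear_contra {fu fv : Aff} {A B : Pt} (h1 : 0 < fu.lin A) (h2 : fu.lin B = 0)
    (h3 : 0 < fv.lin B) (e1 : A.z * B.m = A.m * B.z) (e2 : A.m * B.x = A.x * B.m)
    (e3 : A.x * B.z = A.z * B.x) : False := by
  have hx : fu.lin A * B.x = 0 := by
    have : fu.lin A * B.x = fu.lin B * A.x := by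
      simp only [Aff.lin]; linear_combination fu.c * e2 - fu.b * e3
    rw [this, h2, zero_mul]
  have hz : fu.lin A * B.z = 0 := by
    have : fu.lin A * B.z = fu.lin B * A.z := by
      simp only [Aff.lin]; linear_combination fu.a * e3 - fu.c * e1
    rw [this, h2, zero_mul]
  have hm : fu.lin A * B.m = 0 := by
    have : fu.lin A * B.m = fu.lin B * A.m := by
      simp only [Aff.lin]; linear_combination fu.b * e1 - fu.a * e2
    rw [this, h2, zero_mul]
  have hx' := (mul_eq_zero.1 hx).resolve_left h1.ne'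
  have hz' := (mul_eq_zero.1 hz).resolve_left h1.ne'
  have hm' := (mul_eq_zero.1 hm).resolve_left h1.ne'
  simp only [Aff.lin, hx', hz', hm', mul_zero, add_zero] at h3
  exact lt_irrefl _ h3

theorem lin_sub (l : Aff) (p q : Pt) : l.lin (p.sub q) = l.ev p - l.ev q := by
  simp only [Aff.lin, Aff.ev, Pt.sub]; ring

/-- the normal vector of an affine functional -/
noncomputable def nvec (l : Aff) : E3 := !₂[l.a, l.b, l.c]

theorem inner_nvec (l : Aff) (v : E3) : inner ℝ (nvec l) v = l.linE v := by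
  simp [nvec, Aff.linE_apply, PiLp.inner_apply, Fin.sum_univ_three]
  ring

namespace Closing

variable [Finite V] (D : Closing G)

theorem prev_symm_ne (d : G.Dart) : (D.prev d).symm ≠ d := by
  intro h
  have h1 := congrArg (fun e : G.Dart => e.snd) h
  have h2 : (D.prev d).fst = d.snd := h1
  rw [D.prev_fst] at h2
  exact dart_ne d h2

/-- the value of the functional of a rectangle on the far vertices of the adjacent rectangle -/
theorem R_ne_zero (d : G.Dart) : (D.R d.symm).ev (D.b (D.prev d).symm) ≠ 0 := by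
  intro h
  rw [R_ev, SimpleGraph.Dart.symm_symm] at h
  obtain ⟨e1, e2, e3⟩ := D.gen _ _ _ h
  -- the functionals of the two plates
  have hj1 : (D.next d.symm).fst = d.snd := D.next_fst d.symm
  have hj2 : D.next d.symm ≠ d.symm := D.next_ne d.symm
  have hj3 : D.next d.symm ≠ d := by
    have := D.next_ne_symm d.symm
    rwa [SimpleGraph.Dart.symm_symm] at this
  have hk1 : (D.prev d).symm.snd = d.fst := D.prev_fst d
  have hk2 : (D.prev d).symm ≠ d := D.prev_symm_ne d
  have hk3 : (D.prev d).symm ≠ d.symm := fun h => D.prev_ne d (symm_inj' h)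
  have p1 : 0 < (D.f d.fst).ev (D.b (D.next d.symm)) := by
    refine D.pos d.symm (D.next d.symm) (Or.inl hj1) hj2 ?_
    rwa [SimpleGraph.Dart.symm_symm]
  have p2 : 0 < (D.f d.snd).ev (D.b (D.prev d).symm) := D.pos d _ (Or.inr hk1) hk2 hk3
  have z1 : (D.f d.fst).ev (D.b (D.prev d).symm) = 0 := D.on _ (Or.inr hk1)
  have z2 : (D.f d.fst).ev (D.b d) = 0 := D.on1 d
  have z3 : (D.f d.snd).ev (D.b d) = 0 := D.on2 d
  refine collinear_contra (fu := D.f d.fst) (fv := D.f d.snd) ?_ ?_ ?_ e1 e2 e3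
  · rw [lin_sub, z2]; linarith
  · rw [lin_sub, z1, z2]; ring
  · rw [lin_sub, z3]; linarith

theorem R_swap (d : G.Dart) : (D.R (D.prev d)).ev (D.b (D.next d.symm)) =
    (D.R d.symm).ev (D.b (D.prev d).symm) := by
  rw [R_ev, R_ev, D.next_prev, SimpleGraph.Dart.symm_symm]
  simp only [det3, Pt.sub]
  ring

/-- The main sign computation at a common edge. -/
theorem sign_main {a b : FIdx G} {e : Finset (Vtx G)} (hab : a ≠ b)
    (ha : IsEdge D.x3 (D.face a) e) (hb : IsEdge D.x3 (D.face b) e) {p q : Vtx G}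
    (hp : p ∈ D.face a) (hpe : p ∉ e) (hq : q ∈ D.face b) (hqe : q ∉ e) :
    0 < (D.L a).ev (D.pos3 q) * (D.L b).ev (D.pos3 p) := by
  have hint := D.inter_eq hab ha hb
  have hpb : ¬ D.mem p b := fun h => hpe (by
    rw [← hint]; exact Finset.mem_inter.2 ⟨hp, D.mem_face.2 h⟩)
  have hqa : ¬ D.mem q a := fun h => hqe (by
    rw [← hint]; exact Finset.mem_inter.2 ⟨D.mem_face.2 h, hq⟩)
  by_cases hc : cellOf a = cellOf b
  · exact mul_pos (D.L_pos (by rw [hc]; exact D.mem_inCell (D.mem_face.1 hq)) hqa)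
      (D.L_pos (by rw [← hc]; exact D.mem_inCell (D.mem_face.1 hp)) hpb)
  -- two flat faces
  have flatCase : ∀ (d : G.Dart) (i : Bool) (p q : Vtx G), p ∈ D.face (.flat d.fst i) →
      p ∉ D.eC d i → q ∈ D.face (.flat d.snd i) → q ∉ D.eC d i →
      0 < (D.L (.flat d.fst i)).ev (D.pos3 q) * (D.L (.flat d.snd i)).ev (D.pos3 p) := by
    intro d i p q hp hpe hq hqe
    obtain ⟨hp1, hp2⟩ := D.mem_face.1 hp
    obtain ⟨hq1, hq2⟩ := D.mem_face.1 hq
    simp only [eC, Finset.mem_insert, Finset.mem_singleton, not_or] at hpe hqe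
    have p1 : p.d ≠ d := fun h => hpe.1 (vtx_ext h hp2)
    have p2 : p.d ≠ d.symm := fun h => hpe.2 (vtx_ext h hp2)
    have q1 : q.d ≠ d := fun h => hqe.1 (vtx_ext h hq2)
    have q2 : q.d ≠ d.symm := fun h => hqe.2 (vtx_ext h hq2)
    have r1 : 0 < (D.f d.snd).ev (D.b p.d) := D.pos d p.d hp1 p1 p2
    have r2 : 0 < (D.f d.fst).ev (D.b q.d) :=
      D.pos d.symm q.d hq1 q2 (by rwa [SimpleGraph.Dart.symm_symm])
    cases i
    · have e1 : (D.L (.flat d.fst false)).ev (D.pos3 q) = (D.f d.fst).ev (D.b q.d) := by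
        show (D.f d.fst).ev (D.pos3 q) = _
        rw [ev_pos3, hq2]; simp
      have e2 : (D.L (.flat d.snd false)).ev (D.pos3 p) = (D.f d.snd).ev (D.b p.d) := by
        show (D.f d.snd).ev (D.pos3 p) = _
        rw [ev_pos3, hp2]; simp
      rw [e1, e2]
      exact mul_pos r2 r1
    · have e1 : (D.L (.flat d.fst true)).ev (D.pos3 q) = -(D.f d.fst).ev (D.b q.d) := by
        rw [L_flat_true, ev_pos3, hq2]; simp
      have e2 : (D.L (.flat d.snd true)).ev (D.pos3 p) = -(D.f d.snd).ev (D.b p.d) := by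
        rw [L_flat_true, ev_pos3, hp2]; simp
      rw [e1, e2, neg_mul_neg]
      exact mul_pos r2 r1
  -- two rectangles
  have rectCase : ∀ (d : G.Dart) (p q : Vtx G), p ∈ D.face (.rect d.symm) → p ∉ D.eV d →
      q ∈ D.face (.rect (D.prev d)) → q ∉ D.eV d →
      0 < (D.L (.rect d.symm)).ev (D.pos3 q) * (D.L (.rect (D.prev d))).ev (D.pos3 p) := by
    intro d p q hp hpe hq hqe
    have hp1 : p.d = d.symm.symm ∨ p.d = D.next d.symm := D.mem_face.1 hp
    have hq1 : q.d = (D.prev d).symm ∨ q.d = D.next (D.prev d) := D.mem_face.1 hq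
    rw [SimpleGraph.Dart.symm_symm] at hp1
    rw [D.next_prev] at hq1
    simp only [eV, Finset.mem_insert, Finset.mem_singleton, not_or] at hpe hqe
    have p1 : p.d ≠ d := by
      intro h
      cases hi : p.i
      · exact hpe.1 (vtx_ext h hi)
      · exact hpe.2 (vtx_ext h hi)
    have q1 : q.d ≠ d := by
      intro h
      cases hi : q.i
      · exact hqe.1 (vtx_ext h hi)
      · exact hqe.2 (vtx_ext h hi)
    have p2 := hp1.resolve_left p1
    have q2 := hq1.resolve_right q1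
    show 0 < (D.R d.symm).ev (D.pos3 q) * (D.R (D.prev d)).ev (D.pos3 p)
    rw [R_ev_pos3, R_ev_pos3, p2, q2, R_swap]
    exact mul_self_pos.2 (D.R_ne_zero d)
  rcases D.two_faces ha with ⟨d, i, rfl, rfl⟩ | ⟨d, i, rfl, ha'⟩ | ⟨d, rfl, rfl | rfl⟩
  · rcases D.faces_eC hb.1 with rfl | rfl
    · exact absurd rfl hab
    · exact flatCase d i p q hp hpe hq hqe
  · exfalso
    apply hc
    rcases ha' with rfl | rfl <;> rcases D.faces_eN hb.1 with rfl | rfl <;> rfl
  · rcases D.faces_eV' hb.1 with rfl | rfl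
    · exact absurd rfl hab
    · exact rectCase d p q hp hpe hq hqe
  · rcases D.faces_eV' hb.1 with rfl | rfl
    · rw [mul_comm]
      exact rectCase d q p hq hqe hp hpe
    · exact absurd rfl hab

theorem exists_not_mem_edge (hdart : ∀ u : V, ∃ d : G.Dart, d.fst = u) (a : FIdx G)
    {e : Finset (Vtx G)} (he : e.card = 2) : ∃ s ∈ D.face a, s ∉ e := by
  have h1 := (D.polygon_axiom hdart _ (D.face_mem a)).1
  by_contra hcon
  push Not at hcon
  have := Finset.card_le_card (fun s hs => hcon s hs : D.face a ⊆ e)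
  omega

theorem notCoplanar_axiom (hdart : ∀ u : V, ∃ d : G.Dart, d.fst = u) :
    ∀ f ∈ D.faces, ∀ g ∈ D.faces, Adjacent D.x3 f g →
    Module.finrank ℝ (vectorSpan ℝ (D.x3 '' ((f ∪ g : Finset (Vtx G)) : Set (Vtx G)))) = 3 := by
  rintro f hf g hg ⟨hfg, e, he1, he2⟩
  obtain ⟨a, rfl⟩ := D.mem_faces.1 hf
  obtain ⟨b, rfl⟩ := D.mem_faces.1 hg
  have hab : a ≠ b := fun h => hfg (by rw [h])
  obtain ⟨p, hp, hpe⟩ := D.exists_not_mem_edge hdart a he1.2.1
  obtain ⟨q, hq, hqe⟩ := D.exists_not_mem_edge hdart b he1.2.1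
  have hs := D.sign_main hab he1 he2 hp hpe hq hqe
  have hne : (D.L a).ev (D.pos3 q) ≠ 0 := fun h => by
    rw [h, zero_mul] at hs; exact lt_irrefl _ hs
  set W := vectorSpan ℝ (D.x3 '' ((D.face a ∪ D.face b : Finset (Vtx G)) : Set (Vtx G))) with hW
  have h1 : vectorSpan ℝ (D.x3 '' (D.face a : Set (Vtx G))) ≤
      W ⊓ LinearMap.ker (D.L a).linE := by
    refine le_inf ?_ (D.vectorSpan_le (D.L a) (fun s hs => D.L_zero (D.mem_face.1 hs)))
    exact vectorSpan_mono ℝ (Set.image_mono (Finset.coe_subset.2 Finset.subset_union_left))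
  have h2 := Submodule.finrank_mono h1
  rw [D.finrank_face hdart a] at h2
  have h3 : W ⊓ LinearMap.ker (D.L a).linE < W := by
    refine lt_of_le_of_ne inf_le_left ?_
    intro h
    have h4 : D.x3 q -ᵥ D.x3 p ∈ W := vsub_mem_vectorSpan ℝ
      ⟨q, Finset.mem_coe.2 (Finset.mem_union_right _ hq), rfl⟩
      ⟨p, Finset.mem_coe.2 (Finset.mem_union_left _ hp), rfl⟩
    rw [← h] at h4
    have h5 : (D.L a).linE (D.x3 q -ᵥ D.x3 p) = 0 := h4.2
    have h6 := D.linE_x3 (D.L a) q
    have h7 := D.linE_x3 (D.L a) p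
    rw [D.L_zero (D.mem_face.1 hp)] at h7
    rw [vsub_eq_sub, map_sub] at h5
    apply hne
    linarith
  have h4 := Submodule.finrank_lt_finrank_of_lt h3
  have h5 := Submodule.finrank_le W
  rw [finrank_E3] at h5
  omega

theorem orientable_axiom (hdart : ∀ u : V, ∃ d : G.Dart, d.fst = u) :
    ∃ N : Finset (Vtx G) → E3,
    (∀ f ∈ D.faces, N f ≠ 0 ∧ ∀ i ∈ f, ∀ j ∈ f, inner ℝ (N f) (D.x3 i - D.x3 j) = 0) ∧
    ∀ f ∈ D.faces, ∀ g ∈ D.faces, f ≠ g → ∀ e, IsEdge D.x3 f e → IsEdge D.x3 g e → ∀ i ∈ e,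
      ∀ p ∈ f, p ∉ e → ∀ q ∈ g, q ∉ e →
        0 < inner ℝ (N f) (D.x3 q - D.x3 i) * inner ℝ (N g) (D.x3 p - D.x3 i) := by
  classical
  let N : Finset (Vtx G) → E3 := fun f =>
    if h : ∃ a, D.face a = f then nvec (D.L h.choose) else 0
  have hN : ∀ a, N (D.face a) = nvec (D.L a) := by
    intro a
    have h : ∃ b, D.face b = D.face a := ⟨a, rfl⟩
    have h1 : h.choose = a := D.face_injective hdart h.choose_spec
    simp only [N]
    rw [dif_pos h, h1]
  have hdiff : ∀ a s t, inner ℝ (N (D.face a)) (D.x3 s - D.x3 t) =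
      (D.L a).ev (D.pos3 s) - (D.L a).ev (D.pos3 t) := by
    intro a s t
    rw [hN, inner_nvec, map_sub]
    have h6 := D.linE_x3 (D.L a) s
    have h7 := D.linE_x3 (D.L a) t
    linarith
  refine ⟨N, ?_, ?_⟩
  · intro f hf
    obtain ⟨a, rfl⟩ := D.mem_faces.1 hf
    refine ⟨?_, ?_⟩
    · intro h0
      apply D.linE_ne_zero hdart a
      rw [hN] at h0
      ext v
      rw [← inner_nvec, h0]
      simp
    · intro i hi j hj
      rw [hdiff, D.L_zero (D.mem_face.1 hi), D.L_zero (D.mem_face.1 hj), sub_zero]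
  · intro f hf g hg hfg e he1 he2 i hi p hp hpe q hq hqe
    obtain ⟨a, rfl⟩ := D.mem_faces.1 hf
    obtain ⟨b, rfl⟩ := D.mem_faces.1 hg
    have hab : a ≠ b := fun h => hfg (by rw [h])
    rw [hdiff, hdiff, D.L_zero (D.mem_face.1 (he1.1 hi)), D.L_zero (D.mem_face.1 (he2.1 hi)),
      sub_zero, sub_zero]
    exact D.sign_main hab he1 he2 hp hpe hq hqe

/-- The boundary of the thickened configuration is a closed polyhedral surface. -/
theorem isPolyhedralSurface (hne : Nonempty V) (hdart : ∀ u : V, ∃ d : G.Dart, d.fst = u)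
    (hconn : ∀ u v : V, Relation.ReflTransGen G.Adj u v) :
    IsPolyhedralSurface D.x3 D.faces where
  injective := D.x3_injective
  nonempty := by
    obtain ⟨u⟩ := hne
    exact ⟨_, D.face_mem (.flat u false)⟩
  covered := fun s => ⟨_, D.face_mem (.flat s.d.fst s.i), D.mem_face.2 ⟨Or.inl rfl, rfl⟩⟩
  polygon := D.polygon_axiom hdart
  meet := by
    intro f hf g hg hfg
    obtain ⟨a, rfl⟩ := D.mem_faces.1 hf
    obtain ⟨b, rfl⟩ := D.mem_faces.1 hg
    exact ⟨D.hull_inter a b, D.inter_cases (fun h => hfg (by rw [h]))⟩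
  closed := D.closed_axiom hdart
  link := D.link_axiom
  connected := D.connected_axiom hdart hconn
  notCoplanar := D.notCoplanar_axiom hdart
  orientable := D.orientable_axiom hdart

/-- A colouring of the faces gives a colouring of the contact graph. -/
theorem colorable_of_faceColorable (hdart : ∀ u : V, ∃ d : G.Dart, d.fst = u) {C : ℕ}
    (h : FaceColorable D.x3 D.faces C) : G.Colorable C := by
  obtain ⟨col, hcol⟩ := h
  refine ⟨SimpleGraph.Coloring.mk (fun u => col (D.face (.flat u false))) ?_⟩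
  intro u v huv
  refine hcol _ (D.face_mem _) _ (D.face_mem _) ⟨?_, ?_⟩
  · intro h
    have h1 := D.face_injective hdart h
    simp only [FIdx.flat.injEq, and_true] at h1
    exact huv.ne h1
  · let d : G.Dart := ⟨(u, v), huv⟩
    exact ⟨D.eC d false, D.edge_eC d false u (Or.inl rfl), D.edge_eC d false v (Or.inr rfl)⟩

end Closing

end PolySurf
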