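import Pool.Agent.Helper96.PolySurf.Surf6

/-!
The closed surface: number of vertices, edges and faces.
-/

namespace PolySurf

open Filter Topology

variable {V : Type} {G : SimpleGraph V}

theorem card_vtx [Finite V] : Nat.card (Vtx G) = 2 * Nat.card G.Dart := by
  let e : Vtx G ≃ G.Dart × Bool :=
    { toFun := fun s => (s.d, s.i)
      invFun := fun p => ⟨p.1, p.2⟩
      left_inv := fun s => rfl
      right_inv := fun p => rfl }
  rw [Nat.card_congr e, Nat.card_prod, Nat.card_eq_fintype_card (α := Bool), Fintype.card_bool,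
    mul_comm]

theorem card_fidx [Finite V] : Nat.card (FIdx G) = 2 * Nat.card V + Nat.card G.Dart := by
  have : Finite G.Dart := finite_dart
  let e : FIdx G ≃ (V × Bool) ⊕ G.Dart :=
    { toFun := fun s => match s with
        | .flat u i => Sum.inl (u, i)
        | .rect e => Sum.inr e
      invFun := fun p => match p with
        | Sum.inl (u, i) => .flat u i
        | Sum.inr e => .rect e
      left_inv := by rintro (⟨u, i⟩ | e) <;> rfl
      right_inv := by rintro (⟨u, i⟩ | e) <;> rfl }
  rw [Nat.card_congr e, Nat.card_sum, Nat.card_prod, Nat.card_eq_fintype_card (α := Bool),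
    Fintype.card_bool, mul_comm]

theorem card_dart [Finite V] : Nat.card G.Dart = 2 * Nat.card G.edgeSet := by
  classical
  have := Fintype.ofFinite V
  rw [Nat.card_eq_fintype_card, G.dart_card_eq_twice_card_edges, Nat.card_eq_fintype_card,
    SimpleGraph.edgeFinset_card]

/-- indices of the edges of the surface -/
abbrev EIdx (G : SimpleGraph V) : Type := (G.edgeSet × Bool) ⊕ ((G.Dart × Bool) ⊕ G.Dart)

theorem card_eidx [Finite V] : Nat.card (EIdx G) = 8 * Nat.card G.edgeSet := by
  classical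
  have := Fintype.ofFinite V
  have h1 : Finite G.Dart := finite_dart
  have h2 : Finite G.edgeSet := inferInstance
  unfold EIdx
  rw [Nat.card_sum, Nat.card_sum, Nat.card_prod, Nat.card_prod,
    Nat.card_eq_fintype_card (α := Bool), Fintype.card_bool, card_dart]
  ring

namespace Closing

variable [Finite V] (D : Closing G)

open Classical in
/-- the edges of the surface -/
noncomputable def edgeOf : EIdx G → Finset (Vtx G)
  | .inl (z, i) => Finset.univ.filter fun s => s.d.edge = z ∧ s.i = i
  | .inr (.inl (d, i)) => D.eN d i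
  | .inr (.inr d) => D.eV d

theorem edgeOf_inl (d : G.Dart) (i : Bool) : D.edgeOf (.inl (⟨d.edge, d.edge_mem⟩, i)) =
    D.eC d i := by
  ext s
  simp only [edgeOf, eC, Finset.mem_filter, Finset.mem_univ, true_and, Finset.mem_insert,
    Finset.mem_singleton, SimpleGraph.dart_edge_eq_iff]
  constructor
  · rintro ⟨h1 | h1, h2⟩
    · exact Or.inl (vtx_ext h1 h2)
    · exact Or.inr (vtx_ext h1 h2)
  · rintro (rfl | rfl)
    · exact ⟨Or.inl rfl, rfl⟩
    · exact ⟨Or.inr rfl, rfl⟩

theorem exists_eC (z : G.edgeSet) (i : Bool) : ∃ d : G.Dart, d.edge = z ∧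
    D.edgeOf (.inl (z, i)) = D.eC d i := by
  obtain ⟨z, hz⟩ := z
  induction z using Sym2.ind with
  | _ u v =>
    refine ⟨⟨(u, v), hz⟩, rfl, ?_⟩
    exact D.edgeOf_inl ⟨(u, v), hz⟩ i

theorem edgeOf_injective : Function.Injective D.edgeOf := by
  -- a contact edge lies in two flat faces
  have hCN : ∀ d i d' i', D.eC d i ≠ D.eN d' i' := by
    intro d i d' i' h
    have h1 := (D.edge_eN_rect d' i').1
    rw [← h] at h1
    rcases D.faces_eC h1 with h2 | h2 <;> simp at h2
  have hCV : ∀ d i d', D.eC d i ≠ D.eV d' := by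
    intro d i d' h
    have h1 := (D.edge_eV1 d').1
    rw [← h] at h1
    rcases D.faces_eC h1 with h2 | h2 <;> simp at h2
  have hNV : ∀ d i d', D.eN d i ≠ D.eV d' := by
    intro d i d' h
    have h1 := (D.edge_eN_flat d i).1
    rw [h] at h1
    rcases D.faces_eV' h1 with h2 | h2 <;> simp at h2
  rintro (⟨z, i⟩ | ⟨d, i⟩ | d) (⟨z', i'⟩ | ⟨d', i'⟩ | d') h
  · obtain ⟨d, hd, hd1⟩ := D.exists_eC z i
    have h1 : (⟨d, i⟩ : Vtx G) ∈ D.edgeOf (.inl (z, i)) := by rw [hd1]; simp [eC]
    rw [h] at h1
    simp only [edgeOf, Finset.mem_filter, Finset.mem_univ, true_and] at h1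
    have h2 : z = z' := Subtype.ext (hd.symm.trans h1.1)
    rw [h2, h1.2]
  · exfalso
    obtain ⟨d, hd, hd1⟩ := D.exists_eC z i
    rw [hd1] at h
    exact hCN _ _ _ _ h
  · exfalso
    obtain ⟨d, hd, hd1⟩ := D.exists_eC z i
    rw [hd1] at h
    exact hCV _ _ _ h
  · exfalso
    obtain ⟨d, hd, hd1⟩ := D.exists_eC z' i'
    rw [hd1] at h
    exact hCN _ _ _ _ h.symm
  · have h1 := (D.edge_eN_rect d' i').1
    have h' : D.eN d i = D.eN d' i' := h
    rw [← h'] at h1
    rcases D.faces_eN h1 with h2 | h2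
    · simp at h2
    · simp only [FIdx.rect.injEq] at h2
      subst h2
      have h3 : (⟨d'.symm, i⟩ : Vtx G) ∈ D.eN d' i' := by rw [← h']; simp [eN]
      simp only [eN, Finset.mem_insert, Finset.mem_singleton] at h3
      have h4 : i = i' := by
        rcases h3 with h3 | h3
        · exact congrArg Vtx.i h3
        · exact congrArg Vtx.i h3
      rw [h4]
  · exact absurd h (hNV _ _ _)
  · exfalso
    obtain ⟨d, hd, hd1⟩ := D.exists_eC z' i'
    rw [hd1] at h
    exact hCV _ _ _ h.symm
  · exact absurd h.symm (hNV _ _ _)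
  · have h' : D.eV d = D.eV d' := h
    have h3 : (⟨d, false⟩ : Vtx G) ∈ D.eV d' := by rw [← h']; simp [eV]
    simp only [eV, Finset.mem_insert, Finset.mem_singleton] at h3
    have h4 : d = d' := by
      rcases h3 with h3 | h3
      · exact congrArg Vtx.d h3
      · exact congrArg Vtx.d h3
    rw [h4]

theorem edgeSet_eq : edgeSet D.x3 D.faces = Set.range D.edgeOf := by
  ext e
  constructor
  · rintro ⟨f, hf, he⟩
    obtain ⟨a, rfl⟩ := D.mem_faces.1 hf
    rcases D.two_faces he with ⟨d, i, rfl, -⟩ | ⟨d, i, rfl, -⟩ | ⟨d, rfl, -⟩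
    · exact ⟨_, D.edgeOf_inl d i⟩
    · exact ⟨.inr (.inl (d, i)), rfl⟩
    · exact ⟨.inr (.inr d), rfl⟩
  · rintro ⟨⟨z, i⟩ | ⟨d, i⟩ | d, rfl⟩
    · obtain ⟨d, -, hd⟩ := D.exists_eC z i
      rw [hd]
      exact ⟨_, D.face_mem _, D.edge_eC d i _ (Or.inl rfl)⟩
    · exact ⟨_, D.face_mem _, D.edge_eN_rect d i⟩
    · exact ⟨_, D.face_mem _, D.edge_eV1 d⟩

theorem ncard_edgeSet : (edgeSet D.x3 D.faces).ncard = 8 * Nat.card G.edgeSet := by
  rw [edgeSet_eq, ← card_eidx, ← Nat.card_coe_set_eq,
    Nat.card_range_of_injective D.edgeOf_injective]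

theorem card_faces (hdart : ∀ u : V, ∃ d : G.Dart, d.fst = u) :
    D.faces.card = 2 * Nat.card V + 2 * Nat.card G.edgeSet := by
  classical
  have h1 : D.faces.card = Nat.card (FIdx G) := by
    have h2 : D.faces = Finset.univ.image D.face := by
      unfold faces
      congr!
    rw [h2, Finset.card_image_of_injective _ (D.face_injective hdart), Finset.card_univ,
      Nat.card_eq_fintype_card]
  rw [h1, card_fidx, card_dart]

/-- The boundary of the thickened configuration is an `S_g`-polytope. -/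
theorem isSgPolytope (hne : Nonempty V) (hdart : ∀ u : V, ∃ d : G.Dart, d.fst = u)
    (hconn : ∀ u v : V, Relation.ReflTransGen G.Adj u v) :
    IsSgPolytope (Nat.card G.edgeSet + 1 - Nat.card V) D.x3 D.faces := by
  refine ⟨D.isPolyhedralSurface hne hdart hconn, ?_⟩
  have hG : G.Connected := by
    refine ⟨fun u v => ?_⟩
    rw [SimpleGraph.reachable_iff_reflTransGen]
    exact hconn u v
  have h1 := hG.card_vert_le_card_edgeSet_add_one
  have h2 : Fintype.card (Vtx G) = 4 * Nat.card G.edgeSet := by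
    rw [← Nat.card_eq_fintype_card, card_vtx, card_dart]; ring
  rw [h2, D.ncard_edgeSet, D.card_faces hdart, Nat.cast_sub h1]
  push_cast
  ring

end Closing

end PolySurf
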