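import Pool.Agent.Helper96.PolySurf.Closing
import Pool.Agent.Helper96.PolySurf.Step4

/-!
From a configuration (in which every contact graph vertex which is not isolated has degree at
least two) to closing data.
-/

namespace PolySurf

open Filter Topology

/-- cross product of the normals -/
def crossN (l l' : Aff) : Pt :=
  ⟨l.b * l'.c - l.c * l'.b, l.c * l'.a - l.a * l'.c, l.a * l'.b - l.b * l'.a⟩

theorem lin_crossN_left (l l' : Aff) : l.lin (crossN l l') = 0 := by
  simp only [Aff.lin, crossN]; ring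

theorem lin_crossN_right (l l' : Aff) : l'.lin (crossN l l') = 0 := by
  simp only [Aff.lin, crossN]; ring

variable {V : Type} {G : SimpleGraph V}

/-- ends of the contact edges -/
def Config.bb (C : Config G) (σ : ℝ) (d : G.Dart) : Pt :=
  (C.q d.fst d.snd).move (crossN (C.f d.fst) (C.f d.snd)) σ

theorem Config.bb_on1 (C : Config G) (σ : ℝ) (d : G.Dart) : (C.f d.fst).ev (C.bb σ d) = 0 := by
  rw [Config.bb, Aff.ev_move, lin_crossN_left, C.on_q _ _ d.adj]; ring

theorem Config.bb_on2 (C : Config G) (σ : ℝ) (d : G.Dart) : (C.f d.snd).ev (C.bb σ d) = 0 := by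
  rw [Config.bb, Aff.ev_move, lin_crossN_right, C.q_symm _ _ d.adj, C.on_q _ _ d.adj.symm]; ring

theorem Config.bb_pos (C : Config G) (d d' : G.Dart) (h : d'.fst = d.fst ∨ d'.snd = d.fst)
    (h1 : d' ≠ d) (h2 : d' ≠ d.symm) :
    ∀ᶠ σ in 𝓝[>] (0:ℝ), 0 < (C.f d.snd).ev (C.bb σ d') := by
  apply ev_move
  rcases h with h | h
  · rw [h]
    refine C.pos_q d.fst d.snd d'.snd d.adj ?_ ?_
    · have := d'.adj; rwa [h] at this
    · intro h3; exact h1 (dart_ext h h3)
  · rw [C.q_symm _ _ d'.adj, h]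
    refine C.pos_q d.fst d.snd d'.fst d.adj ?_ ?_
    · have := d'.adj.symm; rwa [h] at this
    · intro h3; exact h2 (dart_ext h3 h)

theorem Config.bb_orient (C : Config G) {σ : ℝ} (d d' : G.Dart)
    (h : d'.fst = d.fst ∨ d'.snd = d.fst) :
    O (C.bb σ d) (C.bb σ d.symm) (C.bb σ d') =
      2 * σ * (C.f d.fst).c * (C.f d.snd).ev (C.bb σ d') := by
  have e1 := C.bb_on1 σ d
  have e2 := C.bb_on2 σ d
  have e3 : (C.f d.fst).ev (C.bb σ d') = 0 := by
    rcases h with h | h
    · rw [← h]; exact C.bb_on1 σ d'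
    · rw [← h]; exact C.bb_on2 σ d'
  have e4 : C.bb σ d.symm = (C.bb σ d).move (crossN (C.f d.fst) (C.f d.snd)) (-2 * σ) := by
    have hq := C.q_symm _ _ d.adj
    simp only [Config.bb, dart_symm_fst, dart_symm_snd, ← hq, Pt.move, crossN, Pt.mk.injEq]
    refine ⟨by ring, by ring, by ring⟩
  rw [e4]
  generalize C.bb σ d = p at *
  generalize C.bb σ d' = r at *
  simp only [O, Pt.move, crossN, Aff.ev] at *
  linear_combination (-2 * σ * (C.f d.snd).c) * (e3 - e1) - (2 * σ * (C.f d.fst).c) * e2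

theorem exists_closing [Finite V] (C : Config G)
    (hdeg : ∀ d : G.Dart, ∃ d' : G.Dart, d'.fst = d.fst ∧ d' ≠ d) : Nonempty (Closing G) := by
  have hfin : Finite G.Dart := by
    classical
    have := Fintype.ofFinite V
    infer_instance
  -- choice of σ
  have a1 : ∀ᶠ σ in 𝓝[>] (0:ℝ), ∀ d d' : G.Dart, (d'.fst = d.fst ∨ d'.snd = d.fst) →
      d' ≠ d → d' ≠ d.symm → 0 < (C.f d.snd).ev (C.bb σ d') := by
    rw [eventually_all]; intro d
    rw [eventually_all]; intro d'
    simp only [eventually_imp_distrib_left]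
    intro h h1 h2
    exact C.bb_pos d d' h h1 h2
  have a2 : ∀ᶠ σ in 𝓝[>] (0:ℝ), ∀ u v, u ≠ v → ¬ G.Adj u v → ∃ l : Aff,
      (∀ d : G.Dart, (d.fst = u ∨ d.snd = u) → 0 < l.ev (C.bb σ d)) ∧
      (∀ d : G.Dart, (d.fst = v ∨ d.snd = v) → l.ev (C.bb σ d) < 0) := by
    rw [eventually_all]; intro u
    rw [eventually_all]; intro v
    simp only [eventually_imp_distrib_left]
    intro hne hadj
    obtain ⟨l, h1, h2⟩ := C.sep u v hne hadj
    have key : ∀ (l : Aff) (u : V), PosOn G C.q C.e l u → ∀ᶠ σ in 𝓝[>] (0:ℝ),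
        ∀ d : G.Dart, (d.fst = u ∨ d.snd = u) → 0 < l.ev (C.bb σ d) := by
      intro l u hu
      rw [eventually_all]; intro d
      rw [eventually_imp_distrib_left]
      intro h
      apply ev_move
      rcases h with h | h
      · rw [h]; apply hu.2; have := d.adj; rwa [h] at this
      · rw [C.q_symm _ _ d.adj, h]; apply hu.2; have := d.adj.symm; rwa [h] at this
    filter_upwards [key l u h1, key l.neg v h2] with σ h3 h4
    refine ⟨l, h3, fun d hd => ?_⟩
    have := h4 d hd
    rw [Aff.ev_neg] at this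
    linarith
  obtain ⟨σ, hσ, b1, b2⟩ := (ev_gt.and (a1.and a2)).exists
  -- choice of w
  let W : ℝ → Pt := fun t => ⟨t, t ^ 2, 1⟩
  have a3 : ∀ᶠ t in 𝓝[>] (0:ℝ), ∀ u, 0 < (C.f u).lin (W t) := by
    rw [eventually_all]; intro u
    exact ev_pos (F := fun t => (C.f u).lin (W t)) (by simp only [Aff.lin, W]; fun_prop)
      (by simpa [Aff.lin, W] using C.hc u)
  have a4 : ∀ᶠ t in 𝓝[>] (0:ℝ), ∀ i j k : G.Dart,
      det3 ((C.bb σ j).sub (C.bb σ i)) ((C.bb σ k).sub (C.bb σ i)) (W t) = 0 →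
      ((C.bb σ j).sub (C.bb σ i)).z * ((C.bb σ k).sub (C.bb σ i)).m =
        ((C.bb σ j).sub (C.bb σ i)).m * ((C.bb σ k).sub (C.bb σ i)).z ∧
      ((C.bb σ j).sub (C.bb σ i)).m * ((C.bb σ k).sub (C.bb σ i)).x =
        ((C.bb σ j).sub (C.bb σ i)).x * ((C.bb σ k).sub (C.bb σ i)).m ∧
      ((C.bb σ j).sub (C.bb σ i)).x * ((C.bb σ k).sub (C.bb σ i)).z =
        ((C.bb σ j).sub (C.bb σ i)).z * ((C.bb σ k).sub (C.bb σ i)).x := by
    rw [eventually_all]; intro i
    rw [eventually_all]; intro j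
    rw [eventually_all]; intro k
    set A := (C.bb σ j).sub (C.bb σ i)
    set r := (C.bb σ k).sub (C.bb σ i)
    set N1 := A.z * r.m - A.m * r.z with hN1
    set N2 := A.m * r.x - A.x * r.m with hN2
    set N3 := A.x * r.z - A.z * r.x with hN3
    have e : ∀ t, det3 A r (W t) = t * (N1 + t * N2) + N3 := by
      intro t; simp only [det3, W, hN1, hN2, hN3]; ring
    by_cases h3 : N3 = 0
    · by_cases h1 : N1 = 0
      · by_cases h2 : N2 = 0
        · refine Eventually.of_forall fun t _ => ⟨by linarith, by linarith, by linarith⟩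
        · filter_upwards [ev_gt] with t ht h0
          rw [e, h1, h3] at h0
          exfalso
          have : t * t * N2 = 0 := by linarith
          rcases mul_eq_zero.1 this with h4 | h4
          · nlinarith
          · exact h2 h4
      · filter_upwards [ev_gt, Par.ev_ne (F := fun t => N1 + t * N2) (by fun_prop)
          (by simpa using h1)] with t ht h4 h0
        rw [e, h3, add_zero] at h0
        exfalso
        rcases mul_eq_zero.1 h0 with h5 | h5
        · exact ht.ne' h5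
        · exact h4 h5
    · filter_upwards [Par.ev_ne (F := fun t => t * (N1 + t * N2) + N3) (by fun_prop)
        (by simpa using h3)] with t h4 h0
      rw [e] at h0
      exact absurd h0 h4
  obtain ⟨t, b3, b4⟩ := (a3.and a4).exists
  -- choice of θ
  have a5 : ∀ᶠ θ in 𝓝[>] (0:ℝ), ∀ u v, u ≠ v → ¬ G.Adj u v → ∃ l : Aff,
      (∀ d : G.Dart, (d.fst = u ∨ d.snd = u) →
        0 < l.ev (C.bb σ d) ∧ 0 < l.ev ((C.bb σ d).move (W t) θ)) ∧
      (∀ d : G.Dart, (d.fst = v ∨ d.snd = v) →
        l.ev (C.bb σ d) < 0 ∧ l.ev ((C.bb σ d).move (W t) θ) < 0) := by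
    rw [eventually_all]; intro u
    rw [eventually_all]; intro v
    simp only [eventually_imp_distrib_left]
    intro hne hadj
    obtain ⟨l, h1, h2⟩ := b2 u v hne hadj
    have key : ∀ (l : Aff) (u : V), (∀ d : G.Dart, (d.fst = u ∨ d.snd = u) →
        0 < l.ev (C.bb σ d)) → ∀ᶠ θ in 𝓝[>] (0:ℝ), ∀ d : G.Dart, (d.fst = u ∨ d.snd = u) →
        0 < l.ev ((C.bb σ d).move (W t) θ) := by
      intro l u hu
      rw [eventually_all]; intro d
      rw [eventually_imp_distrib_left]
      intro h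
      exact ev_move (hu d h)
    filter_upwards [key l u h1, key l.neg v fun d hd => by
      rw [Aff.ev_neg]; linarith [h2 d hd]] with θ h3 h4
    refine ⟨l, fun d hd => ⟨h1 d hd, h3 d hd⟩, fun d hd => ⟨h2 d hd, ?_⟩⟩
    have := h4 d hd
    rw [Aff.ev_neg] at this
    linarith
  obtain ⟨θ, hθ, b5⟩ := (ev_gt.and a5).exists
  exact ⟨{
    f := C.f
    b := C.bb σ
    w := W t
    θ := θ
    hθ := hθ
    hc := C.hc
    hw := b3
    on1 := C.bb_on1 σ
    on2 := C.bb_on2 σ
    deg := hdeg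
    pos := b1
    orient := fun d d' h h1 h2 => by
      rw [C.bb_orient d d' h]
      exact mul_pos (mul_pos (mul_pos two_pos hσ) (C.hc _)) (b1 d d' h h1 h2)
    sep := b5
    gen := b4 }⟩

end PolySurf
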